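import Pool.Agent.Lib_MP_af4de1_q.QFin

/-!
# `N = 1`, `9/2 ≤ ρ ≤ 8`: the hypothesis `n1a` of `SokalV3.dist_F1_chain`
-/

set_option autoImplicit false

namespace SokalQ

theorem n1a (α r : ℝ) (h1 : 0 < α) (h2 : 50 ≤ r) (h3 : 9 / 2 ≤ α * r) (h4 : α * r ≤ 8)
    (_h5 : 1 + (α * r) ^ 2 ≤ 7.2552 * r) : SokalFU.Dist α r := by
  have h6 : α * 50 ≤ α * r := mul_le_mul_of_nonneg_left h2 h1.le
  exact dist_mid2 h1 (by linarith) h3 h4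

end SokalQ
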