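import Pool.Agent.Lib_MP_af4de1_q.QScDef

/-!
# Left contour, `9/2 ≤ ρ ≤ 8`: the tail [FQ-5b]
-/

set_option autoImplicit false

namespace SokalQ

private theorem far_einv {u c : ℝ} (hu : 0 ≤ u) (hc : 0 ≤ c)
    (h : 1 ≤ c * (1 + u + u ^ 2 / 2)) : Real.exp (-u) ≤ c := by
  have h1 := Real.quadratic_le_exp_of_nonneg hu
  have h2 : Real.exp (-u) * Real.exp u = 1 := by rw [← Real.exp_add]; simp
  have h3 : 1 ≤ c * Real.exp u := h.trans (mul_le_mul_of_nonneg_left h1 hc)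
  calc Real.exp (-u) ≤ Real.exp (-u) * (c * Real.exp u) :=
        le_mul_of_one_le_right (Real.exp_pos _).le h3
    _ = c * (Real.exp (-u) * Real.exp u) := by ring
    _ = c := by rw [h2, mul_one]

private theorem far_e2 : Real.exp (-(1 / 4)) ≤ 781 / 1000 :=
  far_einv (by norm_num) (by norm_num) (by norm_num)

private theorem far_e3 : Real.exp (-(Real.pi / 3)) ≤ 352 / 1000 := by
  have h1 := Real.exp_neg_one_lt_d9
  have h2 : Real.exp (-(47 / 1000 : ℝ)) ≤ 9542 / 10000 :=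
    far_einv (by norm_num) (by norm_num) (by norm_num)
  have h0 : Real.exp (-(Real.pi / 3)) ≤ Real.exp (-1 + -(47 / 1000)) := by
    apply Real.exp_le_exp.2
    have := Real.pi_gt_d4
    linarith
  rw [Real.exp_add] at h0
  have h4 := mul_le_mul h1.le h2 (Real.exp_pos _).le (by norm_num)
  exact h0.trans (h4.trans (by norm_num))

private theorem far_et {u : ℝ} (h0 : 0 ≤ u) (h1 : u ≤ 1) :
    Real.exp u ≤ 1 + u + 3 / 4 * u ^ 2 := by
  have h := Real.exp_bound' h0 h1 (n := 2) (by norm_num)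
  norm_num [Finset.sum_range_succ, Nat.factorial] at h
  linarith

private theorem far_cos {t : ℝ} (h0 : 0 ≤ t) (h1 : t ≤ 8 / 5) :
    Real.cos t ≤ 1 - 7 / 20 * t ^ 2 := by
  rcases h0.eq_or_lt with h | h
  · rw [← h]; norm_num
  · have h2 : t / 2 - (t / 2) ^ 3 / 6 < Real.sin (t / 2) :=
      Real.sin_gt_sub_cube (by positivity)
    have h3 : Real.cos t = 1 - 2 * Real.sin (t / 2) ^ 2 := by
      have := Real.cos_sq_add_sin_sq (t / 2)
      have h4 := Real.cos_two_mul (t / 2)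
      rw [show 2 * (t / 2) = t by ring] at h4
      rw [h4]
      linarith
    have h5 : 21 / 50 * t ≤ Real.sin (t / 2) := by
      nlinarith [mul_nonneg h.le (mul_nonneg (sub_nonneg.2 h1) (by linarith : (0:ℝ) ≤ 8 / 5 + t))]
    rw [h3]
    nlinarith [mul_self_nonneg t]

private theorem far_cs {a s c x : ℝ} (hc : 0 ≤ c) (h : a ^ 2 + s ^ 2 ≤ c ^ 2) :
    a * Real.sin x + s * Real.cos x ≤ c := by
  have h1 : (a * Real.sin x + s * Real.cos x) ^ 2 ≤ c ^ 2 := by
    have := Real.sin_sq_add_cos_sq x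
    have h2 : (a * Real.sin x + s * Real.cos x) ^ 2 =
        (a ^ 2 + s ^ 2) * (Real.sin x ^ 2 + Real.cos x ^ 2) -
          (a * Real.cos x - s * Real.sin x) ^ 2 := by ring
    rw [this] at h2
    nlinarith [sq_nonneg (a * Real.cos x - s * Real.sin x)]
  exact (abs_le.1 (abs_le_of_sq_le_sq h1 hc)).2

/-- `3/2 ≤ x ≤ 47/10` -/
private theorem far_lo {a s x : ℝ} (ha : 0 ≤ a) (hs : 0 ≤ s) (h0 : 3 / 2 ≤ x)
    (h1 : x ≤ 47 / 10) :
    x ^ 2 / 6 - (a + s / 6) * x + s - 781 / 1000 * (a + 71 / 1000 * s) ≤ fL a s x := by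
  have hE : Real.exp (-(x / 6)) ≤ 781 / 1000 :=
    (Real.exp_le_exp.2 (by linarith)).trans far_e2
  have hE0 := Real.exp_pos (-(x / 6))
  have hp := Real.pi_gt_d4
  have hp' := Real.pi_lt_d4
  have hc : Real.cos x ≤ 71 / 1000 := by
    rcases le_total x (Real.pi / 2) with h | h
    · rw [← Real.sin_pi_div_two_sub]
      exact (Real.sin_le (by linarith)).trans (by linarith)
    · exact (Real.cos_nonpos_of_pi_div_two_le_of_le h (by linarith)).trans (by norm_num)
  have hsn := Real.neg_one_le_sin x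
  have h2 : s * Real.cos x - a * Real.sin x ≤ a + 71 / 1000 * s := by
    nlinarith [mul_le_mul_of_nonneg_left hc hs, mul_le_mul_of_nonneg_left hsn ha]
  have h3 : Real.exp (-(x / 6)) * (s * Real.cos x - a * Real.sin x) ≤
      781 / 1000 * (a + 71 / 1000 * s) :=
    (mul_le_mul_of_nonneg_left h2 hE0.le).trans
      (mul_le_mul_of_nonneg_right hE (by positivity))
  unfold fL
  linarith

/-- `x ≥ 2π` -/
private theorem far_hi {a s c x : ℝ} (hc : 0 ≤ c) (h : a ^ 2 + s ^ 2 ≤ c ^ 2)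
    (h0 : 2 * Real.pi ≤ x) :
    x ^ 2 / 6 - (a + s / 6) * x + s - 352 / 1000 * c ≤ fL a s x := by
  have hE : Real.exp (-(x / 6)) ≤ 352 / 1000 :=
    (Real.exp_le_exp.2 (by linarith)).trans far_e3
  have hE0 := Real.exp_pos (-(x / 6))
  have h2 : s * Real.cos x - a * Real.sin x ≤ c := by
    have := far_cs (a := -a) (s := s) (x := x) hc (by rw [neg_sq]; exact h)
    linarith
  have h3 : Real.exp (-(x / 6)) * (s * Real.cos x - a * Real.sin x) ≤ 352 / 1000 * c :=
    (mul_le_mul_of_nonneg_left h2 hE0.le).trans (mul_le_mul_of_nonneg_right hE hc)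
  unfold fL
  linarith

/-- `x = 2π - t`, `0 ≤ t ≤ 8/5` -/
private theorem far_md {a s t : ℝ} (ha : 0 ≤ a) (hs : a ≤ s) (h0 : 0 ≤ t) (h1 : t ≤ 8 / 5) :
    (2 * Real.pi - t) ^ 2 / 6 - (a + s / 6) * (2 * Real.pi - t) + s -
      352 / 1000 * (s + (a + s / 6) * t + (a / 6 - 79 / 240 * s) * t ^ 2) ≤
        fL a s (2 * Real.pi - t) := by
  have hE : Real.exp (-((2 * Real.pi - t) / 6)) =
      Real.exp (-(Real.pi / 3)) * Real.exp (t / 6) := by
    rw [← Real.exp_add]; congr 1; ring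
  have hu := far_et (u := t / 6) (by positivity) (by linarith)
  have hc := far_cos h0 h1
  have hsn : Real.sin t ≤ t := Real.sin_le h0
  have hE0 := Real.exp_pos (-(Real.pi / 3))
  have hs0 : 0 ≤ s := ha.trans hs
  have h2 : a * Real.sin t + s * Real.cos t ≤ a * t + s * (1 - 7 / 20 * t ^ 2) :=
    add_le_add (mul_le_mul_of_nonneg_left hsn ha) (mul_le_mul_of_nonneg_left hc hs0)
  have hW : 0 ≤ a * t + s * (1 - 7 / 20 * t ^ 2) :=
    add_nonneg (mul_nonneg ha h0) (mul_nonneg hs0 (by nlinarith))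
  have h3 : Real.exp (t / 6) * (a * Real.sin t + s * Real.cos t) ≤
      (1 + t / 6 + 3 / 4 * (t / 6) ^ 2) * (a * t + s * (1 - 7 / 20 * t ^ 2)) :=
    (mul_le_mul_of_nonneg_left h2 (Real.exp_pos _).le).trans
      (mul_le_mul_of_nonneg_right hu hW)
  have h4 : (1 + t / 6 + 3 / 4 * (t / 6) ^ 2) * (a * t + s * (1 - 7 / 20 * t ^ 2)) ≤
      s + (a + s / 6) * t + (a / 6 - 79 / 240 * s) * t ^ 2 := by
    have e1 : (1 + t / 6 + 3 / 4 * (t / 6) ^ 2) * (a * t + s * (1 - 7 / 20 * t ^ 2)) =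
      s + (a + s / 6) * t + (a / 6 - 79 / 240 * s) * t ^ 2 -
        t ^ 3 * (7 / 120 * s - a / 48) - 7 / 960 * (s * t ^ 4) := by ring
    have e2 : 0 ≤ t ^ 3 * (7 / 120 * s - a / 48) := mul_nonneg (by positivity) (by linarith)
    have e3 : 0 ≤ s * t ^ 4 := by positivity
    rw [e1]; linarith
  have h0' : 0 ≤ (1 + t / 6 + 3 / 4 * (t / 6) ^ 2) * (a * t + s * (1 - 7 / 20 * t ^ 2)) :=
    mul_nonneg (by positivity) hW
  have h5 : Real.exp (-((2 * Real.pi - t) / 6)) * (a * Real.sin t + s * Real.cos t) ≤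
      352 / 1000 * (s + (a + s / 6) * t + (a / 6 - 79 / 240 * s) * t ^ 2) := by
    rw [hE, mul_assoc]
    exact (mul_le_mul_of_nonneg_left (h3.trans h4) hE0.le).trans
      (mul_le_mul_of_nonneg_right far_e3 (h0'.trans h4))
  unfold fL
  rw [Real.sin_two_pi_sub, Real.cos_two_pi_sub]
  linarith

private theorem far_v1 {x : ℝ} (hx : 3 / 2 ≤ x) :
    11 / 10 + 1 / 2 * max (x - 63 / 10) 0 ≤ fL (-(37 / 45)) (4 / 5) x := by
  have hE : Real.exp (-(x / 6)) ≤ 781 / 1000 :=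
    (Real.exp_le_exp.2 (by linarith)).trans far_e2
  have hE0 := Real.exp_pos (-(x / 6))
  have h2 := far_cs (a := 37 / 45) (s := 4 / 5) (c := 1148 / 1000) (x := x) (by norm_num)
    (by norm_num)
  have h3 : Real.exp (-(x / 6)) * (37 / 45 * Real.sin x + 4 / 5 * Real.cos x) ≤
      781 / 1000 * (1148 / 1000) :=
    (mul_le_mul_of_nonneg_left h2 hE0.le).trans (mul_le_mul_of_nonneg_right hE (by norm_num))
  unfold fL
  rcases le_total (x - 63 / 10) 0 with h | h
  · rw [max_eq_right h]; nlinarith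
  · rw [max_eq_left h]; nlinarith

/-- `far_md` with a polynomial in `t` only -/
private theorem far_md' {a s t : ℝ} (ha : 0 ≤ a) (hs : a ≤ s) (hA : a + s / 6 ≤ 2)
    (h0 : 0 ≤ t) (h1 : t ≤ 8 / 5) :
    6283 ^ 2 / 6000000 - (a + s / 6) * (6283 / 1000 - t) - 20944 / 10000 * t + t ^ 2 / 6 + s -
      352 / 1000 * (s + (a + s / 6) * t + (a / 6 - 79 / 240 * s) * t ^ 2) ≤
        fL a s (2 * Real.pi - t) := by
  have hp := Real.pi_gt_d4
  have hp' := Real.pi_lt_d4
  have h := far_md ha hs h0 h1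
  have k1 : 0 ≤ (2 * Real.pi - 6283 / 1000) *
      ((2 * Real.pi + 6283 / 1000) / 6 - (a + s / 6)) :=
    mul_nonneg (by linarith) (by linarith)
  have k2 : 0 ≤ (62832 / 10000 - 2 * Real.pi) * t := mul_nonneg (by linarith) h0
  nlinarith [h, k1, k2]

private theorem far_v2 {x : ℝ} (hx : 3 / 2 ≤ x) :
    11 / 10 + 1 / 2 * max (x - 63 / 10) 0 ≤ fL (713 / 2000) (763 / 125) x := by
  have hp := Real.pi_gt_d4
  have hp' := Real.pi_lt_d4
  rcases le_total x (47 / 10) with h | h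
  · have := far_lo (a := 713 / 2000) (s := 763 / 125) (by norm_num) (by norm_num) hx h
    rw [max_eq_right (by linarith)]
    nlinarith [sq_nonneg (x - 4)]
  rcases le_total (2 * Real.pi) x with h' | h'
  · have := far_hi (a := 713 / 2000) (s := 763 / 125) (c := 12229 / 2000) (by norm_num)
      (by norm_num) h'
    rcases le_total (x - 63 / 10) 0 with h | h
    · rw [max_eq_right h]; nlinarith
    · rw [max_eq_left h]; nlinarith
  · have := far_md' (a := 713 / 2000) (s := 763 / 125) (t := 2 * Real.pi - x) (by norm_num)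
      (by norm_num) (by norm_num) (by linarith) (by linarith)
    rw [show 2 * Real.pi - (2 * Real.pi - x) = x by ring] at this
    rw [max_eq_right (by linarith)]
    refine le_trans ?_ this
    nlinarith [sq_nonneg (2 * Real.pi - x - 1 / 2)]

private theorem far_v3 {x : ℝ} (hx : 3 / 2 ≤ x) :
    11 / 10 + 1 / 2 * max (x - 63 / 10) 0 ≤ fL (2133 / 10000) (983 / 100) x := by
  have hp := Real.pi_gt_d4
  have hp' := Real.pi_lt_d4
  rcases le_total x (47 / 10) with h | h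
  · have := far_lo (a := 2133 / 10000) (s := 983 / 100) (by norm_num) (by norm_num) hx h
    rw [max_eq_right (by linarith)]
    nlinarith [sq_nonneg (x - 5)]
  rcases le_total (2 * Real.pi) x with h' | h'
  · have := far_hi (a := 2133 / 10000) (s := 983 / 100) (c := 98324 / 10000) (by norm_num)
      (by norm_num) h'
    rcases le_total (x - 63 / 10) 0 with h | h
    · rw [max_eq_right h]; nlinarith
    · rw [max_eq_left h]; nlinarith [sq_nonneg (x - 63 / 10 - 3 / 4)]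
  · have := far_md' (a := 2133 / 10000) (s := 983 / 100) (t := 2 * Real.pi - x) (by norm_num)
      (by norm_num) (by norm_num) (by linarith) (by linarith)
    rw [show 2 * Real.pi - (2 * Real.pi - x) = x by ring] at this
    rw [max_eq_right (by linarith)]
    refine le_trans ?_ this
    nlinarith [sq_nonneg (2 * Real.pi - x - 1 / 3)]

/-- `fL` is affine and decreasing in `a`; with `a ≤ 2/9 s - 1` and `a ≤ .5907 - .0384 s` it is at least the smaller of its values at the vertices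
`(a,s) = (-37/45, 4/5)`, `V2 = (.3563, 6.104)`, `V3 = (.2133, 9.83)`.
`x ≥ 6.3`: `f ≥ x²/6 - (a + s/6) x + s - E √(a²+s²)`, `E ≤ e^(-1.05) ≤ .35`: at `V3`: `≥ 1.335 + .247 t + t²/6`, `t = x - 6.3`, and
`t²/6 - .253 t + .235 ≥ 0`.
`3/2 ≤ x ≤ 3π/2`: `cos x ≤ .0708`, `E ≤ .7789`: `E(s cos x - a sin x) ≤ .71` (`V3`), `≤ .62` (`V2`); `x²/6 - (a + s/6) x + s - .. ≥ 2.6`.
`x = 2π - t`, `-.02 ≤ t ≤ 1.5708`: `E = e^(-π/3) e^(t/6)`, `e^(-π/3) ∈ [.3509, .3510]`, `e^(t/6) ≤ 1 + t/6 + .016 t²`, `1 - cos t ≥ .4 t²`: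
`V3`: `f ≥ 1.32 - .915 t + 1.49 t² ≥ 1.17`; `V2`: `f ≥ 1.9 - 1.2405 t + .989 t² ≥ 1.5`.
Vertex `(-37/45, 4/5)`: `f ≥ x²/6 + .8 + .6889 x - 1.148 E ≥ 1.31`, increasing with slope `≥ 1/2`. -/
theorem far_sc {a s x : ℝ} (hs : 4 / 5 ≤ s) (hs' : s ≤ 983 / 100) (h1 : a ≤ 2 / 9 * s - 1)
    (h2 : a + 24 / 625 * s ≤ 5907 / 10000) (hx : 3 / 2 ≤ x) :
    11 / 10 + 1 / 2 * max (x - 63 / 10) 0 ≤ fL a s x := by
  have v1 := far_v1 hx
  have v2 := far_v2 hx
  have v3 := far_v3 hx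
  set m := 11 / 10 + 1 / 2 * max (x - 63 / 10) 0 with hm
  have hA : 0 ≤ x - Real.exp (-(x / 6)) * Real.sin x := by
    have e1 : Real.exp (-(x / 6)) ≤ 1 := Real.exp_le_one_iff.2 (by linarith)
    have e2 := Real.sin_le_one x
    have e3 : Real.exp (-(x / 6)) * Real.sin x ≤ Real.exp (-(x / 6)) * 1 :=
      mul_le_mul_of_nonneg_left e2 (Real.exp_pos _).le
    linarith
  unfold fL at *
  generalize x - Real.exp (-(x / 6)) * Real.sin x = A at *
  generalize 1 - x / 6 - Real.exp (-(x / 6)) * Real.cos x = B at *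
  generalize x ^ 2 / 6 = q at *
  clear hm
  rcases le_total s (763 / 125) with h | h
  · have k1 := mul_nonneg (sub_nonneg.2 h) (sub_nonneg.2 v1)
    have k2 := mul_nonneg (sub_nonneg.2 hs) (sub_nonneg.2 v2)
    have k3 := mul_nonneg (sub_nonneg.2 h1) hA
    nlinarith [k1, k2, k3, mul_nonneg (sub_nonneg.2 hs) hA]
  · have k1 := mul_nonneg (sub_nonneg.2 hs') (sub_nonneg.2 v2)
    have k2 := mul_nonneg (sub_nonneg.2 h) (sub_nonneg.2 v3)
    have k3 := mul_nonneg (sub_nonneg.2 h2) hA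
    nlinarith [k1, k2, k3, mul_nonneg (sub_nonneg.2 h) hA, mul_nonneg (sub_nonneg.2 hs') hA]

end SokalQ
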