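import Pool.Agent.Lib_MP_af4de1_q.QScDef

/-!
# Left contour, `9/2 ≤ ρ ≤ 8`: scalar inequalities [FQ-5a]
-/

set_option autoImplicit false

namespace SokalQ

private theorem mono_QSc {F F' : ℝ → ℝ} (hF : ∀ x, HasDerivAt F (F' x) x) (h0 : F 0 = 0)
    (h : ∀ x, 0 ≤ x → 0 ≤ F' x) {x : ℝ} (hx : 0 ≤ x) : 0 ≤ F x := by
  have hm : MonotoneOn F (Set.Ici 0) := by
    refine monotoneOn_of_deriv_nonneg (convex_Ici 0)
      (fun y _ => (hF y).continuousAt.continuousWithinAt)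
      (fun y _ => (hF y).differentiableAt.differentiableWithinAt) (fun y hy => ?_)
    rw [interior_Ici] at hy
    rw [(hF y).deriv]
    exact h y (le_of_lt hy)
  have h1 := hm (Set.mem_Ici.2 le_rfl) (Set.mem_Ici.2 hx) hx
  rwa [h0] at h1

private theorem pw_QSc (k : ℕ) (c x : ℝ) : HasDerivAt (fun x : ℝ => x ^ k / c) (k * x ^ (k - 1) / c) x :=
  (hasDerivAt_pow k x).div_const c

private theorem sin3_QSc {x : ℝ} (hx : 0 ≤ x) : x - x ^ 3 / 6 ≤ Real.sin x := by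
  have h := mono_QSc (F := fun x => Real.sin x - (x - x ^ 3 / 6)) (F' := fun x => Real.cos x - (1 - x ^ 2 / 2))
    (fun x => ?_) (by simp) (fun x hx => ?_) hx
  · linarith
  · refine HasDerivAt.congr_deriv ((Real.hasDerivAt_sin x).sub ((hasDerivAt_id x).sub (pw_QSc 3 6 x))) ?_
    norm_num
    ring
  · have h := Real.one_sub_sq_div_two_le_cos (x := x)
    linarith

private theorem cos4_QSc {x : ℝ} (hx : 0 ≤ x) : Real.cos x ≤ 1 - x ^ 2 / 2 + x ^ 4 / 24 := by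
  have h := mono_QSc (F := fun x => (1 - x ^ 2 / 2 + x ^ 4 / 24) - Real.cos x) (F' := fun x => Real.sin x - (x - x ^ 3 / 6))
    (fun x => ?_) (by simp) (fun x hx => ?_) hx
  · linarith
  · refine HasDerivAt.congr_deriv ((((hasDerivAt_const x (1 : ℝ)).sub (pw_QSc 2 2 x)).add (pw_QSc 4 24 x)).sub (Real.hasDerivAt_cos x)) ?_
    norm_num
    ring
  · have h := sin3_QSc hx
    linarith

private theorem sin5_QSc {x : ℝ} (hx : 0 ≤ x) : Real.sin x ≤ x - x ^ 3 / 6 + x ^ 5 / 120 := by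
  have h := mono_QSc (F := fun x => (x - x ^ 3 / 6 + x ^ 5 / 120) - Real.sin x) (F' := fun x => (1 - x ^ 2 / 2 + x ^ 4 / 24) - Real.cos x)
    (fun x => ?_) (by simp) (fun x hx => ?_) hx
  · linarith
  · refine HasDerivAt.congr_deriv ((((hasDerivAt_id x).sub (pw_QSc 3 6 x)).add (pw_QSc 5 120 x)).sub (Real.hasDerivAt_sin x)) ?_
    norm_num
    ring
  · have h := cos4_QSc hx
    linarith

private theorem cos6_QSc {x : ℝ} (hx : 0 ≤ x) : 1 - x ^ 2 / 2 + x ^ 4 / 24 - x ^ 6 / 720 ≤ Real.cos x := by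
  have h := mono_QSc (F := fun x => Real.cos x - (1 - x ^ 2 / 2 + x ^ 4 / 24 - x ^ 6 / 720)) (F' := fun x => (x - x ^ 3 / 6 + x ^ 5 / 120) - Real.sin x)
    (fun x => ?_) (by simp) (fun x hx => ?_) hx
  · linarith
  · refine HasDerivAt.congr_deriv ((Real.hasDerivAt_cos x).sub ((((hasDerivAt_const x (1 : ℝ)).sub (pw_QSc 2 2 x)).add (pw_QSc 4 24 x)).sub (pw_QSc 6 720 x))) ?_
    norm_num
    ring
  · have h := sin5_QSc hx
    linarith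

private theorem sin7_QSc {x : ℝ} (hx : 0 ≤ x) : x - x ^ 3 / 6 + x ^ 5 / 120 - x ^ 7 / 5040 ≤ Real.sin x := by
  have h := mono_QSc (F := fun x => Real.sin x - (x - x ^ 3 / 6 + x ^ 5 / 120 - x ^ 7 / 5040)) (F' := fun x => Real.cos x - (1 - x ^ 2 / 2 + x ^ 4 / 24 - x ^ 6 / 720))
    (fun x => ?_) (by simp) (fun x hx => ?_) hx
  · linarith
  · refine HasDerivAt.congr_deriv ((Real.hasDerivAt_sin x).sub ((((hasDerivAt_id x).sub (pw_QSc 3 6 x)).add (pw_QSc 5 120 x)).sub (pw_QSc 7 5040 x))) ?_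
    norm_num
    ring
  · have h := cos6_QSc hx
    linarith

private theorem cos8_QSc {x : ℝ} (hx : 0 ≤ x) : Real.cos x ≤ 1 - x ^ 2 / 2 + x ^ 4 / 24 - x ^ 6 / 720 + x ^ 8 / 40320 := by
  have h := mono_QSc (F := fun x => (1 - x ^ 2 / 2 + x ^ 4 / 24 - x ^ 6 / 720 + x ^ 8 / 40320) - Real.cos x) (F' := fun x => Real.sin x - (x - x ^ 3 / 6 + x ^ 5 / 120 - x ^ 7 / 5040))
    (fun x => ?_) (by simp) (fun x hx => ?_) hx
  · linarith
  · refine HasDerivAt.congr_deriv ((((((hasDerivAt_const x (1 : ℝ)).sub (pw_QSc 2 2 x)).add (pw_QSc 4 24 x)).sub (pw_QSc 6 720 x)).add (pw_QSc 8 40320 x)).sub (Real.hasDerivAt_cos x)) ?_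
    norm_num
    ring
  · have h := sin7_QSc hx
    linarith

private theorem sin9_QSc {x : ℝ} (hx : 0 ≤ x) : Real.sin x ≤ x - x ^ 3 / 6 + x ^ 5 / 120 - x ^ 7 / 5040 + x ^ 9 / 362880 := by
  have h := mono_QSc (F := fun x => (x - x ^ 3 / 6 + x ^ 5 / 120 - x ^ 7 / 5040 + x ^ 9 / 362880) - Real.sin x) (F' := fun x => (1 - x ^ 2 / 2 + x ^ 4 / 24 - x ^ 6 / 720 + x ^ 8 / 40320) - Real.cos x)
    (fun x => ?_) (by simp) (fun x hx => ?_) hx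
  · linarith
  · refine HasDerivAt.congr_deriv ((((((hasDerivAt_id x).sub (pw_QSc 3 6 x)).add (pw_QSc 5 120 x)).sub (pw_QSc 7 5040 x)).add (pw_QSc 9 362880 x)).sub (Real.hasDerivAt_sin x)) ?_
    norm_num
    ring
  · have h := cos8_QSc hx
    linarith

private theorem cos10_QSc {x : ℝ} (hx : 0 ≤ x) : 1 - x ^ 2 / 2 + x ^ 4 / 24 - x ^ 6 / 720 + x ^ 8 / 40320 - x ^ 10 / 3628800 ≤ Real.cos x := by
  have h := mono_QSc (F := fun x => Real.cos x - (1 - x ^ 2 / 2 + x ^ 4 / 24 - x ^ 6 / 720 + x ^ 8 / 40320 - x ^ 10 / 3628800)) (F' := fun x => (x - x ^ 3 / 6 + x ^ 5 / 120 - x ^ 7 / 5040 + x ^ 9 / 362880) - Real.sin x)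
    (fun x => ?_) (by simp) (fun x hx => ?_) hx
  · linarith
  · refine HasDerivAt.congr_deriv ((Real.hasDerivAt_cos x).sub ((((((hasDerivAt_const x (1 : ℝ)).sub (pw_QSc 2 2 x)).add (pw_QSc 4 24 x)).sub (pw_QSc 6 720 x)).add (pw_QSc 8 40320 x)).sub (pw_QSc 10 3628800 x))) ?_
    norm_num
    ring
  · have h := sin9_QSc hx
    linarith

private theorem sin11_QSc {x : ℝ} (hx : 0 ≤ x) : x - x ^ 3 / 6 + x ^ 5 / 120 - x ^ 7 / 5040 + x ^ 9 / 362880 - x ^ 11 / 39916800 ≤ Real.sin x := by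
  have h := mono_QSc (F := fun x => Real.sin x - (x - x ^ 3 / 6 + x ^ 5 / 120 - x ^ 7 / 5040 + x ^ 9 / 362880 - x ^ 11 / 39916800)) (F' := fun x => Real.cos x - (1 - x ^ 2 / 2 + x ^ 4 / 24 - x ^ 6 / 720 + x ^ 8 / 40320 - x ^ 10 / 3628800))
    (fun x => ?_) (by simp) (fun x hx => ?_) hx
  · linarith
  · refine HasDerivAt.congr_deriv ((Real.hasDerivAt_sin x).sub ((((((hasDerivAt_id x).sub (pw_QSc 3 6 x)).add (pw_QSc 5 120 x)).sub (pw_QSc 7 5040 x)).add (pw_QSc 9 362880 x)).sub (pw_QSc 11 39916800 x))) ?_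
    norm_num
    ring
  · have h := cos10_QSc hx
    linarith

private theorem em2_QSc {t : ℝ} (ht : 0 ≤ t) : Real.exp (-t) ≤ 1 - t + t ^ 2 / 2 := by
  have h := mono_QSc (F := fun t => (1 - t + t ^ 2 / 2) - Real.exp (-t))
    (F' := fun t => Real.exp (-t) - (1 - t)) (fun x => ?_) (by simp) (fun x hx => ?_) ht
  · linarith
  · have hd : HasDerivAt (fun t : ℝ => Real.exp (-t)) (Real.exp (-x) * (-1)) x :=
      (hasDerivAt_neg x).exp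
    refine HasDerivAt.congr_deriv ((((hasDerivAt_const x (1 : ℝ)).sub (hasDerivAt_id x)).add
      (pw_QSc 2 2 x)).sub hd) ?_
    norm_num
    ring
  · have h := Real.add_one_le_exp (-x)
    linarith

private theorem em3_QSc {t : ℝ} (ht : 0 ≤ t) : 1 - t + t ^ 2 / 2 - t ^ 3 / 6 ≤ Real.exp (-t) := by
  have h := mono_QSc (F := fun t => Real.exp (-t) - (1 - t + t ^ 2 / 2 - t ^ 3 / 6))
    (F' := fun t => (1 - t + t ^ 2 / 2) - Real.exp (-t)) (fun x => ?_) (by simp) (fun x hx => ?_) ht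
  · linarith
  · have hd : HasDerivAt (fun t : ℝ => Real.exp (-t)) (Real.exp (-x) * (-1)) x :=
      (hasDerivAt_neg x).exp
    refine HasDerivAt.congr_deriv (hd.sub ((((hasDerivAt_const x (1 : ℝ)).sub (hasDerivAt_id x)).add
      (pw_QSc 2 2 x)).sub (pw_QSc 3 6 x))) ?_
    norm_num
    ring
  · have h := em2_QSc hx
    linarith

private theorem ep3_QSc {t : ℝ} (ht : 0 ≤ t) : 1 + t + t ^ 2 / 2 + t ^ 3 / 6 ≤ Real.exp t := by
  have h := Real.sum_le_exp_of_nonneg ht 4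
  refine le_trans (le_of_eq ?_) h
  simp [Finset.sum_range_succ, Nat.factorial]

private theorem ep4_QSc {t : ℝ} (ht : 0 ≤ t) (h1 : t ≤ 1) :
    Real.exp t ≤ 1 + t + t ^ 2 / 2 + t ^ 3 / 6 + 5 / 96 * t ^ 4 := by
  have h := Real.exp_bound' ht h1 (n := 4) (by norm_num)
  refine h.trans (le_of_eq ?_)
  simp [Finset.sum_range_succ, Nat.factorial]
  ring

private theorem poly1_QSc {x : ℝ} (h0 : 0 ≤ x) (h1 : x ≤ 3 / 2) :
    0 ≤ 1 - x / 6 - (1 - x / 6 + (x / 6) ^ 2 / 2) * (1 - x ^ 2 / 2 + x ^ 4 / 24) - 3 / 10 * x ^ 2 := by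
  obtain ⟨y, hy⟩ : ∃ y, y = 3 / 2 - x := ⟨_, rfl⟩
  have hy0 : 0 ≤ y := by rw [hy]; linarith
  have e : 1 - x / 6 - (1 - x / 6 + (x / 6) ^ 2 / 2) * (1 - x ^ 2 / 2 + x ^ 4 / 24) - 3 / 10 * x ^ 2 =
      x ^ 2 * (134 / 3645 * y ^ 4 +
      446 / 3645 * x ^ 1 * y ^ 3 +
      637 / 4860 * x ^ 2 * y ^ 2 +
      1363 / 29160 * x ^ 3 * y ^ 1 +
      161 / 233280 * x ^ 4) := by
    rw [hy]
    ring
  rw [e]
  positivity

private theorem poly2_QSc {x : ℝ} (h0 : 0 ≤ x) (h1 : x ≤ 3 / 2) :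
    0 ≤ x - (1 - x / 6 + (x / 6) ^ 2 / 2) * (x - x ^ 3 / 6 + x ^ 5 / 120) - 1 / 6 * x ^ 2 := by
  obtain ⟨y, hy⟩ : ∃ y, y = 3 / 2 - x := ⟨_, rfl⟩
  have hy0 : 0 ≤ y := by rw [hy]; linarith
  have e : x - (1 - x / 6 + (x / 6) ^ 2 / 2) * (x - x ^ 3 / 6 + x ^ 5 / 120) - 1 / 6 * x ^ 2 =
      x ^ 3 * (22 / 729 * y ^ 4 +
      82 / 729 * x ^ 1 * y ^ 3 +
      83 / 540 * x ^ 2 * y ^ 2 +
      2671 / 29160 * x ^ 3 * y ^ 1 +
      937 / 46656 * x ^ 4) := by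
    rw [hy]
    ring
  rw [e]
  positivity

private theorem poly3_QSc {x : ℝ} (h0 : 0 ≤ x) (h1 : x ≤ 3 / 2) :
    0 ≤ 81 / 250 * x ^ 2 - (x - (1 - x / 6 + (x / 6) ^ 2 / 2 - (x / 6) ^ 3 / 6) * (x - x ^ 3 / 6 + x ^ 5 / 120 - x ^ 7 / 5040)) := by
  obtain ⟨y, hy⟩ : ∃ y, y = 3 / 2 - x := ⟨_, rfl⟩
  have hy0 : 0 ≤ y := by rw [hy]; linarith
  have e : 81 / 250 * x ^ 2 - (x - (1 - x / 6 + (x / 6) ^ 2 / 2 - (x / 6) ^ 3 / 6) * (x - x ^ 3 / 6 + x ^ 5 / 120 - x ^ 7 / 5040)) =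
      x ^ 2 * (15104 / 2460375 * y ^ 8 +
      32944 / 820125 * x ^ 1 * y ^ 7 +
      824236 / 7381125 * x ^ 2 * y ^ 6 +
      140258 / 820125 * x ^ 3 * y ^ 5 +
      17063 / 109350 * x ^ 4 * y ^ 4 +
      35192707 / 413343000 * x ^ 5 * y ^ 3 +
      14355113 / 551124000 * x ^ 6 * y ^ 2 +
      1344737 / 367416000 * x ^ 7 * y ^ 1 +
      1287829 / 13226976000 * x ^ 8) := by
    rw [hy]
    ring
  rw [e]
  positivity

private theorem poly4_QSc {x : ℝ} (h0 : 0 ≤ x) (h1 : x ≤ 2) :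
    0 ≤ 1 + x / 6 - ((1 + x / 6 + (x / 6) ^ 2 / 2 + (x / 6) ^ 3 / 6) * (1 - x ^ 2 / 2 + x ^ 4 / 24 - x ^ 6 / 720 + x ^ 8 / 40320) + 5 / 96 * (x / 6) ^ 4) - 47 / 100 * x ^ 2 := by
  obtain ⟨y, hy⟩ : ∃ y, y = 2 - x := ⟨_, rfl⟩
  have hy0 : 0 ≤ y := by rw [hy]; linarith
  have e : 1 + x / 6 - ((1 + x / 6 + (x / 6) ^ 2 / 2 + (x / 6) ^ 3 / 6) * (1 - x ^ 2 / 2 + x ^ 4 / 24 - x ^ 6 / 720 + x ^ 8 / 40320) + 5 / 96 * (x / 6) ^ 4) - 47 / 100 * x ^ 2 =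
      x ^ 2 * (29 / 921600 * y ^ 9 +
      157 / 259200 * x ^ 1 * y ^ 8 +
      1370083 / 398131200 * x ^ 2 * y ^ 7 +
      3849877 / 398131200 * x ^ 3 * y ^ 6 +
      2087861 / 132710400 * x ^ 4 * y ^ 5 +
      2075171 / 132710400 * x ^ 5 * y ^ 4 +
      8779733 / 928972800 * x ^ 6 * y ^ 3 +
      27153323 / 8360755200 * x ^ 7 * y ^ 2 +
      4347337 / 8360755200 * x ^ 8 * y ^ 1 +
      134143 / 8360755200 * x ^ 9) := by
    rw [hy]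
    ring
  rw [e]
  positivity

private theorem poly5_QSc {x : ℝ} (h0 : 0 ≤ x) (h1 : x ≤ 2) :
    0 ≤ (1 + x / 6 + (x / 6) ^ 2 / 2 + (x / 6) ^ 3 / 6) * (x - x ^ 3 / 6 + x ^ 5 / 120 - x ^ 7 / 5040 + x ^ 9 / 362880 - x ^ 11 / 39916800) - x + 183 / 1000 * x ^ 2 := by
  obtain ⟨y, hy⟩ : ∃ y, y = 2 - x := ⟨_, rfl⟩
  have hy0 : 0 ≤ y := by rw [hy]; linarith
  have e : (1 + x / 6 + (x / 6) ^ 2 / 2 + (x / 6) ^ 3 / 6) * (x - x ^ 3 / 6 + x ^ 5 / 120 - x ^ 7 / 5040 + x ^ 9 / 362880 - x ^ 11 / 39916800) - x + 183 / 1000 * x ^ 2 =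
      x ^ 2 * (1049 / 12288000 * y ^ 12 +
      17507 / 18432000 * x ^ 1 * y ^ 11 +
      794159 / 165888000 * x ^ 2 * y ^ 10 +
      478621 / 33177600 * x ^ 3 * y ^ 9 +
      5747471 / 199065600 * x ^ 4 * y ^ 8 +
      35089867 / 870912000 * x ^ 5 * y ^ 7 +
      69668273 / 1741824000 * x ^ 6 * y ^ 6 +
      24595867 / 870912000 * x ^ 7 * y ^ 5 +
      58099271 / 4180377600 * x ^ 8 * y ^ 4 +
      14910793 / 3284582400 * x ^ 9 * y ^ 3 +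
      916587883 / 1034643456000 * x ^ 10 * y ^ 2 +
      81052121 / 1034643456000 * x ^ 11 * y ^ 1 +
      66211 / 2069286912000 * x ^ 12) := by
    rw [hy]
    ring
  rw [e]
  positivity

private theorem poly6_QSc {x : ℝ} (h0 : 0 ≤ x) (h1 : x ≤ 2) :
    0 ≤ x + 1 / 6 * x ^ 2 - (1 + x / 6 + (x / 6) ^ 2 / 2 + (x / 6) ^ 3 / 6 + 5 / 96 * (x / 6) ^ 4) * (x - x ^ 3 / 6 + x ^ 5 / 120) := by
  obtain ⟨y, hy⟩ : ∃ y, y = 2 - x := ⟨_, rfl⟩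
  have hy0 : 0 ≤ y := by rw [hy]; linarith
  have e : x + 1 / 6 * x ^ 2 - (1 + x / 6 + (x / 6) ^ 2 / 2 + (x / 6) ^ 3 / 6 + 5 / 96 * (x / 6) ^ 4) * (x - x ^ 3 / 6 + x ^ 5 / 120) =
      x ^ 3 * (11 / 4608 * y ^ 6 +
      629 / 41472 * x ^ 1 * y ^ 5 +
      394631 / 9953280 * x ^ 2 * y ^ 4 +
      15071 / 276480 * x ^ 3 * y ^ 3 +
      38701 / 933120 * x ^ 4 * y ^ 2 +
      61577 / 3732480 * x ^ 5 * y ^ 1 +
      79549 / 29859840 * x ^ 6) := by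
    rw [hy]
    ring
  rw [e]
  positivity

private theorem sinnn_QSc {x : ℝ} (h0 : 0 ≤ x) (h1 : x ≤ 2) : 0 ≤ Real.sin x :=
  Real.sin_nonneg_of_nonneg_of_le_pi h0 (by linarith [Real.pi_gt_three])

private theorem A_lo_QSc {x : ℝ} (h0 : 0 ≤ x) (h1 : x ≤ 3 / 2) :
    1 / 6 * x ^ 2 ≤ x - Real.exp (-(x / 6)) * Real.sin x := by
  have h2 := poly2_QSc h0 h1
  have h3 := em2_QSc (t := x / 6) (by positivity)
  have h4 := sin5_QSc h0
  have h5 : Real.exp (-(x / 6)) * Real.sin x ≤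
      (1 - x / 6 + (x / 6) ^ 2 / 2) * (x - x ^ 3 / 6 + x ^ 5 / 120) :=
    mul_le_mul h3 h4 (sinnn_QSc h0 (by linarith)) ((Real.exp_pos _).le.trans h3)
  linarith

private theorem A_up_QSc {x : ℝ} (h0 : 0 ≤ x) (h1 : x ≤ 3 / 2) :
    x - Real.exp (-(x / 6)) * Real.sin x ≤ 81 / 250 * x ^ 2 := by
  have h2 := poly3_QSc h0 h1
  have h3 := em3_QSc (t := x / 6) (by positivity)
  have h4 := sin7_QSc h0
  have hx2 : x ^ 2 ≤ 4 := by nlinarith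
  have h6 : 0 ≤ x - x ^ 3 / 6 + x ^ 5 / 120 - x ^ 7 / 5040 := by
    have e : x - x ^ 3 / 6 + x ^ 5 / 120 - x ^ 7 / 5040 =
        x * (1 - x ^ 2 / 6) + x ^ 5 / 120 * (1 - x ^ 2 / 42) := by ring
    rw [e]
    exact add_nonneg (mul_nonneg h0 (by linarith)) (mul_nonneg (by positivity) (by linarith))
  have h5 : (1 - x / 6 + (x / 6) ^ 2 / 2 - (x / 6) ^ 3 / 6) *
      (x - x ^ 3 / 6 + x ^ 5 / 120 - x ^ 7 / 5040) ≤ Real.exp (-(x / 6)) * Real.sin x :=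
    mul_le_mul h3 h4 h6 (Real.exp_pos _).le
  linarith

private theorem C_QSc {x : ℝ} (h0 : 0 ≤ x) (h1 : x ≤ 3 / 2) :
    3 / 10 * x ^ 2 ≤ 1 - x / 6 - Real.exp (-(x / 6)) * Real.cos x := by
  have h2 := poly1_QSc h0 h1
  have h3 := em2_QSc (t := x / 6) (by positivity)
  have h4 := cos4_QSc h0
  have h6 : 0 ≤ Real.cos x :=
    Real.cos_nonneg_of_neg_pi_div_two_le_of_le (by linarith [Real.pi_gt_three])
      (by linarith [Real.pi_gt_three])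
  have h5 : Real.exp (-(x / 6)) * Real.cos x ≤
      (1 - x / 6 + (x / 6) ^ 2 / 2) * (1 - x ^ 2 / 2 + x ^ 4 / 24) :=
    mul_le_mul h3 h4 h6 ((Real.exp_pos _).le.trans h3)
  linarith

private theorem C'_QSc {x : ℝ} (h0 : 0 ≤ x) (h1 : x ≤ 2) :
    47 / 100 * x ^ 2 ≤ 1 + x / 6 - Real.exp (x / 6) * Real.cos x := by
  have h2 := poly4_QSc h0 h1
  have h3 := ep3_QSc (t := x / 6) (by positivity)
  have h3' := ep4_QSc (t := x / 6) (by positivity) (by linarith)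
  have h4 := cos8_QSc h0
  have h5 : (1 + x / 6 + (x / 6) ^ 2 / 2 + (x / 6) ^ 3 / 6) * Real.cos x ≤
      (1 + x / 6 + (x / 6) ^ 2 / 2 + (x / 6) ^ 3 / 6) *
        (1 - x ^ 2 / 2 + x ^ 4 / 24 - x ^ 6 / 720 + x ^ 8 / 40320) :=
    mul_le_mul_of_nonneg_left h4 (by positivity)
  have h6 : (Real.exp (x / 6) - (1 + x / 6 + (x / 6) ^ 2 / 2 + (x / 6) ^ 3 / 6)) * Real.cos x ≤
      (Real.exp (x / 6) - (1 + x / 6 + (x / 6) ^ 2 / 2 + (x / 6) ^ 3 / 6)) * 1 :=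
    mul_le_mul_of_nonneg_left (Real.cos_le_one x) (by linarith)
  rw [sub_mul] at h6
  linarith

private theorem A'_lo_QSc {x : ℝ} (h0 : 0 ≤ x) (h1 : x ≤ 2) :
    -(183 / 1000 * x ^ 2) ≤ Real.exp (x / 6) * Real.sin x - x := by
  have h2 := poly5_QSc h0 h1
  have h3 := ep3_QSc (t := x / 6) (by positivity)
  have h4 := sin11_QSc h0
  have hx2 : x ^ 2 ≤ 4 := by nlinarith
  have h6 : 0 ≤ x - x ^ 3 / 6 + x ^ 5 / 120 - x ^ 7 / 5040 + x ^ 9 / 362880 - x ^ 11 / 39916800 := by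
    have e : x - x ^ 3 / 6 + x ^ 5 / 120 - x ^ 7 / 5040 + x ^ 9 / 362880 - x ^ 11 / 39916800 =
        x * (1 - x ^ 2 / 6) + x ^ 5 / 120 * (1 - x ^ 2 / 42) +
          x ^ 9 / 362880 * (1 - x ^ 2 / 110) := by ring
    rw [e]
    exact add_nonneg (add_nonneg (mul_nonneg h0 (by linarith))
      (mul_nonneg (by positivity) (by linarith))) (mul_nonneg (by positivity) (by linarith))
  have h5 : (1 + x / 6 + (x / 6) ^ 2 / 2 + (x / 6) ^ 3 / 6) *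
      (x - x ^ 3 / 6 + x ^ 5 / 120 - x ^ 7 / 5040 + x ^ 9 / 362880 - x ^ 11 / 39916800) ≤
        Real.exp (x / 6) * Real.sin x :=
    mul_le_mul h3 h4 h6 (Real.exp_pos _).le
  linarith

private theorem A'_up_QSc {x : ℝ} (h0 : 0 ≤ x) (h1 : x ≤ 2) :
    Real.exp (x / 6) * Real.sin x - x ≤ 1 / 6 * x ^ 2 := by
  have h2 := poly6_QSc h0 h1
  have h3 := ep4_QSc (t := x / 6) (by positivity) (by linarith)
  have h4 := sin5_QSc h0
  have h5 : Real.exp (x / 6) * Real.sin x ≤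
      (1 + x / 6 + (x / 6) ^ 2 / 2 + (x / 6) ^ 3 / 6 + 5 / 96 * (x / 6) ^ 4) *
        (x - x ^ 3 / 6 + x ^ 5 / 120) :=
    mul_le_mul h3 h4 (sinnn_QSc h0 h1) ((Real.exp_pos _).le.trans h3)
  linarith

/-- `(1 - x/6 - E cos x)/x² ≥ .3` (true minimum `.3088` at `3/2`), `(x - E sin x)/x² ≤ .322 ≤ 1/3` (at `3/2`). -/
theorem left_scB {a s x : ℝ} (ha : a ≤ 9 / 25) (hs : 0 ≤ s) (h0 : 0 ≤ x) (h1 : x ≤ 3 / 2) :
    (3 / 10 * s + 1 / 20) * x ^ 2 ≤ fL a s x := by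
  have hA0 := A_lo_QSc h0 h1
  have hA := A_up_QSc h0 h1
  have hC := C_QSc h0 h1
  have hx2 : 0 ≤ x ^ 2 := sq_nonneg x
  unfold fL
  have h2 : s * (3 / 10 * x ^ 2) ≤ s * (1 - x / 6 - Real.exp (-(x / 6)) * Real.cos x) :=
    mul_le_mul_of_nonneg_left hC hs
  have h3 : a * (x - Real.exp (-(x / 6)) * Real.sin x) ≤
      9 / 25 * (x - Real.exp (-(x / 6)) * Real.sin x) :=
    mul_le_mul_of_nonneg_right ha (by linarith)
  linarith

/-- `a ≤ 0`: `(x - E sin x)/x² ≥ 1/6` (value at `0`). -/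
theorem left_scA {a s x : ℝ} (ha : a ≤ 0) (hs : 0 ≤ s) (h0 : 0 ≤ x) (h1 : x ≤ 3 / 2) :
    (3 / 10 * s + (1 - a) / 6) * x ^ 2 ≤ fL a s x := by
  have hA0 := A_lo_QSc h0 h1
  have hC := C_QSc h0 h1
  unfold fL
  have h2 : s * (3 / 10 * x ^ 2) ≤ s * (1 - x / 6 - Real.exp (-(x / 6)) * Real.cos x) :=
    mul_le_mul_of_nonneg_left hC hs
  have h3 : a * (x - Real.exp (-(x / 6)) * Real.sin x) ≤ a * (1 / 6 * x ^ 2) :=
    mul_le_mul_of_nonpos_left hA0 ha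
  linarith

/-- `(1 + x/6 - e^(x/6) cos x)/x² ≥ .47` on `[0,2]`, `-.183 ≤ (e^(x/6) sin x - x)/x² ≤ 1/6`. -/
theorem right_sc {a s x : ℝ} (ha : -(6 / 5) ≤ a) (ha' : a ≤ 9 / 25) (hs : 4 / 5 ≤ s) (h0 : 0 ≤ x)
    (h1 : x ≤ 2) : 2 / 5 * s * x ^ 2 ≤ fR a s x := by
  have hA0 := A'_lo_QSc h0 h1
  have hA := A'_up_QSc h0 h1
  have hC := C'_QSc h0 h1
  have hx2 : 0 ≤ x ^ 2 := sq_nonneg x
  unfold fR
  have h2 : s * (47 / 100 * x ^ 2) ≤ s * (1 + x / 6 - Real.exp (x / 6) * Real.cos x) :=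
    mul_le_mul_of_nonneg_left hC (by linarith)
  have h3 : 4 / 5 * x ^ 2 ≤ s * x ^ 2 := mul_le_mul_of_nonneg_right hs hx2
  rcases le_total 0 a with h | h
  · have h4 : a * (Real.exp (x / 6) * Real.sin x - x) ≤ a * (1 / 6 * x ^ 2) :=
      mul_le_mul_of_nonneg_left hA h
    have h5 : a * x ^ 2 ≤ 9 / 25 * x ^ 2 := mul_le_mul_of_nonneg_right ha' hx2
    linarith
  · have h4 : a * (Real.exp (x / 6) * Real.sin x - x) ≤ a * (-(183 / 1000 * x ^ 2)) :=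
      mul_le_mul_of_nonpos_left hA0 h
    have h5 : -(6 / 5) * x ^ 2 ≤ a * x ^ 2 := mul_le_mul_of_nonneg_right ha hx2
    linarith

/-- `side`: `v = (u + 1/3) + 2i`, `X = u + 1/3`: `2X - a(e^X sin 2 - 2) + s(1 + X - e^X cos 2) ≥ 6/5 + 2u`.  (`a ≤ 0`: `e^X sin 2 ≥ 1.268`, `-2|a| ..`:
`≥ 2/3 + 2u - .732·6/5 + 1.9 s`; `a ≥ 0`: `s ≥ 9/2`, `s (-cos 2) ≥ a sin 2`.) -/
theorem side_sc {a s u : ℝ} (ha : -(6 / 5) ≤ a) (ha' : a ≤ 9 / 25) (hs : 4 / 5 ≤ s) (h1 : a ≤ 2 / 9 * s - 1)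
    (hu : 0 ≤ u) : 6 / 5 + 2 * u ≤ (u + 1 / 3) * 2 -
      a * (Real.exp (u + 1 / 3) * Real.sin 2 - 2) - s * (Real.exp (u + 1 / 3) * Real.cos 2 - 1 - (u + 1 / 3)) := by
  have hsin : (9079 : ℝ) / 10000 ≤ Real.sin 2 := by
    have h := sin7_QSc (x := 2) (by norm_num)
    refine le_trans ?_ h
    norm_num
  have hcos : Real.cos 2 ≤ -(4158 / 10000) := by
    have h := cos8_QSc (x := 2) (by norm_num)
    refine h.trans ?_
    norm_num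
  have he : (1395 : ℝ) / 1000 ≤ Real.exp (u + 1 / 3) := by
    have h := ep3_QSc (t := 1 / 3) (by norm_num)
    have h2 : Real.exp (1 / 3) ≤ Real.exp (u + 1 / 3) := Real.exp_le_exp.2 (by linarith)
    refine le_trans ?_ (h.trans h2)
    norm_num
  obtain ⟨e, hee⟩ : ∃ e, e = Real.exp (u + 1 / 3) := ⟨_, rfl⟩
  rw [← hee] at he ⊢
  have hec : e * Real.cos 2 ≤ e * (-(4158 / 10000)) := mul_le_mul_of_nonneg_left hcos (by linarith)
  rcases le_total a 0 with h | h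
  · have h2 : 1395 / 1000 * (9079 / 10000) ≤ e * Real.sin 2 :=
      mul_le_mul he hsin (by norm_num) (by linarith)
    have h3 : a * (e * Real.sin 2 - 2) ≤ a * (-(7336 / 10000)) :=
      mul_le_mul_of_nonpos_left (by linarith) h
    have h4 : s * (-(19133 / 10000)) ≥ s * (e * Real.cos 2 - 1 - (u + 1 / 3)) :=
      mul_le_mul_of_nonneg_left (by linarith) (by linarith)
    linarith
  · have hs9 : 9 / 2 ≤ s := by linarith
    have h2 : a * (e * Real.sin 2 - 2) ≤ a * e := by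
      refine mul_le_mul_of_nonneg_left ?_ h
      have : e * Real.sin 2 ≤ e * 1 := mul_le_mul_of_nonneg_left (Real.sin_le_one 2) (by linarith)
      linarith
    have h3 : a * e ≤ 9 / 25 * e := mul_le_mul_of_nonneg_right ha' (by linarith)
    have h4 : s * (e * Real.cos 2 - 1 - (u + 1 / 3)) ≤ s * (-(4158 / 10000 * e)) :=
      mul_le_mul_of_nonneg_left (by linarith) (by linarith)
    have h5 : 9 / 2 * (4158 / 10000 * e) ≤ s * (4158 / 10000 * e) :=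
      mul_le_mul_of_nonneg_right hs9 (by linarith)
    linarith

end SokalQ
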