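import Pool.Agent.Lib_MP_af4de1_fu.MGen
import Pool.Agent.Lib_MP_af4de1_fu.MElem
import Pool.Agent.Lib_MP_af4de1_q.QSc
import Pool.Agent.Lib_MP_af4de1_q.QFar

/-!
# Left contour: hypotheses of the general estimate, `9/2 ≤ ρ ≤ 8` [FQ-5c]

`h = a + i s`, `d = -(1 + 6i)`; `t = x/6`: `t d = -(x/6 + i x)` (`ff_eq`), so `left`, `far` are `fL a s (6t)`, `right` is `fR a s (6t)`.
`quad`: `((1-h)(t d)²/2).im = t² (6(1-a) + 35/2 s)`.  `side` is `side_sc`.  `k2`: `taylor2_right`, `e^(1/3) ≤ 7/5`; `k3`: the same for the third order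
(`‖e^v - 1 - v - v²/2‖ ≤ ‖v‖³/6 e^(Re v)` for `Re v ≥ 0`, as `melem_e2` in `MElem`).
-/

set_option autoImplicit false

namespace SokalQ

open Complex SokalFU

/-- integration of a bound on `[0, 1]` -/
private theorem qhl_step {f f' : ℝ → ℂ} (hf : ∀ t, HasDerivAt f (f' t) t) (h0 : f 0 = 0)
    {B B' : ℝ → ℝ} (hB : ∀ t, HasDerivAt B (B' t) t) (hB0 : 0 ≤ B 0)
    (hb : ∀ t, 0 ≤ t → t ≤ 1 → ‖f' t‖ ≤ B' t) (t : ℝ) (ht : 0 ≤ t) (ht1 : t ≤ 1) :
    ‖f t‖ ≤ B t := by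
  have h := image_norm_le_of_norm_deriv_right_le_deriv_boundary (f := f) (f' := f')
    (a := 0) (b := 1) (fun x _ => (hf x).continuousAt.continuousWithinAt)
    (fun x _ => (hf x).hasDerivWithinAt) (B := B) (B' := B')
    (by rw [h0, norm_zero]; exact hB0) hB (fun x hx => hb x hx.1 hx.2.le)
  exact h ⟨ht, ht1⟩

private theorem qhl_d0 (v : ℂ) (t : ℝ) :
    HasDerivAt (fun t : ℝ => cexp (t * v)) (v * cexp (t * v)) t := by
  have h1 : HasDerivAt (fun t : ℝ => (t : ℂ) * v) (1 * v) t :=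
    (Complex.ofRealCLM.hasDerivAt (x := t)).mul_const v
  have h2 := h1.cexp
  rwa [one_mul, mul_comm] at h2

private theorem qhl_d1 (v : ℂ) (t : ℝ) :
    HasDerivAt (fun t : ℝ => (t : ℂ) * v) v t := by
  have h1 : HasDerivAt (fun t : ℝ => (t : ℂ) * v) (1 * v) t :=
    (Complex.ofRealCLM.hasDerivAt (x := t)).mul_const v
  rwa [one_mul] at h1

private theorem qhl_e1 {v : ℂ} (hv : 0 ≤ v.re) (t : ℝ) (ht : 0 ≤ t)
    (ht1 : t ≤ 1) : ‖cexp (t * v) - 1 - t * v‖ ≤ t ^ 2 * (‖v‖ ^ 2 * Real.exp v.re / 2) := by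
  have h0 : 0 ≤ ((t : ℂ) * v).re := by
    rw [re_ofReal_mul]
    exact mul_nonneg ht hv
  have h := taylor2_right h0
  rw [norm_mul, Complex.norm_real, Real.norm_of_nonneg ht, re_ofReal_mul] at h
  have h1 : Real.exp (t * v.re) ≤ Real.exp v.re :=
    Real.exp_le_exp.mpr (mul_le_of_le_one_left hv ht1)
  refine h.trans ?_
  calc (t * ‖v‖) ^ 2 / 2 * Real.exp (t * v.re) ≤ (t * ‖v‖) ^ 2 / 2 * Real.exp v.re :=
        mul_le_mul_of_nonneg_left h1 (by positivity)
    _ = t ^ 2 * (‖v‖ ^ 2 * Real.exp v.re / 2) := by ring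

private theorem qhl_taylor3 {v : ℂ} (hv : 0 ≤ v.re) :
    ‖cexp v - 1 - v - v ^ 2 / 2‖ ≤ ‖v‖ ^ 3 / 6 * Real.exp v.re := by
  have key := qhl_step (f := fun t : ℝ => cexp (t * v) - 1 - t * v - (t * v) ^ 2 / 2)
    (f' := fun t : ℝ => v * cexp (t * v) - v - v * (t * v))
    (fun t => by
      have h := (((qhl_d1 v t).pow 2).div_const 2)
      have h2 := (((qhl_d0 v t).sub_const 1).sub (qhl_d1 v t)).sub h
      have e : v * (t * v) = (((2 : ℕ) : ℂ) * ((t : ℂ) * v) ^ (2 - 1) * v) / 2 := by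
        push_cast
        ring
      rw [e]
      exact h2)
    (by simp)
    (B := fun t => t ^ 3 * (‖v‖ ^ 3 * Real.exp v.re / 6))
    (B' := fun t => (3 * t ^ 2) * (‖v‖ ^ 3 * Real.exp v.re / 6))
    (fun t => by
      have h := (hasDerivAt_pow 3 t).mul_const (‖v‖ ^ 3 * Real.exp v.re / 6)
      simpa using h)
    (by simp)
    (fun t ht ht1 => by
      have h := qhl_e1 hv t ht ht1
      have e : v * cexp (t * v) - v - v * (t * v) = v * (cexp (t * v) - 1 - t * v) := by ring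
      show ‖v * cexp (t * v) - v - v * (t * v)‖ ≤ (3 * t ^ 2) * (‖v‖ ^ 3 * Real.exp v.re / 6)
      rw [e, norm_mul]
      calc ‖v‖ * ‖cexp (t * v) - 1 - t * v‖
          ≤ ‖v‖ * (t ^ 2 * (‖v‖ ^ 2 * Real.exp v.re / 2)) :=
            mul_le_mul_of_nonneg_left h (norm_nonneg v)
        _ = (3 * t ^ 2) * (‖v‖ ^ 3 * Real.exp v.re / 6) := by ring)
    1 zero_le_one le_rfl
  have e : ‖v‖ ^ 3 / 6 * Real.exp v.re = (1 : ℝ) ^ 3 * (‖v‖ ^ 3 * Real.exp v.re / 6) := by ring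
  rw [e]
  simpa using key

private theorem qhl_exp {t : ℝ} (ht : t ≤ 1 / 3) : Real.exp t ≤ 7 / 5 := by
  refine (Real.exp_le_exp.mpr ht).trans ?_
  by_contra hc
  have hc' := lt_of_not_ge hc
  have h1 : Real.exp 1 = Real.exp (1 / 3) ^ 3 := by
    rw [← Real.exp_nat_mul]
    norm_num
  have h2 : (7 / 5 : ℝ) ^ 3 < Real.exp (1 / 3) ^ 3 :=
    pow_lt_pow_left₀ hc' (by norm_num) (by norm_num)
  rw [← h1] at h2
  have h3 := Real.exp_one_lt_d9
  norm_num at h2 h3
  linarith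

private theorem qhl_norm {t : ℝ} (h0 : 0 ≤ t) :
    ‖(-(t * -(1 + (6 : ℝ) * I)) : ℂ)‖ = t * ‖(-(1 + (6 : ℝ) * I) : ℂ)‖ := by
  rw [norm_neg, norm_mul, Complex.norm_real, Real.norm_of_nonneg h0]

private theorem qhl_re (t : ℝ) : (-(t * -(1 + (6 : ℝ) * I)) : ℂ).re = t := by
  simp

theorem hyp_LQ {δ a s cp : ℝ} (hδ : 0 < δ) (hδ' : δ ≤ 4 / 25) (ha : -(6 / 5) ≤ a) (hs : 4 / 5 ≤ s)
    (hs' : s ≤ 983 / 100) (h1 : a ≤ 2 / 9 * s - 1) (h2 : a + 24 / 625 * s ≤ 5907 / 10000)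
    (hcp0 : 0 < cp) (hcp : cp ≤ 6 * (1 - a) + 35 / 2 * s)
    (hcp' : ∀ x : ℝ, 0 ≤ x → x ≤ 3 / 2 → cp / 36 * x ^ 2 ≤ fL a s x) :
    Hyp δ (a + s * I) (-(1 + (6 : ℝ) * I)) (1 / 3) (1 / 4) (21 / 20) cp (72 / 5 * s)
      (11 / 10) 3 (6 / 5) 2 (7 / 5) (7 / 5) := by
  have ha9 : a ≤ 9 / 25 := by linarith
  have eL : ∀ t : ℝ, ff (a + s * I) (t * -(1 + (6 : ℝ) * I)) = fL a s (6 * t) := by
    intro t
    have e : (t * -(1 + (6 : ℝ) * I) : ℂ) = ((-t : ℝ) : ℂ) + ((-(6 * t) : ℝ) : ℂ) * I := by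
      push_cast
      ring
    rw [e, ff_eq, Real.sin_neg, Real.cos_neg]
    unfold fL
    rw [show -(6 * t / 6) = -t by ring]
    ring
  have eR : ∀ t : ℝ, ff (a + s * I) (-(t * -(1 + (6 : ℝ) * I))) = fR a s (6 * t) := by
    intro t
    have e : (-(t * -(1 + (6 : ℝ) * I)) : ℂ) = ((t : ℝ) : ℂ) + ((6 * t : ℝ) : ℂ) * I := by
      push_cast
      ring
    rw [e, ff_eq]
    unfold fR
    rw [show 6 * t / 6 = t by ring]
    ring
  exact
  { δpos := hδ
    h_ne := by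
      intro h
      have := congrArg Complex.im h
      simp at this
      linarith
    d_ne := by
      intro h
      have := congrArg Complex.re h
      simp at this
    d_re := by simp
    τpos := by norm_num
    Tpos := by norm_num
    TT := by norm_num
    cppos := hcp0
    cmpos := by linarith
    lpos := by norm_num
    Bpos := by norm_num
    bpos := by norm_num
    σgt := by linarith
    K2pos := by norm_num
    K3pos := by norm_num
    quad := by
      intro t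
      have e1 : ((1 - (a + s * I)) * (t * -(1 + (6 : ℝ) * I)) ^ 2 / 2 : ℂ) =
          ((t ^ 2 * (-(35 / 2) * (1 - a) + 6 * s) : ℝ) : ℂ) +
          (((6 * (1 - a) + 35 / 2 * s) * t ^ 2 : ℝ) : ℂ) * I := by
        push_cast
        linear_combination ((t : ℂ) ^ 2 * (18 - 18 * a - 6 * s - 18 * s * I)) * I_sq
      rw [e1, add_im, ofReal_im, im_ofReal_mul, I_im, zero_add, mul_one]
      exact mul_le_mul_of_nonneg_right (max_le hcp (by linarith)) (sq_nonneg t)
    right := by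
      intro t t0 t1
      rw [eR]
      have := right_sc ha ha9 hs (x := 6 * t) (by linarith) (by linarith)
      calc 72 / 5 * s * t ^ 2 = 2 / 5 * s * (6 * t) ^ 2 := by ring
        _ ≤ _ := this
    left := by
      intro t t0 t1
      rw [eL]
      have := hcp' (6 * t) (by linarith) (by linarith)
      calc cp * t ^ 2 = cp / 36 * (6 * t) ^ 2 := by ring
        _ ≤ _ := this
    far := by
      intro t t0
      rw [eL]
      have := far_sc hs hs' h1 h2 (x := 6 * t) (by linarith)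
      refine le_trans (le_of_eq ?_) this
      rcases le_total t (21 / 20) with h | h
      · rw [max_eq_right (by linarith), max_eq_right (by linarith)]
        ring
      · rw [max_eq_left (by linarith), max_eq_left (by linarith)]
        ring
    side := by
      intro u hu
      have e : (-(((1 / 3 : ℝ) : ℂ) * -(1 + (6 : ℝ) * I)) + u : ℂ) =
          ((u + 1 / 3 : ℝ) : ℂ) + ((2 : ℝ) : ℂ) * I := by
        push_cast
        ring
      rw [e, ff_eq]
      exact side_sc ha ha9 hs h1 hu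
    k2 := by
      intro t t0 t1
      have h := taylor2_right (v := (-(t * -(1 + (6 : ℝ) * I)) : ℂ)) (by rw [qhl_re]; exact t0)
      rw [qhl_re, qhl_norm t0] at h
      refine h.trans ?_
      have h3 := mul_le_mul_of_nonneg_left (qhl_exp t1)
        (show 0 ≤ (t * ‖(-(1 + (6 : ℝ) * I) : ℂ)‖) ^ 2 / 2 by positivity)
      refine h3.trans (le_of_eq ?_)
      ring
    k3 := by
      intro t t0 t1
      have h := qhl_taylor3 (v := (-(t * -(1 + (6 : ℝ) * I)) : ℂ)) (by rw [qhl_re]; exact t0)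
      rw [qhl_re, qhl_norm t0] at h
      refine h.trans ?_
      have h3 := mul_le_mul_of_nonneg_left (qhl_exp t1)
        (show 0 ≤ (t * ‖(-(1 + (6 : ℝ) * I) : ℂ)‖) ^ 3 / 6 by positivity)
      refine h3.trans (le_of_eq ?_)
      ring }

end SokalQ
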