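import Pool.Agent.Lib_MP_af4de1_q.QGen
import Pool.Agent.Lib_MP_af4de1_q.QHypL

/-!
# Left contour: the estimate, `9/2 ≤ ρ ≤ 8` [FQ-7]

`gen_fin0` with `hyp_LQ`, `δ₀ = 4/25`.  `s ≤ 2`: `cp = 54/5 s + 6 (1-a)`, `k = 1/2` (true maximum `.383` at `s = 4/5, a = -6/5`);
`s ≥ 2`: `cp = 54/5 s + 9/5`, `k = 21/100` (true maximum `.2003` at `s = 9.83`).  Compare `MEstB1.lean`.

With `x² = κ = ‖1-h‖`, `y² = cm`, `z² = cp`, `H = ‖h‖`: `lowErr ≤ 18.2534 H (1/z⁴ + 1.4/y⁴) + .0057`,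
`upErr ≤ 3.1915 (1/z³ + 1.4/y³) + .052`, `κ √(2πδ₀/κ) ≥ 1.00263 x`.  `H² ≤ m(s) κ` with `m = 4/5 s + 1/4` for `s ≤ 2`,
`m = s - .165` on `[2, 2.3]`, `m = s - .18` on `[2.3, 3.3]`, `m = s` on `[3.3, 9.83]`; `κ ≤ s + e`.
-/

set_option autoImplicit false

namespace SokalQ

open Complex SokalFU

private theorem q_sq {a b : ℝ} (h : a ^ 2 ≤ b ^ 2) (hb : 0 ≤ b) : a ≤ b :=
  (abs_le_of_sq_le_sq' h hb).2

private theorem q_fin {H K x y z t1 t2 t3 t4 t5 t6 k : ℝ} (hx : 0 < x) (hy : 0 < y) (hz : 0 < z)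
    (hk : 0 ≤ k) (hK : x ^ 2 = K) (A1 : H ≤ t1 * x * z ^ 3) (A2 : H ≤ t2 * x * y ^ 3)
    (A3 : H * x ≤ t3 * z ^ 4) (A4 : H * x ≤ t4 * y ^ 4) (A5 : H ≤ t5 * x) (A6 : x ≤ t6)
    (hn : 31915 / 10000 * (t1 + 7 / 5 * t2) + 52 / 1000 * t5 +
      k * (182534 / 10000 * (t3 + 7 / 5 * t4) + 57 / 10000 * t6) ≤ k * (10026 / 10000)) :
    H * (31915 / 10000 * (1 / z ^ 3 + 7 / 5 * (1 / y ^ 3)) + 52 / 1000) +
      k * K * (182534 / 10000 * H * (1 / z ^ 4 + 7 / 5 * (1 / y ^ 4)) + 57 / 10000) ≤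
      k * (10026 / 10000) * x := by
  have B1 : H / z ^ 3 ≤ t1 * x := by
    rw [div_le_iff₀ (by positivity)]
    exact A1
  have B2 : H / y ^ 3 ≤ t2 * x := by
    rw [div_le_iff₀ (by positivity)]
    exact A2
  have B3 : K * H / z ^ 4 ≤ t3 * x := by
    rw [div_le_iff₀ (by positivity), ← hK]
    have h1 := mul_le_mul_of_nonneg_left A3 hx.le
    linarith
  have B4 : K * H / y ^ 4 ≤ t4 * x := by
    rw [div_le_iff₀ (by positivity), ← hK]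
    have h1 := mul_le_mul_of_nonneg_left A4 hx.le
    linarith
  have B6 : K ≤ t6 * x := by
    rw [← hK, sq]
    exact mul_le_mul_of_nonneg_right A6 hx.le
  have e : H * (31915 / 10000 * (1 / z ^ 3 + 7 / 5 * (1 / y ^ 3)) + 52 / 1000) +
      k * K * (182534 / 10000 * H * (1 / z ^ 4 + 7 / 5 * (1 / y ^ 4)) + 57 / 10000) =
      31915 / 10000 * (H / z ^ 3 + 7 / 5 * (H / y ^ 3)) + 52 / 1000 * H +
      k * (182534 / 10000 * (K * H / z ^ 4 + 7 / 5 * (K * H / y ^ 4)) + 57 / 10000 * K) := by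
    ring
  rw [e]
  have h1 := mul_le_mul_of_nonneg_right hn hx.le
  have h2 : k * (182534 / 10000 * (K * H / z ^ 4 + 7 / 5 * (K * H / y ^ 4)) + 57 / 10000 * K) ≤
      k * (182534 / 10000 * (t3 * x + 7 / 5 * (t4 * x)) + 57 / 10000 * (t6 * x)) :=
    mul_le_mul_of_nonneg_left (by linarith) hk
  linarith

private theorem q_iv {H K x y z s c m e t1 t2 t3 t4 t5 t6 k : ℝ}
    (hHs : H ^ 2 ≤ 36 / 25 + s ^ 2) (hKe : K ≤ s + e) (hx0 : 0 < x) (hx : x ^ 2 = K)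
    (hy0 : 0 < y) (hy : y ^ 2 = 72 / 5 * s) (hz0 : 0 < z) (hc : 0 ≤ c) (hz : c ≤ z ^ 2)
    (hHm : H ^ 2 ≤ m * K) (hk : 0 ≤ k)
    (ht1 : 0 ≤ t1) (ht2 : 0 ≤ t2) (ht3 : 0 ≤ t3) (ht4 : 0 ≤ t4) (ht5 : 0 ≤ t5) (ht6 : 0 ≤ t6)
    (A1 : m ≤ t1 ^ 2 * c ^ 3) (A2 : m ≤ t2 ^ 2 * (72 / 5 * s) ^ 3)
    (A3 : (36 / 25 + s ^ 2) * (s + e) ≤ t3 ^ 2 * c ^ 4)
    (A4 : (36 / 25 + s ^ 2) * (s + e) ≤ t4 ^ 2 * (72 / 5 * s) ^ 4)
    (A5 : m ≤ t5 ^ 2) (A6 : s + e ≤ t6 ^ 2)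
    (hn : 31915 / 10000 * (t1 + 7 / 5 * t2) + 52 / 1000 * t5 +
      k * (182534 / 10000 * (t3 + 7 / 5 * t4) + 57 / 10000 * t6) ≤ k * (10026 / 10000)) :
    H * (31915 / 10000 * (1 / z ^ 3 + 7 / 5 * (1 / y ^ 3)) + 52 / 1000) +
      k * K * (182534 / 10000 * H * (1 / z ^ 4 + 7 / 5 * (1 / y ^ 4)) + 57 / 10000) ≤
      k * (10026 / 10000) * x := by
  have hK0 : 0 ≤ K := by rw [← hx]; positivity
  have hc3 : c ^ 3 ≤ (z ^ 2) ^ 3 := pow_le_pow_left₀ hc hz 3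
  have hc4 : c ^ 4 ≤ (z ^ 2) ^ 4 := pow_le_pow_left₀ hc hz 4
  have B1 : H ≤ t1 * x * z ^ 3 := by
    refine q_sq ?_ (by positivity)
    have h1 : (t1 * x * z ^ 3) ^ 2 = (t1 ^ 2 * (z ^ 2) ^ 3) * K := by rw [← hx]; ring
    rw [h1]
    have h2 : m ≤ t1 ^ 2 * (z ^ 2) ^ 3 := A1.trans (mul_le_mul_of_nonneg_left hc3 (sq_nonneg _))
    exact hHm.trans (mul_le_mul_of_nonneg_right h2 hK0)
  have B2 : H ≤ t2 * x * y ^ 3 := by
    refine q_sq ?_ (by positivity)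
    have h1 : (t2 * x * y ^ 3) ^ 2 = (t2 ^ 2 * (y ^ 2) ^ 3) * K := by rw [← hx]; ring
    rw [h1, hy]
    exact hHm.trans (mul_le_mul_of_nonneg_right A2 hK0)
  have h0 : H ^ 2 * K ≤ (36 / 25 + s ^ 2) * (s + e) :=
    mul_le_mul hHs hKe hK0 (by positivity)
  have B3 : H * x ≤ t3 * z ^ 4 := by
    refine q_sq ?_ (by positivity)
    have h1 : (t3 * z ^ 4) ^ 2 = t3 ^ 2 * (z ^ 2) ^ 4 := by ring
    have h2 : (H * x) ^ 2 = H ^ 2 * K := by rw [← hx]; ring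
    rw [h1, h2]
    exact (h0.trans A3).trans (mul_le_mul_of_nonneg_left hc4 (sq_nonneg _))
  have B4 : H * x ≤ t4 * y ^ 4 := by
    refine q_sq ?_ (by positivity)
    have h1 : (t4 * y ^ 4) ^ 2 = t4 ^ 2 * (y ^ 2) ^ 4 := by ring
    have h2 : (H * x) ^ 2 = H ^ 2 * K := by rw [← hx]; ring
    rw [h1, h2, hy]
    exact h0.trans A4
  have B5 : H ≤ t5 * x := by
    refine q_sq ?_ (by positivity)
    rw [mul_pow, hx]
    exact hHm.trans (mul_le_mul_of_nonneg_right A5 hK0)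
  have B6 : x ≤ t6 := q_sq (by rw [hx]; exact hKe.trans A6) ht6
  exact q_fin hx0 hy0 hz0 hk hx B1 B2 B3 B4 B5 B6 hn

/-- a quartic concave in `al`, checked at the endpoints -/
private theorem q_conc {A B D p al : ℝ} (hp : 0 ≤ p) (hp' : p < 6 / 5) (h1 : p ≤ al)
    (h2 : al ≤ 6 / 5) (hD : 0 ≤ D) (f1 : 0 ≤ A + B * p - D * p ^ 2 - p ^ 4)
    (f2 : 0 ≤ A + B * (6 / 5) - D * (6 / 5) ^ 2 - (6 / 5) ^ 4) :
    0 ≤ A + B * al - D * al ^ 2 - al ^ 4 := by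
  have hal : 0 ≤ al := hp.trans h1
  have e : (6 / 5 - p) * (A + B * al - D * al ^ 2 - al ^ 4) =
      (6 / 5 - al) * (A + B * p - D * p ^ 2 - p ^ 4) +
      (al - p) * (A + B * (6 / 5) - D * (6 / 5) ^ 2 - (6 / 5) ^ 4) +
      (6 / 5 - p) * ((al - p) * (6 / 5 - al)) *
        (D + (al ^ 2 + al * (p + 6 / 5) + p ^ 2 + 6 / 5 * p + 36 / 25)) := by ring
  have h3 : 0 ≤ (6 / 5 - p) * (A + B * al - D * al ^ 2 - al ^ 4) := by
    rw [e]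
    have a1 : 0 ≤ 6 / 5 - al := sub_nonneg.2 h2
    have a2 : 0 ≤ al - p := sub_nonneg.2 h1
    have a3 : 0 ≤ 6 / 5 - p := by linarith
    positivity
  exact nonneg_of_mul_nonneg_right h3 (by linarith)

private theorem q_al2 {al : ℝ} (h0 : -1 ≤ al) (h1 : al ≤ 6 / 5) : al ^ 2 ≤ 36 / 25 := by
  have h := sq_le_sq' (show -(6 / 5) ≤ al by linarith) h1
  norm_num at h
  exact h

private theorem q_fA {s : ℝ} (s0 : 4 / 5 ≤ s) (s1 : s ≤ 2) :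
    0 ≤ 2 * s ^ 2 - (4 / 5 * s + 1 / 4) ^ 2 ∧
    0 ≤ (4 / 5 * s + 1 / 4) ^ 2 * (1 + s ^ 2) - s ^ 4 ∧
    0 ≤ (4 / 5 * s + 1 / 4) ^ 2 * (1 + s ^ 2) - s ^ 4 + 2 * (4 / 5 * s + 1 / 4) ^ 2 * (6 / 5) -
      (2 * s ^ 2 - (4 / 5 * s + 1 / 4) ^ 2) * (6 / 5) ^ 2 - (6 / 5) ^ 4 := by
  obtain ⟨u, rfl⟩ : ∃ u, s = 4 / 5 + u := ⟨s - 4 / 5, by ring⟩
  have u0 : 0 ≤ u := by linarith
  have u1 : u ≤ 6 / 5 := by linarith
  have u2 : 0 ≤ u ^ 2 := by positivity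
  have v2 : u ^ 2 ≤ 6 / 5 * u := by
    rw [sq]
    exact mul_le_mul_of_nonneg_right u1 u0
  have v3 : u ^ 3 ≤ 6 / 5 * u ^ 2 := by
    have : u ^ 3 = u * u ^ 2 := by ring
    rw [this]
    exact mul_le_mul_of_nonneg_right u1 u2
  have v4 : u ^ 4 ≤ 6 / 5 * u ^ 3 := by
    have : u ^ 4 = u * u ^ 3 := by ring
    rw [this]
    exact mul_le_mul_of_nonneg_right u1 (by positivity)
  have w2 : 0 ≤ u ^ 3 := by positivity
  refine ⟨?_, ?_, ?_⟩ <;> ring_nf <;> linarith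

private theorem q_fB1 {s : ℝ} (s0 : 2 ≤ s) (s1 : s ≤ 23 / 10) :
    0 ≤ 2 * s ^ 2 - (s - 33 / 200) ^ 2 ∧
    0 ≤ (s - 33 / 200) ^ 2 - 33 / 200 * s ^ 2 * (2 * s - 33 / 200) ∧
    0 ≤ (s - 33 / 200) ^ 2 - 33 / 200 * s ^ 2 * (2 * s - 33 / 200) +
      2 * (s - 33 / 200) ^ 2 * (6 / 5) - (2 * s ^ 2 - (s - 33 / 200) ^ 2) * (6 / 5) ^ 2 - (6 / 5) ^ 4 := by
  obtain ⟨u, rfl⟩ : ∃ u, s = 2 + u := ⟨s - 2, by ring⟩
  have u0 : 0 ≤ u := by linarith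
  have u1 : u ≤ 3 / 10 := by linarith
  have u2 : 0 ≤ u ^ 2 := by positivity
  have v2 : u ^ 2 ≤ 3 / 10 * u := by
    rw [sq]
    exact mul_le_mul_of_nonneg_right u1 u0
  have v3 : u ^ 3 ≤ 3 / 10 * u ^ 2 := by
    have : u ^ 3 = u * u ^ 2 := by ring
    rw [this]
    exact mul_le_mul_of_nonneg_right u1 u2
  refine ⟨?_, ?_, ?_⟩ <;> ring_nf <;> linarith

private theorem q_fB2 {s : ℝ} (s0 : 23 / 10 ≤ s) (s1 : s ≤ 33 / 10) :
    0 ≤ 2 * s ^ 2 - (s - 9 / 50) ^ 2 ∧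
    0 ≤ (s - 9 / 50) ^ 2 - 9 / 50 * s ^ 2 * (2 * s - 9 / 50) + 2 * (s - 9 / 50) ^ 2 * (4 / 15) -
      (2 * s ^ 2 - (s - 9 / 50) ^ 2) * (4 / 15) ^ 2 - (4 / 15) ^ 4 ∧
    0 ≤ (s - 9 / 50) ^ 2 - 9 / 50 * s ^ 2 * (2 * s - 9 / 50) + 2 * (s - 9 / 50) ^ 2 * (6 / 5) -
      (2 * s ^ 2 - (s - 9 / 50) ^ 2) * (6 / 5) ^ 2 - (6 / 5) ^ 4 := by
  obtain ⟨u, rfl⟩ : ∃ u, s = 23 / 10 + u := ⟨s - 23 / 10, by ring⟩
  have u0 : 0 ≤ u := by linarith
  have u1 : u ≤ 1 := by linarith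
  have u2 : 0 ≤ u ^ 2 := by positivity
  have v2 : u ^ 2 ≤ 1 * u := by
    rw [sq]
    exact mul_le_mul_of_nonneg_right u1 u0
  have v3 : u ^ 3 ≤ 1 * u ^ 2 := by
    have : u ^ 3 = u * u ^ 2 := by ring
    rw [this]
    exact mul_le_mul_of_nonneg_right u1 u2
  refine ⟨?_, ?_, ?_⟩ <;> ring_nf <;> linarith

private theorem q_K {K s e s0 al : ℝ} (hK : K ^ 2 = (1 + al) ^ 2 + s ^ 2) (h0 : -1 ≤ al)
    (h1 : al ≤ 6 / 5) (hs : s0 ≤ s) (he : 0 ≤ e) (hs0 : 0 ≤ s0)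
    (h : 484 / 100 ≤ 2 * e * s0 + e ^ 2) : K ≤ s + e := by
  refine q_sq ?_ (by linarith)
  rw [hK]
  have h2 : (1 + al) ^ 2 ≤ (11 / 5) ^ 2 := pow_le_pow_left₀ (by linarith) (by linarith) 2
  have h3 : 2 * e * s0 ≤ 2 * e * s := mul_le_mul_of_nonneg_left hs (by linarith)
  have h4 : (s + e) ^ 2 = s ^ 2 + 2 * e * s + e ^ 2 := by ring
  rw [h4]
  norm_num at h2
  linarith

private theorem q_A {al s H K x y z : ℝ} (h0 : 1 - 2 / 9 * s ≤ al) (h1 : al ≤ 6 / 5)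
    (s0 : 4 / 5 ≤ s) (s1 : s ≤ 2)
    (hH : H ^ 2 = al ^ 2 + s ^ 2) (hK : K ^ 2 = (1 + al) ^ 2 + s ^ 2)
    (hx0 : 0 < x) (hx : x ^ 2 = K) (hy0 : 0 < y) (hy : y ^ 2 = 72 / 5 * s) (hz0 : 0 < z)
    (hz : z ^ 2 = 54 / 5 * s + 6 * (1 + al)) :
    H * (31915 / 10000 * (1 / z ^ 3 + 7 / 5 * (1 / y ^ 3)) + 52 / 1000) +
      1 / 2 * K * (182534 / 10000 * H * (1 / z ^ 4 + 7 / 5 * (1 / y ^ 4)) + 57 / 10000) ≤
      1 / 2 * (10026 / 10000) * x := by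
  have hK0 : 0 ≤ K := by rw [← hx]; positivity
  have hHs : H ^ 2 ≤ 36 / 25 + s ^ 2 := by
    rw [hH]
    exact add_le_add_left (q_al2 (by linarith) h1) _
  have hKe : K ≤ s + 1541 / 1000 :=
    q_K hK (by linarith) h1 s0 (by norm_num) (by norm_num) (by norm_num)
  have hHm : H ^ 2 ≤ (4 / 5 * s + 1 / 4) * K := by
    refine q_sq ?_ (mul_nonneg (by linarith) hK0)
    have hf := q_conc (A := (4 / 5 * s + 1 / 4) ^ 2 * (1 + s ^ 2) - s ^ 4)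
      (B := 2 * (4 / 5 * s + 1 / 4) ^ 2) (D := 2 * s ^ 2 - (4 / 5 * s + 1 / 4) ^ 2) (p := 0)
      (al := al) le_rfl (by norm_num) (by linarith) h1 (q_fA s0 s1).1
      (le_of_le_of_eq (q_fA s0 s1).2.1 (by ring)) (q_fA s0 s1).2.2
    rw [mul_pow, hK, hH]
    linarith
  have hzc : 12 + 142 / 15 * s ≤ z ^ 2 := by
    rw [hz]
    linarith
  obtain ⟨u, rfl⟩ : ∃ u, s = 4 / 5 + u := ⟨s - 4 / 5, by ring⟩
  have u1 : 0 ≤ u := by linarith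
  have u2 : 0 ≤ u ^ 2 := by positivity
  have u3 : 0 ≤ u ^ 3 := by positivity
  have u4 : 0 ≤ u ^ 4 := by positivity
  exact q_iv (t1 := 109 / 10000) (t2 := 2413 / 100000) (t3 := 18 / 3125) (t4 := 1663 / 100000)
    (t5 := 1361 / 1000) (t6 := 941 / 500) hHs hKe hx0 hx hy0 hy hz0
    (by linarith : (0 : ℝ) ≤ 12 + 142 / 15 * (4 / 5 + u)) hzc hHm (by norm_num) (by norm_num)
    (by norm_num) (by norm_num) (by norm_num) (by norm_num) (by norm_num)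
    (by linarith) (by linarith) (by linarith) (by linarith) (by norm_num; linarith) (by norm_num; linarith)
    (by norm_num)

private theorem q_m {al s H K : ℝ} (h0 : -(9 / 25) ≤ al) (h1 : al ≤ 6 / 5) (s0 : 3 ≤ s)
    (hK0 : 0 ≤ K) (hH : H ^ 2 = al ^ 2 + s ^ 2) (hK : K ^ 2 = (1 + al) ^ 2 + s ^ 2) :
    H ^ 2 ≤ s * K := by
  refine q_sq ?_ (mul_nonneg (by linarith) hK0)
  rw [mul_pow, hK, hH]
  have h2 : 0 ≤ (al + 9 / 25) * (6 / 5 - al) := mul_nonneg (by linarith) (by linarith)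
  have h3 : 14 / 100 ≤ 1 + 2 * al - al ^ 2 := by linarith
  have h4 : al ^ 2 ≤ 36 / 25 := q_al2 (by linarith) h1
  have h5 : (9 : ℝ) ≤ s ^ 2 := by
    have := pow_le_pow_left₀ (by norm_num) s0 2
    linarith
  have h6 : al ^ 4 ≤ s ^ 2 * (1 + 2 * al - al ^ 2) := by
    rcases le_or_gt al (1 / 2) with h | h
    · have h7 : al ^ 2 ≤ 1 / 4 := by
        have h := sq_le_sq' (show -(1 / 2) ≤ al by linarith) h
        norm_num at h
        exact h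
      have h8 : al ^ 4 ≤ 1 / 16 := by
        have : al ^ 4 = al ^ 2 * al ^ 2 := by ring
        rw [this]
        have := mul_le_mul h7 h7 (sq_nonneg al) (by norm_num)
        norm_num at this
        exact this
      have h9 : 9 * (14 / 100) ≤ s ^ 2 * (1 + 2 * al - al ^ 2) :=
        mul_le_mul h5 h3 (by norm_num) (by positivity)
      linarith
    · have h8 : al ^ 4 ≤ (36 / 25) ^ 2 := by
        have : al ^ 4 = al ^ 2 * al ^ 2 := by ring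
        rw [this, sq (36 / 25 : ℝ)]
        exact mul_le_mul h4 h4 (sq_nonneg al) (by norm_num)
      have h10 : 1 ≤ 1 + 2 * al - al ^ 2 := by
        have := mul_nonneg (show 0 ≤ al by linarith) (show 0 ≤ 2 - al by linarith)
        linarith
      have h9 : 9 * 1 ≤ s ^ 2 * (1 + 2 * al - al ^ 2) :=
        mul_le_mul h5 h10 (by norm_num) (by positivity)
      norm_num at h8
      linarith
  linarith

private theorem q_B1 {al s H K x y z : ℝ} (h0 : 0 ≤ al) (h1 : al ≤ 6 / 5)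
    (s0 : 2 ≤ s) (s1 : s ≤ 23 / 10)
    (hH : H ^ 2 = al ^ 2 + s ^ 2) (hK : K ^ 2 = (1 + al) ^ 2 + s ^ 2)
    (hx0 : 0 < x) (hx : x ^ 2 = K) (hy0 : 0 < y) (hy : y ^ 2 = 72 / 5 * s) (hz0 : 0 < z)
    (hz : z ^ 2 = 54 / 5 * s + 9 / 5) :
    H * (31915 / 10000 * (1 / z ^ 3 + 7 / 5 * (1 / y ^ 3)) + 52 / 1000) +
      21 / 100 * K * (182534 / 10000 * H * (1 / z ^ 4 + 7 / 5 * (1 / y ^ 4)) + 57 / 10000) ≤
      21 / 100 * (10026 / 10000) * x := by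
  have hK0 : 0 ≤ K := by rw [← hx]; positivity
  have hHs : H ^ 2 ≤ 36 / 25 + s ^ 2 := by
    rw [hH]
    exact add_le_add_left (q_al2 (by linarith) h1) _
  have hKe : K ≤ s + 9733 / 10000 :=
    q_K hK (by linarith) h1 s0 (by norm_num) (by norm_num) (by norm_num)
  have hHm : H ^ 2 ≤ (s - 33 / 200) * K := by
    refine q_sq ?_ (mul_nonneg (by linarith) hK0)
    have hf := q_conc (A := (s - 33 / 200) ^ 2 - 33 / 200 * s ^ 2 * (2 * s - 33 / 200))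
      (B := 2 * (s - 33 / 200) ^ 2) (D := 2 * s ^ 2 - (s - 33 / 200) ^ 2)
      (p := 0) le_rfl (by norm_num) h0 h1 (q_fB1 s0 s1).1
      (le_of_le_of_eq (q_fB1 s0 s1).2.1 (by ring)) (q_fB1 s0 s1).2.2
    rw [mul_pow, hK, hH]
    linarith
  obtain ⟨u, rfl⟩ : ∃ u, s = 2 + u := ⟨s - 2, by ring⟩
  have u1 : 0 ≤ u := by linarith
  have u2 : 0 ≤ u ^ 2 := by positivity
  have u3 : 0 ≤ u ^ 3 := by positivity
  have u4 : 0 ≤ u ^ 4 := by positivity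
  exact q_iv (t1 := 1197 / 100000) (t2 := 877 / 100000) (t3 := 147 / 20000) (t4 := 97 / 20000)
    (t5 := 731 / 500) (t6 := 181 / 100) hHs hKe hx0 hx hy0 hy hz0
    (by linarith : (0 : ℝ) ≤ 54 / 5 * (2 + u) + 9 / 5) hz.ge hHm (by norm_num) (by norm_num)
    (by norm_num) (by norm_num) (by norm_num) (by norm_num) (by norm_num)
    (by linarith) (by linarith) (by linarith) (by linarith) (by norm_num; linarith) (by norm_num; linarith)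
    (by norm_num)

private theorem q_B2 {al s H K x y z : ℝ} (h0 : 4 / 15 ≤ al) (h1 : al ≤ 6 / 5)
    (s0 : 23 / 10 ≤ s) (s1 : s ≤ 33 / 10)
    (hH : H ^ 2 = al ^ 2 + s ^ 2) (hK : K ^ 2 = (1 + al) ^ 2 + s ^ 2)
    (hx0 : 0 < x) (hx : x ^ 2 = K) (hy0 : 0 < y) (hy : y ^ 2 = 72 / 5 * s) (hz0 : 0 < z)
    (hz : z ^ 2 = 54 / 5 * s + 9 / 5) :
    H * (31915 / 10000 * (1 / z ^ 3 + 7 / 5 * (1 / y ^ 3)) + 52 / 1000) +
      21 / 100 * K * (182534 / 10000 * H * (1 / z ^ 4 + 7 / 5 * (1 / y ^ 4)) + 57 / 10000) ≤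
      21 / 100 * (10026 / 10000) * x := by
  have hK0 : 0 ≤ K := by rw [← hx]; positivity
  have hHs : H ^ 2 ≤ 36 / 25 + s ^ 2 := by
    rw [hH]
    exact add_le_add_left (q_al2 (by linarith) h1) _
  have hKe : K ≤ s + 2207 / 2500 :=
    q_K hK (by linarith) h1 s0 (by norm_num) (by norm_num) (by norm_num)
  have hHm : H ^ 2 ≤ (s - 9 / 50) * K := by
    refine q_sq ?_ (mul_nonneg (by linarith) hK0)
    have hf := q_conc (A := (s - 9 / 50) ^ 2 - 9 / 50 * s ^ 2 * (2 * s - 9 / 50))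
      (B := 2 * (s - 9 / 50) ^ 2) (D := 2 * s ^ 2 - (s - 9 / 50) ^ 2) (by norm_num) (by norm_num)
      h0 h1 (q_fB2 s0 s1).1 (q_fB2 s0 s1).2.1 (q_fB2 s0 s1).2.2
    rw [mul_pow, hK, hH]
    linarith
  obtain ⟨u, rfl⟩ : ∃ u, s = 23 / 10 + u := ⟨s - 23 / 10, by ring⟩
  have u1 : 0 ≤ u := by linarith
  have u2 : 0 ≤ u ^ 2 := by positivity
  have u3 : 0 ≤ u ^ 3 := by positivity
  have u4 : 0 ≤ u ^ 4 := by positivity
  exact q_iv (t1 := 1059 / 100000) (t2 := 191 / 25000) (t3 := 653 / 100000) (t4 := 211 / 50000)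
    (t5 := 1767 / 1000) (t6 := 1023 / 500) hHs hKe hx0 hx hy0 hy hz0
    (by linarith : (0 : ℝ) ≤ 54 / 5 * (23 / 10 + u) + 9 / 5) hz.ge hHm (by norm_num) (by norm_num)
    (by norm_num) (by norm_num) (by norm_num) (by norm_num) (by norm_num)
    (by linarith) (by linarith) (by linarith) (by linarith) (by norm_num; linarith) (by norm_num; linarith)
    (by norm_num)

private theorem q_B3 {al s H K x y z : ℝ} (h0 : -(9 / 25) ≤ al) (h1 : al ≤ 6 / 5)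
    (s0 : 33 / 10 ≤ s) (s1 : s ≤ 53 / 10)
    (hH : H ^ 2 = al ^ 2 + s ^ 2) (hK : K ^ 2 = (1 + al) ^ 2 + s ^ 2)
    (hx0 : 0 < x) (hx : x ^ 2 = K) (hy0 : 0 < y) (hy : y ^ 2 = 72 / 5 * s) (hz0 : 0 < z)
    (hz : z ^ 2 = 54 / 5 * s + 9 / 5) :
    H * (31915 / 10000 * (1 / z ^ 3 + 7 / 5 * (1 / y ^ 3)) + 52 / 1000) +
      21 / 100 * K * (182534 / 10000 * H * (1 / z ^ 4 + 7 / 5 * (1 / y ^ 4)) + 57 / 10000) ≤
      21 / 100 * (10026 / 10000) * x := by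
  have hK0 : 0 ≤ K := by rw [← hx]; positivity
  have hHs : H ^ 2 ≤ 36 / 25 + s ^ 2 := by
    rw [hH]
    exact add_le_add_left (q_al2 (by linarith) h1) _
  have hKe : K ≤ s + 3331 / 5000 :=
    q_K hK (by linarith) h1 s0 (by norm_num) (by norm_num) (by norm_num)
  have hHm : H ^ 2 ≤ s * K := q_m (by linarith) h1 (by linarith) hK0 hH hK
  obtain ⟨u, rfl⟩ : ∃ u, s = 33 / 10 + u := ⟨s - 33 / 10, by ring⟩
  have u1 : 0 ≤ u := by linarith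
  have u2 : 0 ≤ u ^ 2 := by positivity
  have u3 : 0 ≤ u ^ 3 := by positivity
  have u4 : 0 ≤ u ^ 4 := by positivity
  exact q_iv (t1 := 793 / 100000) (t2 := 111 / 20000) (t3 := 499 / 100000) (t4 := 31 / 10000)
    (t5 := 2303 / 1000) (t6 := 2443 / 1000) hHs hKe hx0 hx hy0 hy hz0
    (by linarith : (0 : ℝ) ≤ 54 / 5 * (33 / 10 + u) + 9 / 5) hz.ge hHm (by norm_num) (by norm_num)
    (by norm_num) (by norm_num) (by norm_num) (by norm_num) (by norm_num)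
    (by linarith) (by linarith) (by linarith) (by linarith) (by norm_num; linarith) (by norm_num; linarith)
    (by norm_num)

private theorem q_B4 {al s H K x y z : ℝ} (h0 : -(9 / 25) ≤ al) (h1 : al ≤ 6 / 5)
    (s0 : 53 / 10 ≤ s) (s1 : s ≤ 8)
    (hH : H ^ 2 = al ^ 2 + s ^ 2) (hK : K ^ 2 = (1 + al) ^ 2 + s ^ 2)
    (hx0 : 0 < x) (hx : x ^ 2 = K) (hy0 : 0 < y) (hy : y ^ 2 = 72 / 5 * s) (hz0 : 0 < z)
    (hz : z ^ 2 = 54 / 5 * s + 9 / 5) :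
    H * (31915 / 10000 * (1 / z ^ 3 + 7 / 5 * (1 / y ^ 3)) + 52 / 1000) +
      21 / 100 * K * (182534 / 10000 * H * (1 / z ^ 4 + 7 / 5 * (1 / y ^ 4)) + 57 / 10000) ≤
      21 / 100 * (10026 / 10000) * x := by
  have hK0 : 0 ≤ K := by rw [← hx]; positivity
  have hHs : H ^ 2 ≤ 36 / 25 + s ^ 2 := by
    rw [hH]
    exact add_le_add_left (q_al2 (by linarith) h1) _
  have hKe : K ≤ s + 877 / 2000 :=
    q_K hK (by linarith) h1 s0 (by norm_num) (by norm_num) (by norm_num)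
  have hHm : H ^ 2 ≤ s * K := q_m (by linarith) h1 (by linarith) hK0 hH hK
  obtain ⟨u, rfl⟩ : ∃ u, s = 53 / 10 + u := ⟨s - 53 / 10, by ring⟩
  have u1 : 0 ≤ u := by linarith
  have u2 : 0 ≤ u ^ 2 := by positivity
  have u3 : 0 ≤ u ^ 3 := by positivity
  have u4 : 0 ≤ u ^ 4 := by positivity
  exact q_iv (t1 := 127 / 25000) (t2 := 173 / 50000) (t3 := 187 / 50000) (t4 := 7 / 3125)
    (t5 := 2829 / 1000) (t6 := 581 / 200) hHs hKe hx0 hx hy0 hy hz0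
    (by linarith : (0 : ℝ) ≤ 54 / 5 * (53 / 10 + u) + 9 / 5) hz.ge hHm (by norm_num) (by norm_num)
    (by norm_num) (by norm_num) (by norm_num) (by norm_num) (by norm_num)
    (by linarith) (by linarith) (by linarith) (by linarith) (by norm_num; linarith) (by norm_num; linarith)
    (by norm_num)

private theorem q_B5 {al s H K x y z : ℝ} (h0 : -(9 / 25) ≤ al) (h1 : al ≤ 6 / 5)
    (s0 : 8 ≤ s) (s1 : s ≤ 983 / 100)
    (hH : H ^ 2 = al ^ 2 + s ^ 2) (hK : K ^ 2 = (1 + al) ^ 2 + s ^ 2)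
    (hx0 : 0 < x) (hx : x ^ 2 = K) (hy0 : 0 < y) (hy : y ^ 2 = 72 / 5 * s) (hz0 : 0 < z)
    (hz : z ^ 2 = 54 / 5 * s + 9 / 5) :
    H * (31915 / 10000 * (1 / z ^ 3 + 7 / 5 * (1 / y ^ 3)) + 52 / 1000) +
      21 / 100 * K * (182534 / 10000 * H * (1 / z ^ 4 + 7 / 5 * (1 / y ^ 4)) + 57 / 10000) ≤
      21 / 100 * (10026 / 10000) * x := by
  have hK0 : 0 ≤ K := by rw [← hx]; positivity
  have hHs : H ^ 2 ≤ 36 / 25 + s ^ 2 := by
    rw [hH]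
    exact add_le_add_left (q_al2 (by linarith) h1) _
  have hKe : K ≤ s + 297 / 1000 :=
    q_K hK (by linarith) h1 s0 (by norm_num) (by norm_num) (by norm_num)
  have hHm : H ^ 2 ≤ s * K := q_m (by linarith) h1 (by linarith) hK0 hH hK
  obtain ⟨u, rfl⟩ : ∃ u, s = 8 + u := ⟨s - 8, by ring⟩
  have u1 : 0 ≤ u := by linarith
  have u2 : 0 ≤ u ^ 2 := by positivity
  have u3 : 0 ≤ u ^ 3 := by positivity
  have u4 : 0 ≤ u ^ 4 := by positivity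
  exact q_iv (t1 := 171 / 50000) (t2 := 229 / 100000) (t3 := 3 / 1000) (t4 := 11 / 6250)
    (t5 := 392 / 125) (t6 := 3183 / 1000) hHs hKe hx0 hx hy0 hy hz0
    (by linarith : (0 : ℝ) ≤ 54 / 5 * (8 + u) + 9 / 5) hz.ge hHm (by norm_num) (by norm_num)
    (by norm_num) (by norm_num) (by norm_num) (by norm_num) (by norm_num)
    (by linarith) (by linarith) (by linarith) (by linarith) (by norm_num; linarith) (by norm_num; linarith)
    (by norm_num)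

private theorem q_exp1 : Real.exp (-(55 / 8)) ≤ 10334 / 10000000 := by
  have h1 : (111393 / 98304 : ℝ) ≤ Real.exp (1 / 8) := by
    have h := Real.sum_le_exp_of_nonneg (show (0 : ℝ) ≤ 1 / 8 by norm_num) 5
    norm_num [Finset.sum_range_succ, Nat.factorial] at h
    linarith
  have h2 : Real.exp (55 / 8) = Real.exp (1 / 8) ^ 55 := by
    rw [← Real.exp_nat_mul]
    norm_num
  have h3 : (111393 / 98304 : ℝ) ^ 55 ≤ Real.exp (55 / 8) := by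
    rw [h2]
    exact pow_le_pow_left₀ (by norm_num) h1 55
  have h4 : (10000000 / 10334 : ℝ) ≤ Real.exp (55 / 8) := le_trans (by norm_num) h3
  rw [Real.exp_neg]
  calc (Real.exp (55 / 8))⁻¹ ≤ (10000000 / 10334 : ℝ)⁻¹ := inv_anti₀ (by norm_num) h4
    _ = 10334 / 10000000 := by norm_num

private theorem q_exp2 {t : ℝ} (h : t ≤ -(15 / 2)) : Real.exp t ≤ 554 / 1000000 := by
  have h0 : Real.exp t ≤ Real.exp (-(15 / 2)) := Real.exp_le_exp.2 h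
  refine h0.trans ?_
  have h1 : (6331 / 3840 : ℝ) ≤ Real.exp (1 / 2) := by
    have h := Real.sum_le_exp_of_nonneg (show (0 : ℝ) ≤ 1 / 2 by norm_num) 6
    norm_num [Finset.sum_range_succ, Nat.factorial] at h
    linarith
  have h2 : Real.exp (15 / 2) = Real.exp (1 / 2) ^ 15 := by
    rw [← Real.exp_nat_mul]
    norm_num
  have h3 : (6331 / 3840 : ℝ) ^ 15 ≤ Real.exp (15 / 2) := by
    rw [h2]
    exact pow_le_pow_left₀ (by norm_num) h1 15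
  have h4 : (1000000 / 554 : ℝ) ≤ Real.exp (15 / 2) := le_trans (by norm_num) h3
  rw [Real.exp_neg]
  calc (Real.exp (15 / 2))⁻¹ ≤ (1000000 / 554 : ℝ)⁻¹ := inv_anti₀ (by norm_num) h4
    _ = 554 / 1000000 := by norm_num

private theorem q_exp3 : Real.exp (-(43 / 6)) ≤ 8 / 10000 := by
  have h1 : (1531 / 1296 : ℝ) ≤ Real.exp (1 / 6) := by
    have h := Real.sum_le_exp_of_nonneg (show (0 : ℝ) ≤ 1 / 6 by norm_num) 4
    norm_num [Finset.sum_range_succ, Nat.factorial] at h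
    linarith
  have h2 : Real.exp (43 / 6) = Real.exp (1 / 6) ^ 43 := by
    rw [← Real.exp_nat_mul]
    norm_num
  have h3 : (1531 / 1296 : ℝ) ^ 43 ≤ Real.exp (43 / 6) := by
    rw [h2]
    exact pow_le_pow_left₀ (by norm_num) h1 43
  have h4 : (10000 / 8 : ℝ) ≤ Real.exp (43 / 6) := le_trans (by norm_num) h3
  rw [Real.exp_neg]
  calc (Real.exp (43 / 6))⁻¹ ≤ (10000 / 8 : ℝ)⁻¹ := inv_anti₀ (by norm_num) h4
    _ = 8 / 10000 := by norm_num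

private theorem q_q {q : ℝ} (hq : q ^ 2 = 37) : q ≤ 60828 / 10000 :=
  q_sq (by rw [hq]; norm_num) (by norm_num)

private theorem q_low {H q cp cm y z : ℝ} (hH : 0 ≤ H) (hq : q ^ 2 = 37)
    (hy : y ^ 2 = cm) (hz : z ^ 2 = cp) (hcp : 39 / 2 ≤ cp) (hcm : 23 / 2 ≤ cm) :
    lowErr (4 / 25) H q (1 / 3) (1 / 4) (21 / 20) cp cm (11 / 10) 3 (6 / 5) 2 (7 / 5) ≤
      182534 / 10000 * H * (1 / z ^ 4 + 7 / 5 * (1 / y ^ 4)) + 57 / 10000 := by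
  unfold lowErr
  have hq1 := q_q hq
  have hq4 : q ^ 4 = 1369 := by
    have : q ^ 4 = (q ^ 2) ^ 2 := by ring
    rw [this, hq]
    norm_num
  have e1 : 1 / cp ^ 2 = 1 / z ^ 4 := by rw [← hz]; ring
  have e2 : (7 / 5 : ℝ) / cm ^ 2 = 7 / 5 * (1 / y ^ 4) := by rw [← hy]; ring
  have t1 : H * q ^ 4 / 12 * (1 / cp ^ 2 + 7 / 5 / cm ^ 2) * (4 / 25) ≤
      182534 / 10000 * H * (1 / z ^ 4 + 7 / 5 * (1 / y ^ 4)) := by
    rw [hq4, e1, e2]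
    have h1 : 0 ≤ H * (1 / z ^ 4 + 7 / 5 * (1 / y ^ 4)) := by positivity
    have h2 : H * 1369 / 12 * (1 / z ^ 4 + 7 / 5 * (1 / y ^ 4)) * (4 / 25) =
        1369 / 12 * (4 / 25) * (H * (1 / z ^ 4 + 7 / 5 * (1 / y ^ 4))) := by ring
    have h3 : 182534 / 10000 * H * (1 / z ^ 4 + 7 / 5 * (1 / y ^ 4)) =
        182534 / 10000 * (H * (1 / z ^ 4 + 7 / 5 * (1 / y ^ 4))) := by ring
    rw [h2, h3]
    exact mul_le_mul_of_nonneg_right (by norm_num) h1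
  have E1 : Real.exp (-(11 / 10) / (4 / 25)) ≤ 10334 / 10000000 := by
    have : (-(11 / 10) / (4 / 25) : ℝ) = -(55 / 8) := by norm_num
    rw [this]
    exact q_exp1
  have E2 : Real.exp (-(cp * (1 / 4) ^ 2) / (4 / 25)) ≤ 554 / 1000000 := by
    refine q_exp2 ?_
    linarith
  have E3 : Real.exp (-(cm * (1 / 3) ^ 2) / (4 / 25)) ≤ 554 / 1000000 := by
    refine q_exp2 ?_
    linarith
  have E4 : Real.exp (-(6 / 5) / (4 / 25)) ≤ 554 / 1000000 := q_exp2 (by norm_num)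
  have t2 : ((21 / 20 - 1 / 4) + 4 / 25 / 3) * Real.exp (-(11 / 10) / (4 / 25)) ≤
      64 / 75 * (10334 / 10000000) := by
    have : ((21 / 20 - 1 / 4) + 4 / 25 / 3 : ℝ) = 64 / 75 := by norm_num
    rw [this]
    linarith
  have t3 : 4 / 25 / (cp * (1 / 4)) * Real.exp (-(cp * (1 / 4) ^ 2) / (4 / 25)) ≤
      33 / 1000 * (554 / 1000000) := by
    refine mul_le_mul ?_ E2 (Real.exp_nonneg _) (by norm_num)
    rw [div_le_iff₀ (by positivity)]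
    linarith
  have t4 : 4 / 25 / (cm * (1 / 3)) * Real.exp (-(cm * (1 / 3) ^ 2) / (4 / 25)) ≤
      42 / 1000 * (554 / 1000000) := by
    refine mul_le_mul ?_ E3 (Real.exp_nonneg _) (by norm_num)
    rw [div_le_iff₀ (by positivity)]
    linarith
  have t5 : q * (((21 / 20 - 1 / 4) + 4 / 25 / 3) * Real.exp (-(11 / 10) / (4 / 25)) +
      4 / 25 / (cp * (1 / 4)) * Real.exp (-(cp * (1 / 4) ^ 2) / (4 / 25)) +
      4 / 25 / (cm * (1 / 3)) * Real.exp (-(cm * (1 / 3) ^ 2) / (4 / 25))) ≤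
      60828 / 10000 * (64 / 75 * (10334 / 10000000) + 33 / 1000 * (554 / 1000000) +
        42 / 1000 * (554 / 1000000)) := by
    refine mul_le_mul hq1 (add_le_add (add_le_add t2 t3) t4) ?_ (by norm_num)
    have : 0 ≤ ((21 / 20 - 1 / 4) + 4 / 25 / 3 : ℝ) := by norm_num
    positivity
  have t6 : 4 / 25 / 2 * Real.exp (-(6 / 5) / (4 / 25)) ≤ 4 / 25 / 2 * (554 / 1000000) :=
    mul_le_mul_of_nonneg_left E4 (by norm_num)
  refine (add_le_add (add_le_add t1 t5) t6).trans ?_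
  have h7 : (60828 / 10000 * (64 / 75 * (10334 / 10000000) + 33 / 1000 * (554 / 1000000) +
        42 / 1000 * (554 / 1000000)) + 4 / 25 / 2 * (554 / 1000000) : ℝ) ≤ 57 / 10000 := by
    norm_num
  linarith

private theorem q_up {q cp cm y z : ℝ} (hq0 : 0 ≤ q) (hq : q ^ 2 = 37)
    (hy0 : 0 < y) (hy : y ^ 2 = cm) (hz0 : 0 < z) (hz : z ^ 2 = cp) :
    upErr (4 / 25) q 1 (1 / 3) (1 / 4) (21 / 20) cp cm (11 / 10) 3 (6 / 5) 2 (7 / 5) ≤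
      31915 / 10000 * (1 / z ^ 3 + 7 / 5 * (1 / y ^ 3)) + 52 / 1000 := by
  unfold upErr
  have hq1 := q_q hq
  have hq3 : q ^ 3 ≤ 37 * (60828 / 10000) := by
    have : q ^ 3 = q ^ 2 * q := by ring
    rw [this, hq]
    linarith
  have hq3' : 0 ≤ q ^ 3 := by positivity
  have hpi : Real.sqrt Real.pi ≤ 17725 / 10000 :=
    Real.sqrt_le_iff.2 ⟨by norm_num, by have := Real.pi_lt_d4; norm_num at this ⊢; linarith⟩
  have hd : Real.sqrt (4 / 25) = 2 / 5 := by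
    rw [show (4 / 25 : ℝ) = (2 / 5) ^ 2 by norm_num]
    exact Real.sqrt_sq (by norm_num)
  have g : ∀ {w c : ℝ}, 0 < w → w ^ 2 = c →
      4 / 25 / c * Real.sqrt (4 / 25 / c) = 4 / 25 * (2 / 5) * (1 / w ^ 3) := by
    intro w c hw hc
    rw [← hc, Real.sqrt_div (by norm_num), Real.sqrt_sq hw.le, hd]
    field_simp
  have t1 : q ^ 3 * (Real.sqrt Real.pi / 8) *
      (4 / 25 / cp * Real.sqrt (4 / 25 / cp) + 7 / 5 * (4 / 25 / cm) * Real.sqrt (4 / 25 / cm)) ≤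
      31915 / 10000 * (1 / z ^ 3 + 7 / 5 * (1 / y ^ 3)) := by
    have e1 : q ^ 3 * (Real.sqrt Real.pi / 8) *
      (4 / 25 / cp * Real.sqrt (4 / 25 / cp) + 7 / 5 * (4 / 25 / cm) * Real.sqrt (4 / 25 / cm)) =
      (q ^ 3 * (Real.sqrt Real.pi / 8) * (4 / 25 * (2 / 5))) *
        (1 / z ^ 3 + 7 / 5 * (1 / y ^ 3)) := by
      rw [g hz0 hz, mul_assoc (7 / 5 : ℝ), g hy0 hy]
      ring
    rw [e1]
    refine mul_le_mul_of_nonneg_right ?_ (by positivity)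
    have e2 : q ^ 3 * (Real.sqrt Real.pi / 8) ≤ 37 * (60828 / 10000) * (17725 / 10000 / 8) :=
      mul_le_mul hq3 (by linarith) (by positivity) (by norm_num)
    have e3 : q ^ 3 * (Real.sqrt Real.pi / 8) * (4 / 25 * (2 / 5)) ≤
        37 * (60828 / 10000) * (17725 / 10000 / 8) * (4 / 25 * (2 / 5)) :=
      mul_le_mul_of_nonneg_right e2 (by norm_num)
    exact e3.trans (by norm_num)
  have E1 : Real.exp (-(11 / 10) / (4 / 25)) ≤ 10334 / 10000000 := by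
    have : (-(11 / 10) / (4 / 25) : ℝ) = -(55 / 8) := by norm_num
    rw [this]
    exact q_exp1
  have t2 : q ^ 3 / 2 * (((21 / 20) ^ 3 - (1 / 4) ^ 3) / 3 +
      4 / 25 / 3 * ((21 / 20) ^ 2 + 2 * (21 / 20) * (4 / 25 / 3) +
        2 * (4 / 25 / 3) ^ 2)) * Real.exp (-(11 / 10) / (4 / 25)) ≤
      37 * (60828 / 10000) / 2 * (4458 / 10000) * (10334 / 10000000) := by
    have e1 : (((21 / 20) ^ 3 - (1 / 4) ^ 3) / 3 +
      4 / 25 / 3 * ((21 / 20) ^ 2 + 2 * (21 / 20) * (4 / 25 / 3) +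
        2 * (4 / 25 / 3) ^ 2) : ℝ) ≤ 4458 / 10000 := by norm_num
    refine mul_le_mul (mul_le_mul (by linarith) e1 ?_ (by norm_num)) E1 (Real.exp_nonneg _)
      (by norm_num)
    norm_num
  have t3 : Real.exp (1 / 3 * 1 - 6 / 5 / (4 / 25)) / 2 * ((1 / 3 * q) ^ 2 / (2 / (4 / 25) - 1) +
      2 * (1 / 3 * q) / (2 / (4 / 25) - 1) ^ 2 + 2 / (2 / (4 / 25) - 1) ^ 3) ≤
      8 / 10000 / 2 * (39 / 100) := by
    have E2 : Real.exp (1 / 3 * 1 - 6 / 5 / (4 / 25)) ≤ 8 / 10000 := by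
      have : (1 / 3 * 1 - 6 / 5 / (4 / 25) : ℝ) = -(43 / 6) := by norm_num
      rw [this]
      exact q_exp3
    have e1 : (2 / (4 / 25) - 1 : ℝ) = 23 / 2 := by norm_num
    have e2 : (1 / 3 * q) ^ 2 = 1 / 9 * 37 := by
      rw [mul_pow, hq]
      norm_num
    rw [e1, e2]
    refine mul_le_mul (by linarith) ?_ ?_ (by norm_num)
    · norm_num
      linarith
    · positivity
  refine (add_le_add (add_le_add t1 t2) t3).trans ?_
  have h7 : (37 * (60828 / 10000) / 2 * (4458 / 10000) * (10334 / 10000000) +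
    8 / 10000 / 2 * (39 / 100) : ℝ) ≤ 52 / 1000 := by norm_num
  linarith

private theorem q_main {δ a s cp k : ℝ} (hδ' : δ ≤ 4 / 25)
    (H : Hyp δ (a + s * I) (-(1 + (6 : ℝ) * I)) (1 / 3) (1 / 4) (21 / 20) cp (72 / 5 * s)
      (11 / 10) 3 (6 / 5) 2 (7 / 5) (7 / 5)) (hs : 4 / 5 ≤ s) (hcp : 39 / 2 ≤ cp) (hk : 0 < k)
    (hcore : ∀ H K x y z : ℝ, 0 ≤ H → H ^ 2 = (-a) ^ 2 + s ^ 2 → K ^ 2 = (1 + -a) ^ 2 + s ^ 2 →
      0 < x → x ^ 2 = K → 0 < y → y ^ 2 = 72 / 5 * s → 0 < z → z ^ 2 = cp →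
      H * (31915 / 10000 * (1 / z ^ 3 + 7 / 5 * (1 / y ^ 3)) + 52 / 1000) +
        k * K * (182534 / 10000 * H * (1 / z ^ 4 + 7 / 5 * (1 / y ^ 4)) + 57 / 10000) ≤
        k * (10026 / 10000) * x) :
    JJ δ (a + s * I) (1 / 3 * (1 + (6 : ℝ) * I)) (-(1 + (6 : ℝ) * I)) (fun _ => 1) ≠ 0 ∧
    ‖JJ δ (a + s * I) (1 / 3 * (1 + (6 : ℝ) * I)) (-(1 + (6 : ℝ) * I)) (fun v => v)‖ ≤
      k * ‖JJ δ (a + s * I) (1 / 3 * (1 + (6 : ℝ) * I)) (-(1 + (6 : ℝ) * I)) (fun _ => 1)‖ := by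
  have hp : (1 / 3 * (1 + (6 : ℝ) * I) : ℂ) = -(((1 / 3 : ℝ) : ℂ) * (-(1 + (6 : ℝ) * I))) := by
    push_cast
    ring
  rw [hp]
  -- the norms
  have hh2 : ‖(a + s * I : ℂ)‖ ^ 2 = (-a) ^ 2 + s ^ 2 := by
    rw [Complex.sq_norm, Complex.normSq_add_mul_I]
    ring
  have hk2 : ‖(1 - (a + s * I) : ℂ)‖ ^ 2 = (1 + -a) ^ 2 + s ^ 2 := by
    have e : (1 - (a + s * I) : ℂ) = ((1 - a : ℝ) : ℂ) + ((-s : ℝ) : ℂ) * I := by
      push_cast
      ring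
    rw [e, Complex.sq_norm, Complex.normSq_add_mul_I]
    ring
  have hd2 : ‖(-(1 + (6 : ℝ) * I) : ℂ)‖ ^ 2 = 37 := by
    have e : (-(1 + (6 : ℝ) * I) : ℂ) = ((-1 : ℝ) : ℂ) + ((-6 : ℝ) : ℂ) * I := by
      push_cast
      ring
    rw [e, Complex.sq_norm, Complex.normSq_add_mul_I]
    norm_num
  have hdre : |(-(1 + (6 : ℝ) * I) : ℂ).re| = 1 := by
    simp
  set h : ℂ := a + s * I with hh
  set d : ℂ := -(1 + (6 : ℝ) * I) with hd
  have hκ0 : 0 < ‖1 - h‖ := norm_pos_iff.2 (sub_ne_zero.2 (Ne.symm H.h_ne))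
  have hx0 : 0 < Real.sqrt ‖1 - h‖ := Real.sqrt_pos.2 hκ0
  have hx : Real.sqrt ‖1 - h‖ ^ 2 = ‖1 - h‖ := Real.sq_sqrt hκ0.le
  have hcm : 0 < 72 / 5 * s := by linarith
  have hy0 : 0 < Real.sqrt (72 / 5 * s) := Real.sqrt_pos.2 hcm
  have hy : Real.sqrt (72 / 5 * s) ^ 2 = 72 / 5 * s := Real.sq_sqrt hcm.le
  have hz0 : 0 < Real.sqrt cp := Real.sqrt_pos.2 (by linarith)
  have hz : Real.sqrt cp ^ 2 = cp := Real.sq_sqrt (by linarith)
  have hcore := hcore ‖h‖ ‖1 - h‖ _ _ _ (norm_nonneg _) hh2 hk2 hx0 hx hy0 hy hz0 hz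
  have hlow := q_low (H := ‖h‖) (q := ‖d‖) (norm_nonneg _) hd2 hy hz hcp (by linarith)
  have hup := q_up (q := ‖d‖) (norm_nonneg _) hd2 hy0 hy hz0 hz
  have hG : 100263 / 100000 * Real.sqrt ‖1 - h‖ ≤
      ‖1 - h‖ * Real.sqrt (2 * Real.pi * (4 / 25) / ‖1 - h‖) := by
    rw [Real.sqrt_div (by positivity)]
    have e1 : ‖1 - h‖ * (Real.sqrt (2 * Real.pi * (4 / 25)) / Real.sqrt ‖1 - h‖) =
        Real.sqrt (2 * Real.pi * (4 / 25)) * Real.sqrt ‖1 - h‖ := by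
      nth_rewrite 1 [← hx]
      field_simp
    rw [e1]
    refine mul_le_mul_of_nonneg_right ?_ hx0.le
    refine Real.le_sqrt_of_sq_le ?_
    have := Real.pi_gt_d4
    norm_num at this ⊢
    linarith
  set x : ℝ := Real.sqrt ‖1 - h‖ with hxd
  set G : ℝ := Real.sqrt (2 * Real.pi * (4 / 25) / ‖1 - h‖) with hGd
  set L : ℝ := lowErr (4 / 25) ‖h‖ ‖d‖ (1 / 3) (1 / 4) (21 / 20) cp (72 / 5 * s) (11 / 10) 3
    (6 / 5) 2 (7 / 5) with hLd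
  set U : ℝ := upErr (4 / 25) ‖d‖ 1 (1 / 3) (1 / 4) (21 / 20) cp (72 / 5 * s) (11 / 10) 3
    (6 / 5) 2 (7 / 5) with hUd
  have hU0 : 0 ≤ ‖h‖ * (31915 / 10000 * (1 / Real.sqrt cp ^ 3 +
      7 / 5 * (1 / Real.sqrt (72 / 5 * s) ^ 3)) + 52 / 1000) := by positivity
  have h1 := mul_le_mul_of_nonneg_left hup (norm_nonneg h)
  have h2 := mul_le_mul_of_nonneg_left hlow (show 0 ≤ k * ‖1 - h‖ by positivity)
  have h3 := mul_le_mul_of_nonneg_left hG hk.le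
  have h5 : k * (10026 / 10000) * x < k * (100263 / 100000 * x) := by
    have : 0 < k * x := mul_pos hk hx0
    linarith
  refine gen_fin0 H hδ' (by norm_num) (by norm_num) (by norm_num) hk.le ?_ ?_
  · have h4 : k * ‖1 - h‖ * L < k * ‖1 - h‖ * G := by
      have h6 : k * ‖1 - h‖ * G = k * (‖1 - h‖ * G) := by ring
      rw [h6]
      linarith
    exact lt_of_mul_lt_mul_left h4 (by positivity)
  · rw [hdre]
    have h4 : k * ‖1 - h‖ * (G - L) = k * (‖1 - h‖ * G) - k * ‖1 - h‖ * L := by ring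
    rw [h4]
    linarith

theorem est_LA {δ a s : ℝ} (hδ : 0 < δ) (hδ' : δ ≤ 4 / 25) (ha : -(6 / 5) ≤ a) (hs : 4 / 5 ≤ s)
    (hs' : s ≤ 2) (h1 : a ≤ 2 / 9 * s - 1) :
    JJ δ (a + s * I) (1 / 3 * (1 + (6 : ℝ) * I)) (-(1 + (6 : ℝ) * I)) (fun _ => 1) ≠ 0 ∧
    ‖JJ δ (a + s * I) (1 / 3 * (1 + (6 : ℝ) * I)) (-(1 + (6 : ℝ) * I)) (fun v => v)‖ ≤
      1 / 2 * ‖JJ δ (a + s * I) (1 / 3 * (1 + (6 : ℝ) * I)) (-(1 + (6 : ℝ) * I)) (fun _ => 1)‖ := by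
  refine q_main (cp := 54 / 5 * s + 6 * (1 - a)) hδ' ?_ hs (by linarith) (by norm_num) ?_
  · refine hyp_LQ hδ hδ' ha hs (by linarith) h1 (by linarith) (by linarith) (by linarith) ?_
    intro x hx0 hx1
    have h := left_scA (a := a) (s := s) (by linarith) (by linarith) hx0 hx1
    refine le_trans (le_of_eq ?_) h
    ring
  · intro H K x y z _ hH hK hx0 hx hy0 hy hz0 hz
    exact q_A (al := -a) (by linarith) (by linarith) hs hs' hH hK hx0 hx hy0 hy hz0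
      (by rw [hz]; ring)

theorem est_LB {δ a s : ℝ} (hδ : 0 < δ) (hδ' : δ ≤ 4 / 25) (ha : -(6 / 5) ≤ a) (hs : 2 ≤ s)
    (hs' : s ≤ 983 / 100) (h1 : a ≤ 2 / 9 * s - 1) (h2 : a + 24 / 625 * s ≤ 5907 / 10000) :
    JJ δ (a + s * I) (1 / 3 * (1 + (6 : ℝ) * I)) (-(1 + (6 : ℝ) * I)) (fun _ => 1) ≠ 0 ∧
    ‖JJ δ (a + s * I) (1 / 3 * (1 + (6 : ℝ) * I)) (-(1 + (6 : ℝ) * I)) (fun v => v)‖ ≤
      21 / 100 * ‖JJ δ (a + s * I) (1 / 3 * (1 + (6 : ℝ) * I)) (-(1 + (6 : ℝ) * I)) (fun _ => 1)‖ := by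
  have h3 : a ≤ 9 / 25 := by linarith
  refine q_main (cp := 54 / 5 * s + 9 / 5) hδ' ?_ (by linarith) (by linarith) (by norm_num) ?_
  · refine hyp_LQ hδ hδ' ha (by linarith) (by linarith) h1 h2 (by linarith) (by linarith) ?_
    intro x hx0 hx1
    have h := left_scB (a := a) (s := s) h3 (by linarith) hx0 hx1
    refine le_trans (le_of_eq ?_) h
    ring
  · intro H K x y z _ hH hK hx0 hx hy0 hy hz0 hz
    rcases le_or_gt s (23 / 10) with g1 | g1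
    · exact q_B1 (al := -a) (by linarith) (by linarith) hs g1 hH hK hx0 hx hy0 hy hz0 hz
    rcases le_or_gt s (33 / 10) with g2 | g2
    · exact q_B2 (al := -a) (by linarith) (by linarith) g1.le g2 hH hK hx0 hx hy0 hy hz0 hz
    rcases le_or_gt s (53 / 10) with g3 | g3
    · exact q_B3 (al := -a) (by linarith) (by linarith) g2.le g3 hH hK hx0 hx hy0 hy hz0 hz
    rcases le_or_gt s 8 with g4 | g4
    · exact q_B4 (al := -a) (by linarith) (by linarith) g3.le g4 hH hK hx0 hx hy0 hy hz0 hz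
    · exact q_B5 (al := -a) (by linarith) (by linarith) g4.le hs' hH hK hx0 hx hy0 hy hz0 hz

end SokalQ
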