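import Pool.Agent.Lib_MP_af4de1_fu.MGen
import Pool.Agent.Lib_MP_af4de1_fu.MElem

/-!
# Right contour: hypotheses of the general estimate, `9/2 ≤ ρ ≤ 8` [FQ-4]

`h = a + i s`, `d = i`: `ff h (x + iy) = xy - a(e^x sin y - y) - s(e^x cos y - 1 - x)` (`ff_eq`).
`right` (`v = -it`): `s(1-cos t) - a(t - sin t) ≥ .32 s t²` on `[0,2]` (`(1-cos t)/t² ≥ .354`, `(t - sin t)/t² ≤ .273`, `a ≤ s/12`).
`left`: `s(1-cos t) + a(t - sin t) ≥ s(1-cos t) ≥ .35 s t²` on `[0,2]`.
`far`: `[2, 2π-2]`: `≥ 1.41 s`; `t = 2π - x`, `0 ≤ x ≤ 2`: `2π a + s(1-cos x) - a(x - sin x) ≥ 2π a ≥ 1.2566` (inequality of `right`); `t ≥ 2π`: `t - sin t ≥ 2π`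
(increasing) and `t - sin t ≥ t - 1`, `a(t-1) ≥ 1.26 + (t - 7.3)/5` for `t ≥ 7.3`.
`side` (`v = u - 2i`): `-2u + a(e^u sin 2 - 2) + s(1 + u - e^u cos 2) ≥ 6 + 6u` (`sin 2 ≥ 0`, `-cos 2 ≥ 2/5`, `-2a ≥ -s/6`: `≥ (37/30) s + (7/5 s - 2) u`).
`quad`: `s t²/2`.  `k2`, `k3` with `1` (`taylor2_left`, `taylor3_left`).
-/

set_option autoImplicit false

namespace SokalQ

open Complex SokalFU

private theorem qhr_nonneg {f f' : ℝ → ℝ} (hf : ∀ x, HasDerivAt f (f' x) x) (h0 : f 0 = 0)
    (h : ∀ x, 0 ≤ x → 0 ≤ f' x) {x : ℝ} (hx : 0 ≤ x) : 0 ≤ f x := by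
  have h1 : MonotoneOn f (Set.Ici 0) := by
    refine monotoneOn_of_deriv_nonneg (convex_Ici 0) (fun y _ => (hf y).continuousAt.continuousWithinAt)
      (fun y _ => (hf y).differentiableAt.differentiableWithinAt) fun y hy => ?_
    rw [interior_Ici] at hy
    rw [(hf y).deriv]
    exact h y (le_of_lt hy)
  have h2 := h1 (Set.mem_Ici.mpr le_rfl) (Set.mem_Ici.mpr hx) hx
  rwa [h0] at h2

private theorem qhr_sin3 {x : ℝ} (hx : 0 ≤ x) : x - x ^ 3 / 6 ≤ Real.sin x := by
  have h := qhr_nonneg (f := fun x => Real.sin x - (x - x ^ 3 / 6))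
    (f' := fun x => Real.cos x - (1 - 3 * x ^ 2 / 6)) (fun x => by
      have h1 := (hasDerivAt_pow 3 x).div_const 6
      have h2 := (Real.hasDerivAt_sin x).sub ((hasDerivAt_id x).sub h1)
      exact HasDerivAt.congr_deriv h2 (by push_cast; norm_num)) (by simp) (fun x _ => by
      have := Real.one_sub_sq_div_two_le_cos (x := x)
      linarith) hx
  linarith

private theorem qhr_cos4 {x : ℝ} (hx : 0 ≤ x) : Real.cos x ≤ 1 - x ^ 2 / 2 + x ^ 4 / 24 := by
  have h := qhr_nonneg (f := fun x => (1 - x ^ 2 / 2 + x ^ 4 / 24) - Real.cos x)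
    (f' := fun x => (-(2 * x / 2) + 4 * x ^ 3 / 24) + Real.sin x) (fun x => by
      have h1 := (hasDerivAt_pow 2 x).div_const 2
      have h3 := (hasDerivAt_pow 4 x).div_const 24
      have h2 := ((h1.const_sub 1).add h3).sub (Real.hasDerivAt_cos x)
      exact HasDerivAt.congr_deriv h2 (by push_cast; norm_num)) (by simp) (fun x hx => by
      have := qhr_sin3 hx
      linarith) hx
  linarith

private theorem qhr_sin5 {x : ℝ} (hx : 0 ≤ x) : Real.sin x ≤ x - x ^ 3 / 6 + x ^ 5 / 120 := by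
  have h := qhr_nonneg (f := fun x => (x - x ^ 3 / 6 + x ^ 5 / 120) - Real.sin x)
    (f' := fun x => (1 - 3 * x ^ 2 / 6 + 5 * x ^ 4 / 120) - Real.cos x) (fun x => by
      have h1 := (hasDerivAt_pow 3 x).div_const 6
      have h3 := (hasDerivAt_pow 5 x).div_const 120
      have h2 := (((hasDerivAt_id x).sub h1).add h3).sub (Real.hasDerivAt_sin x)
      exact HasDerivAt.congr_deriv h2 (by push_cast; norm_num)) (by simp) (fun x hx => by
      have := qhr_cos4 hx
      linarith) hx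
  linarith

private theorem qhr_cos6 {x : ℝ} (hx : 0 ≤ x) :
    1 - x ^ 2 / 2 + x ^ 4 / 24 - x ^ 6 / 720 ≤ Real.cos x := by
  have h := qhr_nonneg (f := fun x => Real.cos x - (1 - x ^ 2 / 2 + x ^ 4 / 24 - x ^ 6 / 720))
    (f' := fun x => -Real.sin x - (-(2 * x / 2) + 4 * x ^ 3 / 24 - 6 * x ^ 5 / 720)) (fun x => by
      have h1 := (hasDerivAt_pow 2 x).div_const 2
      have h3 := (hasDerivAt_pow 4 x).div_const 24
      have h4 := (hasDerivAt_pow 6 x).div_const 720
      have h2 := (Real.hasDerivAt_cos x).sub (((h1.const_sub 1).add h3).sub h4)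
      exact HasDerivAt.congr_deriv h2 (by push_cast; norm_num)) (by simp) (fun x hx => by
      have := qhr_sin5 hx
      linarith) hx
  linarith

private theorem qhr_sin7 {x : ℝ} (hx : 0 ≤ x) :
    x - x ^ 3 / 6 + x ^ 5 / 120 - x ^ 7 / 5040 ≤ Real.sin x := by
  have h := qhr_nonneg (f := fun x => Real.sin x - (x - x ^ 3 / 6 + x ^ 5 / 120 - x ^ 7 / 5040))
    (f' := fun x => Real.cos x - (1 - 3 * x ^ 2 / 6 + 5 * x ^ 4 / 120 - 7 * x ^ 6 / 5040))
    (fun x => by
      have h1 := (hasDerivAt_pow 3 x).div_const 6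
      have h3 := (hasDerivAt_pow 5 x).div_const 120
      have h4 := (hasDerivAt_pow 7 x).div_const 5040
      have h2 := (Real.hasDerivAt_sin x).sub ((((hasDerivAt_id x).sub h1).add h3).sub h4)
      exact HasDerivAt.congr_deriv h2 (by push_cast; norm_num)) (by simp) (fun x hx => by
      have := qhr_cos6 hx
      linarith) hx
  linarith

private theorem qhr_cos8 {x : ℝ} (hx : 0 ≤ x) :
    Real.cos x ≤ 1 - x ^ 2 / 2 + x ^ 4 / 24 - x ^ 6 / 720 + x ^ 8 / 40320 := by
  have h := qhr_nonneg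
    (f := fun x => (1 - x ^ 2 / 2 + x ^ 4 / 24 - x ^ 6 / 720 + x ^ 8 / 40320) - Real.cos x)
    (f' := fun x => (-(2 * x / 2) + 4 * x ^ 3 / 24 - 6 * x ^ 5 / 720 + 8 * x ^ 7 / 40320) +
      Real.sin x) (fun x => by
      have h1 := (hasDerivAt_pow 2 x).div_const 2
      have h3 := (hasDerivAt_pow 4 x).div_const 24
      have h4 := (hasDerivAt_pow 6 x).div_const 720
      have h5 := (hasDerivAt_pow 8 x).div_const 40320
      have h2 := ((((h1.const_sub 1).add h3).sub h4).add h5).sub (Real.hasDerivAt_cos x)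
      exact HasDerivAt.congr_deriv h2 (by push_cast; norm_num)) (by simp) (fun x hx => by
      have := qhr_sin7 hx
      linarith) hx
  linarith

private theorem qhr_left {t : ℝ} (h0 : 0 ≤ t) (h2 : t ≤ 2) :
    7 / 20 * t ^ 2 ≤ 1 - Real.cos t := by
  have h := qhr_cos8 h0
  have hw0 : 0 ≤ t ^ 2 := sq_nonneg t
  have hw : t ^ 2 ≤ 4 := by nlinarith
  obtain ⟨w, hw1⟩ : ∃ w, w = t ^ 2 := ⟨_, rfl⟩
  have e4 : t ^ 4 = w ^ 2 := by rw [hw1]; ring
  have e6 : t ^ 6 = w ^ 3 := by rw [hw1]; ring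
  have e8 : t ^ 8 = w ^ 4 := by rw [hw1]; ring
  rw [e4, e6, e8, ← hw1] at h
  rw [← hw1] at hw0 hw ⊢
  have key : 0 ≤ 3 / 20 - w / 24 + w ^ 2 / 720 - w ^ 3 / 40320 := by
    have h3 : w ^ 3 ≤ 4 * w ^ 2 := by nlinarith [sq_nonneg w]
    nlinarith
  have := mul_nonneg hw0 key
  nlinarith

private theorem qhr_right {t : ℝ} (h0 : 0 ≤ t) (h2 : t ≤ 2) :
    8 / 25 * t ^ 2 ≤ (1 - Real.cos t) - 1 / 12 * (t - Real.sin t) := by
  have h := qhr_cos8 h0
  have h' := qhr_sin3 h0
  have hw0 : 0 ≤ t ^ 2 := sq_nonneg t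
  have hw : t ^ 2 ≤ 4 := by nlinarith
  -- `1/2 - w/24 + w²/720 - w³/40320 - t/72 - 8/25 ≥ 0`
  have key : 0 ≤ 9 / 50 - t / 72 - t ^ 2 / 24 + t ^ 4 / 720 - t ^ 6 / 40320 := by
    have h6 : t ^ 6 ≤ 4 * t ^ 4 := by
      have h4 : 0 ≤ t ^ 4 := by positivity
      nlinarith
    have h4 : 0 ≤ t ^ 4 := by positivity
    have hq : 0 ≤ (t ^ 2 - 4) ^ 2 := sq_nonneg _
    have e4 : t ^ 4 = (t ^ 2) ^ 2 := by ring
    nlinarith
  have := mul_nonneg hw0 key
  nlinarith

private theorem qhr_pos {t : ℝ} (h0 : 0 ≤ t) (h2 : t ≤ 2) :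
    0 ≤ (1 - Real.cos t) - 1 / 12 * (t - Real.sin t) :=
  le_trans (by positivity) (qhr_right h0 h2)

theorem hyp_RQ {δ a s : ℝ} (hδ : 0 < δ) (hδ' : δ ≤ 4 / 25) (ha : 1 / 5 ≤ a) (hs : 6 ≤ s)
    (h1 : a ≤ s / 12) :
    Hyp δ (a + s * I) I 2 2 (73 / 10) (7 / 20 * s) (8 / 25 * s) (5 / 4) (1 / 5) 6 6 1 1 := by
  have hs0 : 0 < s := by linarith
  have ha0 : 0 < a := by linarith
  have hpi := Real.pi_gt_d2
  have hpi' := Real.pi_lt_d2
  have hf : ∀ t : ℝ, ff (a + s * I) (t * I) = s * (1 - Real.cos t) + a * (t - Real.sin t) := by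
    intro t
    have h := ff_eq a s 0 t
    rw [Real.exp_zero, ofReal_zero, zero_add] at h
    rw [h]
    ring
  have hf' : ∀ t : ℝ, ff (a + s * I) (-(t * I)) = s * (1 - Real.cos t) - a * (t - Real.sin t) := by
    intro t
    have h := hf (-t)
    rw [Real.cos_neg, Real.sin_neg, ofReal_neg, neg_mul] at h
    rw [h]
    ring
  have hre : ∀ t : ℝ, (-((t : ℂ) * I)).re ≤ 0 := by
    intro t
    simp
  have hno : ∀ t : ℝ, 0 ≤ t → ‖-((t : ℂ) * I)‖ = t := by
    intro t ht
    rw [norm_neg, norm_mul, Complex.norm_I, mul_one, Complex.norm_real, Real.norm_of_nonneg ht]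
  have hcos2 : Real.cos 2 ≤ -(2 / 5) := by
    have := qhr_cos8 (x := 2) (by norm_num)
    norm_num at this
    linarith
  refine ⟨hδ, ?_, I_ne_zero, by simp, by norm_num, by norm_num, by norm_num, by positivity,
    by positivity, by norm_num, by norm_num, by norm_num, by linarith, by norm_num, by norm_num,
    ?_, ?_, ?_, ?_, ?_, ?_, ?_⟩
  · -- `h ≠ 1`
    intro h
    have h2 := congrArg Complex.im h
    simp at h2
    linarith
  · -- `quad`
    intro t
    have e : (1 - ((a : ℂ) + s * I)) * (t * I) ^ 2 / 2 =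
        ((-(t ^ 2 * (1 - a) / 2) : ℝ) : ℂ) + ((s * t ^ 2 / 2 : ℝ) : ℂ) * I := by
      push_cast
      linear_combination ((1 - (a : ℂ) - s * I) * t ^ 2 / 2) * I_sq
    have e2 : ((((-(t ^ 2 * (1 - a) / 2) : ℝ) : ℂ) + ((s * t ^ 2 / 2 : ℝ) : ℂ) * I)).im =
        s * t ^ 2 / 2 := by
      rw [add_im, ofReal_im, im_ofReal_mul, I_im]
      ring
    rw [e, e2, max_eq_left (by nlinarith)]
    nlinarith [mul_nonneg hs0.le (sq_nonneg t)]
  · -- `right`
    intro t h0 h2
    rw [hf']
    have h3 := qhr_right h0 h2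
    have h4 : 0 ≤ t - Real.sin t := by
      have := Real.sin_le h0
      linarith
    have h5 := mul_le_mul_of_nonneg_right h1 h4
    have h6 := mul_le_mul_of_nonneg_left h3 hs0.le
    nlinarith
  · -- `left`
    intro t h0 h2
    rw [hf]
    have h3 := qhr_left h0 h2
    have h4 : 0 ≤ a * (t - Real.sin t) := by
      have := Real.sin_le h0
      exact mul_nonneg ha0.le (by linarith)
    have h6 := mul_le_mul_of_nonneg_left h3 hs0.le
    nlinarith
  · -- `far`
    intro t h2
    rw [hf]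
    have hsin : 0 ≤ t - Real.sin t := by
      have := Real.sin_le (x := t) (by linarith)
      linarith
    -- `5/4 ≤ ...` for all `t ≥ 2`
    have hB : 5 / 4 ≤ s * (1 - Real.cos t) + a * (t - Real.sin t) := by
      rcases le_total t (2 * Real.pi - 2) with h4 | h4
      · have h5 : Real.cos t ≤ Real.cos 2 := by
          rcases le_total t Real.pi with h6 | h6
          · exact Real.cos_le_cos_of_nonneg_of_le_pi (by norm_num) h6 h2
          · have h7 : Real.cos t = Real.cos (2 * Real.pi - t) := by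
              rw [Real.cos_two_pi_sub]
            rw [h7]
            exact Real.cos_le_cos_of_nonneg_of_le_pi (by norm_num) (by linarith) (by linarith)
        have h8 : 0 ≤ a * (t - Real.sin t) := mul_nonneg ha0.le hsin
        nlinarith
      · rcases le_total t (2 * Real.pi) with h6 | h6
        · obtain ⟨x, hx⟩ : ∃ x, x = 2 * Real.pi - t := ⟨_, rfl⟩
          have ht : t = 2 * Real.pi - x := by rw [hx]; ring
          have hx0 : 0 ≤ x := by linarith
          have hx2 : x ≤ 2 := by linarith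
          rw [ht, Real.cos_two_pi_sub, Real.sin_two_pi_sub]
          have h7 := qhr_pos hx0 hx2
          have h8 : 0 ≤ x - Real.sin x := by
            have := Real.sin_le hx0
            linarith
          have h9 := mul_le_mul_of_nonneg_right h1 h8
          have h10 := mul_nonneg hs0.le h7
          have h11 : 1 / 5 * (2 * Real.pi) ≤ a * (2 * Real.pi) :=
            mul_le_mul_of_nonneg_right ha (by linarith)
          nlinarith
        · have h7 : 2 * Real.pi ≤ t - Real.sin t := by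
            have h8 := Real.sin_le (x := t - 2 * Real.pi) (by linarith)
            rw [Real.sin_sub_two_pi] at h8
            linarith
          have h9 : 0 ≤ s * (1 - Real.cos t) :=
            mul_nonneg hs0.le (by linarith [Real.cos_le_one t])
          have h10 : 1 / 5 * (2 * Real.pi) ≤ a * (t - Real.sin t) :=
            mul_le_mul ha h7 (by linarith) ha0.le
          linarith
    rcases le_total t (73 / 10) with h4 | h4
    · rw [max_eq_right (by linarith), mul_zero, add_zero]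
      exact hB
    · rw [max_eq_left (by linarith)]
      have h9 : 0 ≤ s * (1 - Real.cos t) :=
        mul_nonneg hs0.le (by linarith [Real.cos_le_one t])
      have h10 : 1 / 5 * (t - 1) ≤ a * (t - Real.sin t) :=
        mul_le_mul ha (by linarith [Real.sin_le_one t]) (by linarith) ha0.le
      linarith
  · -- `side`
    intro u hu
    have e : -(((2 : ℝ) : ℂ) * I) + (u : ℂ) = (u : ℂ) + ((-2 : ℝ) : ℂ) * I := by
      push_cast
      ring
    rw [e, ff_eq, Real.cos_neg, Real.sin_neg]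
    have hsn : 0 ≤ Real.sin 2 :=
      Real.sin_nonneg_of_nonneg_of_le_pi (by norm_num) (by linarith)
    have he : 1 + u ≤ Real.exp u := by
      have := Real.add_one_le_exp u
      linarith
    have h3 : 0 ≤ a * (Real.exp u * Real.sin 2) := by
      have := Real.exp_pos u
      positivity
    have h4 : (1 + u) * (2 / 5) ≤ Real.exp u * (-Real.cos 2) :=
      mul_le_mul he (by linarith) (by norm_num) (by positivity)
    have h6 := mul_le_mul_of_nonneg_left h4 hs0.le
    have h7 : 0 ≤ (s - 6) * u := mul_nonneg (by linarith) hu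
    nlinarith
  · -- `k2`
    intro t h0 _
    have h3 := taylor2_left (hre t)
    rw [hno t h0] at h3
    rw [Complex.norm_I, mul_one, one_mul]
    exact h3
  · -- `k3`
    intro t h0 _
    have h3 := taylor3_left (hre t)
    rw [hno t h0] at h3
    rw [Complex.norm_I, mul_one, one_mul]
    exact h3

end SokalQ
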