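import Pool.Agent.Lib_MP_af4de1_q.QGen
import Pool.Agent.Lib_MP_af4de1_q.QHypR

/-!
# Right contour: the estimate, `9/2 ≤ ρ ≤ 8` [FQ-6]

`gen_fin0` with `hyp_RQ`, `δ₀ = 4/25`, `k = 17/100` (true maximum of the quotient `.1672`, at `s = 16.15`; compare `MEstR.lean`).
`H = ‖h‖ ≤ 1.0035 s`, `s ≤ κ = ‖1-h‖ ≤ 1.0089 s`, `lowErr ≤ .2399/s + .00248`, `upErr ≤ .1469 s^(-3/2) + .03647`,
`κ √(2πδ₀/κ) ≥ 1.0026 √s`.  To show: `.1475/w + .0366 w² ≤ .17 (1.0026 w - .2421 - .00251 w²)` for `w = √s` in `[2.449, 4.019]`.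
-/

set_option autoImplicit false

namespace SokalQ

open Complex SokalFU

private theorem qestR_exp1 : Real.exp (-(5 / 4) / (4 / 25)) ≤ 405 / 1000000 := by
  have h1 : (27182818283 / 10000000000 : ℝ) < Real.exp 1 := by
    have := Real.exp_one_gt_d9
    norm_num at this ⊢
    exact this
  have h2 : Real.exp (125 / 16) = Real.exp 1 ^ 7 * Real.exp (13 / 16) := by
    rw [← Real.exp_nat_mul, ← Real.exp_add]
    norm_num
  have h3 : (2253 / 1000 : ℝ) ≤ Real.exp (13 / 16) := by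
    have h := Real.sum_le_exp_of_nonneg (x := (13 / 16 : ℝ)) (by norm_num) 6
    simp only [Finset.sum_range_succ, Finset.sum_range_zero, Nat.factorial] at h
    norm_num at h
    linarith
  have h4 : (27182818283 / 10000000000 : ℝ) ^ 7 ≤ Real.exp 1 ^ 7 :=
    pow_le_pow_left₀ (by norm_num) h1.le 7
  have h5 : (1000000 / 405 : ℝ) ≤ Real.exp (125 / 16) := by
    rw [h2]
    refine le_trans ?_ (mul_le_mul h4 h3 (by norm_num) (by positivity))
    norm_num
  have h6 : (-(5 / 4) / (4 / 25) : ℝ) = -(125 / 16) := by norm_num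
  rw [h6, Real.exp_neg]
  refine (inv_anti₀ (by norm_num) h5).trans ?_
  norm_num

private theorem qestR_exp2 {x : ℝ} (hx : x ≤ -15) : Real.exp x ≤ 1 / 100000 := by
  have h1 : (27 / 10 : ℝ) < Real.exp 1 := by
    have := Real.exp_one_gt_d9
    refine lt_trans ?_ this
    norm_num
  have h4 : (27 / 10 : ℝ) ^ 15 ≤ Real.exp 1 ^ 15 :=
    pow_le_pow_left₀ (by norm_num) h1.le 15
  have h5 : (100000 : ℝ) ≤ Real.exp 15 := by
    have h2 : Real.exp 15 = Real.exp 1 ^ 15 := by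
      rw [← Real.exp_nat_mul]
      norm_num
    rw [h2]
    refine le_trans ?_ h4
    norm_num
  calc Real.exp x ≤ Real.exp (-15) := Real.exp_le_exp.mpr hx
    _ = (Real.exp 15)⁻¹ := Real.exp_neg 15
    _ ≤ (100000 : ℝ)⁻¹ := inv_anti₀ (by norm_num) h5
    _ = 1 / 100000 := by norm_num

private theorem qestR_low {s H : ℝ} (hs : 6 ≤ s) (_hH : 0 ≤ H) (hHs : H ≤ 10035 / 10000 * s) :
    lowErr (4 / 25) H 1 2 2 (73 / 10) (7 / 20 * s) (8 / 25 * s) (5 / 4) (1 / 5) 6 6 1 ≤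
      2399 / 10000 / s + 248 / 100000 := by
  have hs0 : 0 < s := by linarith
  have e1 := qestR_exp1
  have e2 : Real.exp (-(7 / 20 * s * 2 ^ 2) / (4 / 25)) ≤ 1 / 100000 := by
    refine qestR_exp2 ?_
    rw [div_le_iff₀ (by norm_num)]
    linarith
  have e3 : Real.exp (-(8 / 25 * s * 2 ^ 2) / (4 / 25)) ≤ 1 / 100000 := by
    refine qestR_exp2 ?_
    rw [div_le_iff₀ (by norm_num)]
    linarith
  have e4 : Real.exp (-6 / (4 / 25)) ≤ 1 / 100000 := by
    refine qestR_exp2 ?_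
    norm_num
  have a1 : H * 1 ^ 4 / 12 * (1 / (7 / 20 * s) ^ 2 + 1 / (8 / 25 * s) ^ 2) * (4 / 25) ≤
      2399 / 10000 / s := by
    have e : H * 1 ^ 4 / 12 * (1 / (7 / 20 * s) ^ 2 + 1 / (8 / 25 * s) ^ 2) * (4 / 25) =
        (H / s) * ((4 / 25) / 12 * (400 / 49 + 625 / 64)) / s := by
      field_simp
      ring
    rw [e]
    refine div_le_div_of_nonneg_right ?_ hs0.le
    have h : H / s ≤ 10035 / 10000 := by
      rw [div_le_iff₀ hs0]
      exact hHs
    calc H / s * ((4 / 25) / 12 * (400 / 49 + 625 / 64)) ≤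
          10035 / 10000 * ((4 / 25) / 12 * (400 / 49 + 625 / 64)) :=
          mul_le_mul_of_nonneg_right h (by norm_num)
      _ ≤ 2399 / 10000 := by norm_num
  have a2 : ((73 / 10 - 2) + (4 / 25 : ℝ) / (1 / 5)) * Real.exp (-(5 / 4) / (4 / 25)) ≤
      ((73 / 10 - 2) + (4 / 25 : ℝ) / (1 / 5)) * (405 / 1000000) :=
    mul_le_mul_of_nonneg_left e1 (by norm_num)
  have a3 : (4 / 25 : ℝ) / (7 / 20 * s * 2) * Real.exp (-(7 / 20 * s * 2 ^ 2) / (4 / 25)) ≤
      1 / 20 * (1 / 100000) := by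
    refine mul_le_mul ?_ e2 (Real.exp_pos _).le (by norm_num)
    rw [div_le_iff₀ (by positivity)]
    linarith
  have a4 : (4 / 25 : ℝ) / (8 / 25 * s * 2) * Real.exp (-(8 / 25 * s * 2 ^ 2) / (4 / 25)) ≤
      1 / 20 * (1 / 100000) := by
    refine mul_le_mul ?_ e3 (Real.exp_pos _).le (by norm_num)
    rw [div_le_iff₀ (by positivity)]
    linarith
  have a5 : (4 / 25 : ℝ) / 6 * Real.exp (-6 / (4 / 25)) ≤
      (4 / 25 : ℝ) / 6 * (1 / 100000) :=
    mul_le_mul_of_nonneg_left e4 (by norm_num)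
  unfold lowErr
  norm_num at a1 a2 a3 a4 a5 ⊢
  linarith

private theorem qestR_up {s w : ℝ} (hs : 6 ≤ s) (hw : 0 < w) (hws : w ^ 2 = s) :
    upErr (4 / 25) 1 0 2 2 (73 / 10) (7 / 20 * s) (8 / 25 * s) (5 / 4) (1 / 5) 6 6 1 ≤
      1469 / 10000 / w ^ 3 + 3647 / 100000 := by
  have hs0 : 0 < s := by linarith
  have e1 := qestR_exp1
  have e4 : Real.exp (2 * 0 - 6 / (4 / 25)) ≤ 1 / 100000 := by
    refine qestR_exp2 ?_
    norm_num
  have r1 : Real.sqrt (4 / 25 / (7 / 20 * s)) ≤ 67615 / 100000 / w := by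
    rw [Real.sqrt_le_left (by positivity), ← hws]
    have e : (4 / 25 : ℝ) / (7 / 20 * w ^ 2) = 16 / 35 / w ^ 2 := by
      field_simp
      ring
    rw [e, div_pow]
    exact div_le_div_of_nonneg_right (by norm_num) (by positivity)
  have r2 : Real.sqrt (4 / 25 / (8 / 25 * s)) ≤ 70712 / 100000 / w := by
    rw [Real.sqrt_le_left (by positivity), ← hws]
    have e : (4 / 25 : ℝ) / (8 / 25 * w ^ 2) = 1 / 2 / w ^ 2 := by
      field_simp
      ring
    rw [e, div_pow]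
    exact div_le_div_of_nonneg_right (by norm_num) (by positivity)
  have r3 : Real.sqrt Real.pi ≤ 17725 / 10000 := by
    rw [Real.sqrt_le_left (by norm_num)]
    have := Real.pi_lt_d4
    norm_num at this ⊢
    linarith
  have a1 : (1 : ℝ) ^ 3 * (Real.sqrt Real.pi / 8) * (4 / 25 / (7 / 20 * s) *
      Real.sqrt (4 / 25 / (7 / 20 * s)) + 1 * (4 / 25 / (8 / 25 * s)) *
      Real.sqrt (4 / 25 / (8 / 25 * s))) ≤ 1469 / 10000 / w ^ 3 := by
    have h1 : 4 / 25 / (7 / 20 * s) * Real.sqrt (4 / 25 / (7 / 20 * s)) +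
        1 * (4 / 25 / (8 / 25 * s)) * Real.sqrt (4 / 25 / (8 / 25 * s)) ≤
        4 / 25 / (7 / 20 * s) * (67615 / 100000 / w) +
        1 * (4 / 25 / (8 / 25 * s)) * (70712 / 100000 / w) :=
      add_le_add (mul_le_mul_of_nonneg_left r1 (by positivity))
        (mul_le_mul_of_nonneg_left r2 (by positivity))
    have h2 : (1 : ℝ) ^ 3 * (Real.sqrt Real.pi / 8) ≤ 17725 / 10000 / 8 := by
      rw [one_pow, one_mul]
      exact div_le_div_of_nonneg_right r3 (by norm_num)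
    refine (mul_le_mul h2 h1 (by positivity) (by norm_num)).trans ?_
    rw [← hws]
    have e : (17725 / 10000 / 8 : ℝ) * (4 / 25 / (7 / 20 * w ^ 2) * (67615 / 100000 / w) +
        1 * (4 / 25 / (8 / 25 * w ^ 2)) * (70712 / 100000 / w)) =
        (17725 / 10000 / 8 * (16 / 35 * (67615 / 100000) + 1 / 2 * (70712 / 100000))) / w ^ 3 := by
      field_simp
      ring
    rw [e]
    exact div_le_div_of_nonneg_right (by norm_num) (by positivity)
  have a2 : (1 : ℝ) ^ 3 / 2 * (((73 / 10) ^ 3 - 2 ^ 3) / 3 + 4 / 25 / (1 / 5) *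
      ((73 / 10) ^ 2 + 2 * (73 / 10) * (4 / 25 / (1 / 5)) + 2 * (4 / 25 / (1 / 5)) ^ 2)) *
      Real.exp (-(5 / 4) / (4 / 25)) ≤ 3646 / 100000 := by
    refine (mul_le_mul_of_nonneg_left e1 (by norm_num)).trans ?_
    norm_num
  have a3 : Real.exp (2 * 0 - 6 / (4 / 25)) / 2 * ((2 * 1) ^ 2 / (6 / (4 / 25) - 1) +
      2 * (2 * 1) / (6 / (4 / 25) - 1) ^ 2 + 2 / (6 / (4 / 25) - 1) ^ 3) ≤
      1 / 100000 := by
    refine (mul_le_mul_of_nonneg_right (div_le_div_of_nonneg_right e4 (by norm_num))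
      (by norm_num)).trans ?_
    norm_num
  unfold upErr
  linarith

theorem est_RQ {δ a s : ℝ} (hδ : 0 < δ) (hδ' : δ ≤ 4 / 25) (ha : 1 / 5 ≤ a) (hs : 6 ≤ s)
    (hs' : s ≤ 1615 / 100) (h1 : a ≤ s / 12) :
    JJ δ (a + s * I) (-(2 * I)) I (fun _ => 1) ≠ 0 ∧
    ‖JJ δ (a + s * I) (-(2 * I)) I (fun v => v)‖ ≤
      17 / 100 * ‖JJ δ (a + s * I) (-(2 * I)) I (fun _ => 1)‖ := by
  have hs0 : 0 < s := by linarith
  have hα0 : 0 < a := by linarith
  have hH := hyp_RQ hδ hδ' ha hs h1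
  obtain ⟨w, hw⟩ : ∃ w, w = Real.sqrt s := ⟨_, rfl⟩
  have hw0 : 0 < w := by
    rw [hw]
    exact Real.sqrt_pos.mpr hs0
  have hws : w ^ 2 = s := by
    rw [hw]
    exact Real.sq_sqrt hs0.le
  obtain ⟨N, hN⟩ : ∃ N, N = ‖((a : ℂ) + s * I)‖ := ⟨_, rfl⟩
  obtain ⟨κ, hκ⟩ : ∃ κ, κ = ‖1 - ((a : ℂ) + s * I)‖ := ⟨_, rfl⟩
  have hN0 : 0 ≤ N := by
    rw [hN]
    exact norm_nonneg _
  have hκ0 : 0 ≤ κ := by
    rw [hκ]
    exact norm_nonneg _
  have hN2 : N ^ 2 = a ^ 2 + s ^ 2 := by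
    rw [hN, Complex.norm_add_mul_I, Real.sq_sqrt (by positivity)]
  have hκ2 : κ ^ 2 = (1 - a) ^ 2 + s ^ 2 := by
    have e : (1 : ℂ) - ((a : ℂ) + s * I) = ((1 - a : ℝ) : ℂ) + ((-s : ℝ) : ℂ) * I := by
      push_cast
      ring
    rw [hκ, e, Complex.norm_add_mul_I, Real.sq_sqrt (by positivity), neg_sq]
  have hs36 : 36 ≤ s ^ 2 := by
    have := pow_le_pow_left₀ (by norm_num) hs 2
    linarith
  have hNs : N ≤ 10035 / 10000 * s := by
    refine abs_le_of_sq_le_sq' ?_ (by positivity) |>.2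
    rw [hN2]
    have h2 : a ^ 2 ≤ (s / 12) ^ 2 := pow_le_pow_left₀ hα0.le h1 2
    have h3 : (s / 12) ^ 2 = 1 / 144 * s ^ 2 := by ring
    have h4 : (10035 / 10000 * s) ^ 2 = 100701225 / 100000000 * s ^ 2 := by ring
    rw [h4]
    linarith
  have hκs : κ ≤ 10089 / 10000 * s := by
    refine abs_le_of_sq_le_sq' ?_ (by positivity) |>.2
    rw [hκ2]
    have h2 : (1 - a) ^ 2 ≤ (4 / 5) ^ 2 := sq_le_sq' (by linarith) (by linarith)
    have h4 : (10089 / 10000 * s) ^ 2 = 101787921 / 100000000 * s ^ 2 := by ring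
    rw [h4]
    norm_num at h2
    linarith
  have hsκ : s ≤ κ := by
    refine abs_le_of_sq_le_sq' ?_ hκ0 |>.2
    rw [hκ2]
    linarith [sq_nonneg (1 - a)]
  have hκ1 : 0 < κ := by linarith
  obtain ⟨x, hx⟩ : ∃ x, x = Real.sqrt (2 * Real.pi * (4 / 25) / κ) := ⟨_, rfl⟩
  have hxw : 10026 / 10000 * w ≤ κ * x := by
    have h2 : 10026 / 10000 * w / κ ≤ x := by
      rw [hx]
      refine Real.le_sqrt_of_sq_le ?_
      rw [div_pow, mul_pow, hws, div_le_div_iff₀ (by positivity) hκ1]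
      have hpi := Real.pi_gt_d4
      norm_num at hpi
      have h3 : (10026 / 10000 : ℝ) ^ 2 * s ≤ 2 * Real.pi * (4 / 25) * κ := by
        have h4 : (100528 / 100000 : ℝ) * κ ≤ 2 * Real.pi * (4 / 25) * κ :=
          mul_le_mul_of_nonneg_right (by linarith) hκ0
        have h5 : (10026 / 10000 : ℝ) ^ 2 * s ≤ 100528 / 100000 * s :=
          mul_le_mul_of_nonneg_right (by norm_num) hs0.le
        linarith
      have h4 := mul_le_mul_of_nonneg_right h3 hκ0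
      rw [sq κ]
      linarith
    rw [div_le_iff₀ hκ1] at h2
    linarith
  have hlow := qestR_low hs hN0 hNs
  have hup := qestR_up hs hw0 hws
  obtain ⟨L, hL⟩ : ∃ L, L = lowErr (4 / 25) N 1 2 2 (73 / 10) (7 / 20 * s) (8 / 25 * s) (5 / 4)
    (1 / 5) 6 6 1 := ⟨_, rfl⟩
  obtain ⟨U, hU⟩ : ∃ U, U = upErr (4 / 25) 1 0 2 2 (73 / 10) (7 / 20 * s) (8 / 25 * s) (5 / 4)
    (1 / 5) 6 6 1 := ⟨_, rfl⟩
  rw [← hL] at hlow
  rw [← hU] at hup
  have hκL : κ * L ≤ 2421 / 10000 + 251 / 100000 * s := by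
    have h2 : κ * L ≤ κ * (2399 / 10000 / s + 248 / 100000) :=
      mul_le_mul_of_nonneg_left hlow hκ0
    have h3 : κ * (2399 / 10000 / s + 248 / 100000) ≤
        10089 / 10000 * s * (2399 / 10000 / s + 248 / 100000) :=
      mul_le_mul_of_nonneg_right hκs (by positivity)
    have h4 : 10089 / 10000 * s * (2399 / 10000 / s + 248 / 100000) =
        10089 / 10000 * (2399 / 10000) + 10089 / 10000 * (248 / 100000) * s := by
      field_simp
    linarith
  have hNU : N * U ≤ 1475 / 10000 / w + 366 / 10000 * s := by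
    have h2 : N * U ≤ N * (1469 / 10000 / w ^ 3 + 3647 / 100000) :=
      mul_le_mul_of_nonneg_left hup hN0
    have h3 : N * (1469 / 10000 / w ^ 3 + 3647 / 100000) ≤
        10035 / 10000 * s * (1469 / 10000 / w ^ 3 + 3647 / 100000) :=
      mul_le_mul_of_nonneg_right hNs (by positivity)
    have h4 : 10035 / 10000 * s * (1469 / 10000 / w ^ 3 + 3647 / 100000) =
        10035 / 10000 * (1469 / 10000) / w + 10035 / 10000 * (3647 / 100000) * s := by
      rw [← hws]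
      field_simp
    have h5 : 10035 / 10000 * (1469 / 10000) / w ≤ 1475 / 10000 / w :=
      div_le_div_of_nonneg_right (by norm_num) hw0.le
    linarith
  have hw1 : 2449 / 1000 ≤ w := by
    refine abs_le_of_sq_le_sq' ?_ hw0.le |>.2
    rw [hws]
    norm_num
    linarith
  have hw2 : w ≤ 4019 / 1000 := by
    refine abs_le_of_sq_le_sq' ?_ (by norm_num) |>.2
    rw [hws]
    norm_num
    linarith
  have hkey : 1475 / 10000 / w + 366 / 10000 * s ≤
      17 / 100 * (10026 / 10000 * w - (2421 / 10000 + 251 / 100000 * s)) := by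
    rw [← hws]
    have h2 : 1475 / 10000 / w + 366 / 10000 * w ^ 2 =
        (1475 / 10000 + 366 / 10000 * w ^ 3) / w := by
      field_simp
    rw [h2, div_le_iff₀ hw0]
    linarith [mul_nonneg (sub_nonneg.mpr hw1) (sub_nonneg.mpr hw2),
      mul_nonneg (mul_nonneg (sub_nonneg.mpr hw1) (sub_nonneg.mpr hw2)) hw0.le]
  have hlt : 2421 / 10000 + 251 / 100000 * s < 10026 / 10000 * w := by
    rw [← hws]
    have h2 := mul_le_mul_of_nonneg_right hw2 hw0.le
    rw [← sq] at h2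
    linarith
  have hne : ‖(I : ℂ)‖ = 1 := Complex.norm_I
  have hre : |(I : ℂ).re| = 0 := by simp
  have hpos : lowErr (4 / 25) ‖((a : ℂ) + s * I)‖ ‖(I : ℂ)‖ 2 2 (73 / 10) (7 / 20 * s)
      (8 / 25 * s) (5 / 4) (1 / 5) 6 6 1 <
      Real.sqrt (2 * Real.pi * (4 / 25) / ‖1 - ((a : ℂ) + s * I)‖) := by
    rw [hne, ← hN, ← hκ, ← hL, ← hx]
    have h2 : κ * L < κ * x := by linarith
    exact lt_of_mul_lt_mul_left h2 hκ0
  have hnum : ‖((a : ℂ) + s * I)‖ * upErr (4 / 25) ‖(I : ℂ)‖ |(I : ℂ).re| 2 2 (73 / 10)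
      (7 / 20 * s) (8 / 25 * s) (5 / 4) (1 / 5) 6 6 1 ≤
      17 / 100 * ‖1 - ((a : ℂ) + s * I)‖ *
        (Real.sqrt (2 * Real.pi * (4 / 25) / ‖1 - ((a : ℂ) + s * I)‖) -
        lowErr (4 / 25) ‖((a : ℂ) + s * I)‖ ‖(I : ℂ)‖ 2 2 (73 / 10) (7 / 20 * s) (8 / 25 * s)
          (5 / 4) (1 / 5) 6 6 1) := by
    rw [hne, hre, ← hN, ← hκ, ← hL, ← hU, ← hx]
    have h2 : 17 / 100 * κ * (x - L) = 17 / 100 * (κ * x - κ * L) := by ring
    rw [h2]
    linarith
  have h := gen_fin0 hH hδ' (by norm_num) (by norm_num) (by norm_num) (k := 17 / 100)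
    (by norm_num) hpos hnum
  have e : (((2 : ℝ) : ℂ) * I) = 2 * I := by
    push_cast
    rfl
  rw [e] at h
  exact h

end SokalQ
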