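import Pool.Agent.Lib_MP_af4de1_q.QRegB

/-!
# The distance of the real parts, `9/2 ≤ ρ ≤ 8` [FQ-3]
-/

set_option autoImplicit false

namespace SokalQ

open Real SokalFU

variable {ρ y a σ a' σ' : ℝ}

private theorem exp_ub_qgap {x u : ℝ} (hx : 0 ≤ x) (hx1 : x ≤ 1)
    (h : 1 + x + x ^ 2 / 2 + x ^ 3 / 6 + x ^ 4 * 5 / 96 ≤ u) : exp x ≤ u := by
  refine le_trans ?_ h
  have h1 := Real.exp_bound' hx hx1 (n := 4) (by norm_num)
  simp only [Finset.sum_range_succ, Finset.sum_range_zero, Nat.factorial] at h1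
  norm_num at h1
  linarith

private theorem exp_neg_lb_qgap {x u : ℝ} (hx : 0 ≤ x) (hx1 : x ≤ 1) (hu : 0 < u)
    (h : (1 + x + x ^ 2 / 2 + x ^ 3 / 6 + x ^ 4 * 5 / 96) * u ≤ 1) : u ≤ exp (-x) := by
  rw [exp_neg, le_inv_comm₀ hu (exp_pos x)]
  refine exp_ub_qgap hx hx1 ?_
  rw [← one_div, le_div_iff₀ hu]
  exact h

private theorem s_le_qgap (H : Sad ρ y a σ) (h1 : 9 / 2 ≤ ρ) : σ + y ≤ ρ * exp a := by
  rw [← H.S]
  have h3 : 0 < ρ * exp a := mul_pos (by linarith) (exp_pos a)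
  calc ρ * exp a * sin σ ≤ ρ * exp a * 1 := mul_le_mul_of_nonneg_left (sin_le_one σ) h3.le
    _ = ρ * exp a := mul_one _

/-- the angle of the left saddle for `-.21 ≤ a` -/
private theorem sig_qgap (H : Sad ρ y a σ) (h1 : 9 / 2 ≤ ρ) (ha : -(21 / 100) ≤ a) :
    σ ≤ π / 2 * (1058 / 1000) := by
  rcases le_or_gt σ (π / 2) with h | h
  · have := pi_pos
    linarith
  · have h2 := mul_le_sin (x := σ - π / 2) (by linarith) (by linarith [H.σπ])
    rw [sin_sub_pi_div_two] at h2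
    have he : (81 / 100 : ℝ) ≤ exp a := by
      have h3 : (81 / 100 : ℝ) ≤ exp (-(21 / 100)) :=
        exp_neg_lb_qgap (by norm_num) (by norm_num) (by norm_num) (by norm_num)
      exact h3.trans (exp_le_exp.2 ha)
    have h3 : (-(58 / 1000) : ℝ) ≤ cos σ := by
      by_contra hc
      push Not at hc
      have h4 : (9 / 2 : ℝ) * (81 / 100) ≤ ρ * exp a :=
        mul_le_mul h1 he (by norm_num) (by linarith)
      have h5 := H.C
      have h6 : ρ * exp a * cos σ ≤ ρ * exp a * (-(58 / 1000)) :=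
        mul_le_mul_of_nonneg_left hc.le (by linarith)
      linarith
    have h4 : 2 / π * (σ - π / 2) ≤ 58 / 1000 := by linarith
    have hpi := pi_pos
    have h5 : 2 / π * (σ - π / 2) = (2 * (σ - π / 2)) / π := by ring
    rw [h5, div_le_iff₀ hpi] at h4
    linarith

/-- `a ≥ 0`: `s' = s + 2π + σ' - σ ≥ s + 6.15`, `ρ e^(a') ≥ s'`, `ρ e^a ≤ 1.004 s`, `s ≤ 9.83`, so `e^(a'-a) ≥ 1.61`.
`a ≤ 0`, `y + 2π ≥ ρ + 27/10`: `ρ e^(a') ≥ s' ≥ ρ + 4.14`, `e^(a') ≥ 1.5175`, `a' ≥ .41` (`e^.41 ≤ 1.5069`).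
`a ≤ 0`, `y + 2π ≤ ρ + 27/10`: if `a > -.21`, then `cos σ ≥ -.0576`, `σ ≤ 1.6613` (`cos σ ≤ 1 - (2/π) σ` for `σ ∈ [π/2, π]`), `s ≤ ρ - 1.92`, but
`s² = ρ² e^(2a) - a² ≥ (.81 ρ)²` (`e^(-.42) ≥ .6570`), so `s ≥ .81 ρ`, contradiction to `.19 ρ ≤ 1.52`; so `a ≤ -.21`, `a' ≥ 1/5` (`rightQ`). -/
theorem gapQ (h1 : 9 / 2 ≤ ρ) (h2 : ρ ≤ 8) (H : Sad ρ y a σ) (H' : Sad ρ (y + 2 * π) a' σ')
    (hy : ρ + 1 / 4 ≤ y + 2 * π) (hy' : y ≤ ρ + 1 / 4) : 41 / 100 ≤ a' - a := by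
  have hpi1 := pi_gt_d4
  have hpi2 := pi_lt_d4
  obtain ⟨r1, r2, r3⟩ := rightQ H' h1 h2 hy (by linarith)
  obtain ⟨l1, l2⟩ := leftQ H h1 h2 (by linarith)
  obtain ⟨t1, t2⟩ := topQ H h1 h2 hy'
  obtain ⟨p1, p2, p3, p4⟩ := posQ H' h1 (by linarith)
  have hs' := s_le_qgap H' h1
  have he41 : exp (41 / 100) ≤ 15075 / 10000 :=
    exp_ub_qgap (by norm_num) (by norm_num) (by norm_num)
  rcases le_or_gt 0 a with h0 | h0
  · -- `a ≥ 0`
    obtain ⟨q1, q2, q3, q4⟩ := posQ H h1 h0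
    by_contra hc
    push Not at hc
    have e1 : exp a' = exp a * exp (a' - a) := by
      rw [← exp_add]
      congr 1
      ring
    have e2 : exp (a' - a) ≤ 15075 / 10000 := (exp_le_exp.2 hc.le).trans he41
    have e3 : ρ * exp a' ≤ 1004 / 1000 * (σ + y) * (15075 / 10000) := by
      rw [e1, ← mul_assoc]
      exact mul_le_mul q4 e2 (exp_pos _).le (by linarith)
    linarith
  · rcases le_or_gt (ρ + 27 / 10) (y + 2 * π) with h3 | h3
    · -- `y + 2π` large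
      by_contra hc
      push Not at hc
      have e2 : exp a' ≤ 15075 / 10000 := (exp_le_exp.2 (by linarith)).trans he41
      have e3 : ρ * exp a' ≤ ρ * (15075 / 10000) := mul_le_mul_of_nonneg_left e2 (by linarith)
      linarith
    · -- `a ≤ -.21`
      suffices h4 : a ≤ -(21 / 100) by linarith
      by_contra hc
      push Not at hc
      have e1 := sig_qgap H h1 hc.le
      have e2 : σ + y ≤ ρ - 192 / 100 := by linarith
      have e3 : (σ + y) ^ 2 ≤ (ρ - 192 / 100) ^ 2 := pow_le_pow_left₀ (by linarith) e2 2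
      have e4 := H.sq
      have e5 : (655 / 1000 : ℝ) ≤ exp (2 * a) := by
        have h5 : (655 / 1000 : ℝ) ≤ exp (-(42 / 100)) :=
          exp_neg_lb_qgap (by norm_num) (by norm_num) (by norm_num) (by norm_num)
        exact h5.trans (exp_le_exp.2 (by linarith))
      have e6 : ρ ^ 2 * (655 / 1000) ≤ ρ ^ 2 * exp (2 * a) :=
        mul_le_mul_of_nonneg_left e5 (sq_nonneg ρ)
      have e7 : a ^ 2 ≤ 441 / 10000 := by nlinarith
      nlinarith [mul_nonneg (sub_nonneg.2 h1) (sub_nonneg.2 h2)]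

/-- `s ≤ 2`: `a ≤ 2/9·2 - 1 = -5/9` (`leftQ`, `lineQ`), `a' ≥ 1/5`. -/
theorem gapQ2 (h1 : 9 / 2 ≤ ρ) (h2 : ρ ≤ 8) (H : Sad ρ y a σ) (H' : Sad ρ (y + 2 * π) a' σ')
    (hy : ρ + 1 / 4 ≤ y + 2 * π) (hy' : y ≤ ρ + 1 / 4) (hs : σ + y ≤ 2) : 3 / 4 ≤ a' - a := by
  have e1 := leftQ H h1 h2 (by linarith)
  have e2 := lineQ H h1 e1.1
  have e3 := (rightQ H' h1 h2 hy (by linarith)).1
  linarith

end SokalQ
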