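import Pool.Agent.Lib_MP_af4de1_fu.MDist
import Pool.Agent.Lib_MP_af4de1_fu.MLoc
import Pool.Agent.Lib_MP_af4de1_q.QEstR
import Pool.Agent.Lib_MP_af4de1_q.QEstL
import Pool.Agent.Lib_MP_af4de1_q.QGap
import Pool.Agent.Lib_MP_af4de1_q.QSad

/-!
# `N = 1`, `0 < δ ≤ 4/25`, `9/2 ≤ δ r ≤ 8` ⇒ `Dist δ r`
-/

set_option autoImplicit false

namespace SokalQ

open Complex MeasureTheory Set SokalFU

private theorem kk_neQ (ρ δ ψ : ℝ) (g : ℂ) : kk ρ δ ψ g ≠ 0 := Complex.exp_ne_zero _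

/-- `ρ e^(a+iσ) = a + i s` in complex form -/
private theorem exp_formQ {ρ a σ s : ℝ} (hC : ρ * Real.exp a * Real.cos σ = a)
    (hS : ρ * Real.exp a * Real.sin σ = s) : (ρ : ℂ) * cexp (a + σ * I) = a + s * I := by
  have h1 : cexp ((a : ℂ) + σ * I) = ((Real.exp a * Real.cos σ : ℝ) : ℂ) +
      ((Real.exp a * Real.sin σ : ℝ) : ℂ) * I := by
    rw [Complex.exp_add, Complex.exp_mul_I, ← Complex.ofReal_exp, ← Complex.ofReal_cos,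
      ← Complex.ofReal_sin]
    push_cast; ring
  rw [h1]
  have h2 : (a : ℂ) = ((ρ * Real.exp a * Real.cos σ : ℝ) : ℂ) := by rw [hC]
  have h3 : (s : ℂ) = ((ρ * Real.exp a * Real.sin σ : ℝ) : ℂ) := by rw [hS]
  rw [h3]
  conv_rhs => rw [h2]
  push_cast; ring

/-- the ratio in terms of the local integrals -/
private theorem ratio_reQ {K J0 J1 g : ℂ} (hK : K ≠ 0) (hJ : J0 ≠ 0) :
    (K * (g * J0 + J1) / (K * J0)).re = g.re + (J1 / J0).re := by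
  rw [mul_div_mul_left _ _ hK, add_div, mul_div_cancel_right₀ _ hJ, add_re]

private theorem re_div_leQ {J0 J1 : ℂ} {k : ℝ} (hJ : J0 ≠ 0) (h : ‖J1‖ ≤ k * ‖J0‖) :
    |(J1 / J0).re| ≤ k := by
  refine (abs_re_le_norm _).trans ?_
  rw [norm_div, div_le_iff₀ (norm_pos_iff.mpr hJ)]
  exact h

/-- right contour -/
theorem right_ptQ {ρ δ ψ a σ : ℝ} (hδ : 0 < δ) (hδ' : δ ≤ 4 / 25) (h1 : 9 / 2 ≤ ρ) (h2 : ρ ≤ 8)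
    (H : Sad ρ ψ a σ) (hψ : ρ + 1 / 4 ≤ ψ) (hψ' : ψ ≤ ρ + 1 / 4 + 2 * Real.pi) :
    SR ρ δ ψ 0 ≠ 0 ∧ a - 17 / 100 ≤ (SR ρ δ ψ 1 / SR ρ δ ψ 0).re := by
  have hρ : 0 < ρ := by linarith
  obtain ⟨ra, rs, rs'⟩ := rightQ H h1 h2 hψ hψ'
  obtain ⟨p1, p2, p3, p4⟩ := posQ H h1 (by linarith)
  obtain ⟨e0, e1⟩ := est_RQ hδ hδ' ra rs rs' p3
  have hpi := Real.pi_gt_three
  have hpi' := Real.pi_lt_d2
  have hh : (ρ : ℂ) * cexp (a + σ * I) = a + (σ + ψ : ℝ) * I := exp_formQ H.C H.S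
  have hg : (a : ℂ) + (σ + ψ : ℝ) * I = (a + σ * I) + ψ * I := by push_cast; ring
  obtain ⟨l0, l1⟩ := SR_loc hρ hδ (ψ := ψ) (p := -(2 * I)) hg hh
    (by simp; linarith) (by simp; linarith) (by simp; linarith)
  have hk := kk_neQ ρ δ ψ ((a : ℂ) + σ * I)
  refine ⟨by rw [l0]; exact mul_ne_zero hk e0, ?_⟩
  rw [l0, l1, ratio_reQ hk e0]
  have h3 := (abs_le.mp (re_div_leQ e0 e1)).1
  have h4 : ((a : ℂ) + σ * I).re = a := by simp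
  rw [h4]; linarith

/-- left contour -/
theorem left_ptQ {ρ δ ψ a σ : ℝ} (hδ : 0 < δ) (hδ' : δ ≤ 4 / 25) (h1 : 9 / 2 ≤ ρ) (h2 : ρ ≤ 8)
    (H : Sad ρ (ψ - 2 * Real.pi) a σ) (hψ : ρ + 1 / 4 ≤ ψ) (hψ' : ψ ≤ ρ + 1 / 4 + 2 * Real.pi) :
    SL ρ δ ψ 0 ≠ 0 ∧ (SL ρ δ ψ 1 / SL ρ δ ψ 0).re ≤
      a + (if σ + (ψ - 2 * Real.pi) ≤ 2 then 1 / 2 else 21 / 100) := by
  have hρ : 0 < ρ := by linarith
  have hpi := Real.pi_gt_three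
  have hpi' := Real.pi_lt_d2
  obtain ⟨q1, q2⟩ := leftQ H h1 h2 (by linarith)
  have q3 := lineQ H h1 q1
  obtain ⟨q4, q5⟩ := topQ H h1 h2 (by linarith)
  have q6 := sigQ H h1
  have hσπ := H.σπ
  have hE : JJ δ (a + (σ + (ψ - 2 * Real.pi) : ℝ) * I) (1 / 3 * (1 + (6 : ℝ) * I))
      (-(1 + (6 : ℝ) * I)) (fun _ => 1) ≠ 0 ∧
    ‖JJ δ (a + (σ + (ψ - 2 * Real.pi) : ℝ) * I) (1 / 3 * (1 + (6 : ℝ) * I))
      (-(1 + (6 : ℝ) * I)) (fun v => v)‖ ≤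
      (if σ + (ψ - 2 * Real.pi) ≤ 2 then 1 / 2 else 21 / 100 : ℝ) *
        ‖JJ δ (a + (σ + (ψ - 2 * Real.pi) : ℝ) * I) (1 / 3 * (1 + (6 : ℝ) * I))
        (-(1 + (6 : ℝ) * I)) (fun _ => 1)‖ := by
    split_ifs with hs
    · exact est_LA hδ hδ' q1 q2 hs q3
    · exact est_LB hδ hδ' q1 (not_le.1 hs).le q4 q3 q5
  obtain ⟨e0, e1⟩ := hE
  have hh : (ρ : ℂ) * cexp (a + ((σ - 2 * Real.pi : ℝ) : ℂ) * I) =
      a + (σ + (ψ - 2 * Real.pi) : ℝ) * I :=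
    exp_formQ (by rw [Real.cos_sub_two_pi]; exact H.C) (by rw [Real.sin_sub_two_pi]; exact H.S)
  have hg : (a : ℂ) + (σ + (ψ - 2 * Real.pi) : ℝ) * I =
      (a + ((σ - 2 * Real.pi : ℝ) : ℂ) * I) + ψ * I := by push_cast; ring
  obtain ⟨l0, l1⟩ := SL_loc hρ hδ hg hh (m := 6) (by norm_num) (p := 1 / 3 * (1 + (6 : ℝ) * I))
    (by simp; linarith) (by simp; linarith)
  have hk : -kk ρ δ ψ ((a : ℂ) + ((σ - 2 * Real.pi : ℝ) : ℂ) * I) ≠ 0 :=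
    neg_ne_zero.mpr (kk_neQ ρ δ ψ _)
  refine ⟨by rw [l0]; exact mul_ne_zero hk e0, ?_⟩
  rw [l0, l1, ratio_reQ hk e0]
  have h3 := (abs_le.mp (re_div_leQ e0 e1)).2
  have h4 : ((a : ℂ) + ((σ - 2 * Real.pi : ℝ) : ℂ) * I).re = a := by simp
  rw [h4]; linarith

theorem main_ptQ {ρ δ ψ : ℝ} (hδ : 0 < δ) (hδ' : δ ≤ 4 / 25) (h1 : 9 / 2 ≤ ρ) (h2 : ρ ≤ 8)
    (hψ : ρ + 1 / 4 ≤ ψ) (hψ' : ψ ≤ ρ + 1 / 4 + 2 * Real.pi) :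
    SL ρ δ ψ 0 ≠ 0 ∧ SR ρ δ ψ 0 ≠ 0 ∧
      (SL ρ δ ψ 1 / SL ρ δ ψ 0).re < (SR ρ δ ψ 1 / SR ρ δ ψ 0).re := by
  have hpi := Real.pi_gt_three
  obtain ⟨a', σ', HR⟩ := exists_sadQ (y := ψ) h1 h2 (by linarith) hψ'
  obtain ⟨a, σ, HL⟩ := exists_sadQ (y := ψ - 2 * Real.pi) h1 h2 (by linarith) (by linarith)
  obtain ⟨r0, r1⟩ := right_ptQ hδ hδ' h1 h2 HR hψ hψ'
  obtain ⟨l0, l1⟩ := left_ptQ hδ hδ' h1 h2 HL hψ hψ'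
  have HR' : Sad ρ ((ψ - 2 * Real.pi) + 2 * Real.pi) a' σ' := by
    rw [sub_add_cancel]; exact HR
  refine ⟨l0, r0, ?_⟩
  split_ifs at l1 with hs
  · have hg := gapQ2 h1 h2 HL HR' (by linarith) (by linarith) hs
    linarith
  · have hg := gapQ h1 h2 HL HR' (by linarith) (by linarith)
    linarith

/-- `N = 1`, `9/2 ≤ ρ ≤ 8` -/
theorem dist_mid2 {δ r : ℝ} (hδ : 0 < δ) (hδ' : δ ≤ 4 / 25) (h1 : 9 / 2 ≤ δ * r) (h2 : δ * r ≤ 8) :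
    Dist δ r := by
  have h3 := dist_of (ρ := δ * r) (by linarith) hδ (δ * r + 1 / 4)
    (fun ψ hψ => main_ptQ hδ hδ' h1 h2 hψ.1 hψ.2)
  rwa [mul_div_cancel_left₀ _ hδ.ne'] at h3

end SokalQ
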