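import Pool.Agent.Lib_MP_af4de1_fu.MMon

/-!
# Reduction to a general `δ₀` (copy of `gen_fin`)
-/

set_option autoImplicit false

namespace SokalQ

open Complex MeasureTheory Set SokalFU

theorem gen_fin0 {δ δ0 : ℝ} {h d : ℂ} {τ T T' cp cm B l b σ K2 K3 k : ℝ}
    (H : Hyp δ h d τ T T' cp cm B l b σ K2 K3) (hδ : δ ≤ δ0) (hB : δ0 ≤ 2 * B)
    (hb : δ0 ≤ 2 * b) (hσ : δ0 < σ) (hk : 0 ≤ k)
    (hpos : lowErr δ0 ‖h‖ ‖d‖ τ T T' cp cm B l b σ K3 <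
      Real.sqrt (2 * Real.pi * δ0 / ‖1 - h‖))
    (hnum : ‖h‖ * upErr δ0 ‖d‖ |d.re| τ T T' cp cm B l b σ K2 ≤
      k * ‖1 - h‖ * (Real.sqrt (2 * Real.pi * δ0 / ‖1 - h‖) -
        lowErr δ0 ‖h‖ ‖d‖ τ T T' cp cm B l b σ K3)) :
    JJ δ h (-(τ * d)) d (fun _ => 1) ≠ 0 ∧
    ‖JJ δ h (-(τ * d)) d (fun v => v)‖ ≤ k * ‖JJ δ h (-(τ * d)) d (fun _ => 1)‖ := by
  have hδ0 : (0 : ℝ) < δ0 := H.δpos.trans_le hδ
  have h1h : 0 < ‖1 - h‖ := norm_pos_iff.2 (sub_ne_zero.2 (Ne.symm H.h_ne))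
  have hlow := gen_low H
  have hup := gen_up H
  have m1 := lowErr_mono (H := ‖h‖) (q := ‖d‖) (τ := τ) (T := T) (T' := T') (cp := cp) (cm := cm)
    (B := B) (l := l) (b := b) (σ := σ) (K3 := K3) H.δpos hδ hB (norm_nonneg _) (norm_nonneg _)
    H.τpos H.Tpos H.TT H.cppos H.cmpos H.lpos H.bpos (H.δpos.trans H.σgt) H.K3pos
  have m2 := upErr_mono (q := ‖d‖) (r := |d.re|) (τ := τ) (T := T) (T' := T') (cp := cp) (cm := cm)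
    (B := B) (l := l) (b := b) (σ := σ) (K2 := K2) H.δpos hδ hB (norm_nonneg _)
    H.τpos H.Tpos H.TT H.cppos H.cmpos H.lpos hb hσ H.K2pos
  set s : ℝ := Real.sqrt (δ / δ0) with hs
  have hs0 : 0 < s := Real.sqrt_pos.2 (div_pos H.δpos hδ0)
  have e1 : Real.sqrt (2 * Real.pi * δ / ‖1 - h‖) =
      Real.sqrt (2 * Real.pi * δ0 / ‖1 - h‖) * s := by
    rw [hs, ← Real.sqrt_mul (by positivity)]
    congr 1
    field_simp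
  set G : ℝ := Real.sqrt (2 * Real.pi * δ0 / ‖1 - h‖) -
    lowErr δ0 ‖h‖ ‖d‖ τ T T' cp cm B l b σ K3 with hG
  have hG0 : 0 < G := by
    rw [hG]
    linarith
  have hJ : G * s ≤ ‖JJ δ h (-(τ * d)) d (fun _ => 1)‖ := by
    refine le_trans ?_ hlow
    rw [e1, hG, sub_mul]
    linarith
  have hJ0 : 0 < ‖JJ δ h (-(τ * d)) d (fun _ => 1)‖ := (mul_pos hG0 hs0).trans_le hJ
  refine ⟨norm_pos_iff.1 hJ0, ?_⟩
  have h2 : ‖1 - h‖ * ‖JJ δ h (-(τ * d)) d (fun v => v)‖ ≤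
      ‖1 - h‖ * (k * ‖JJ δ h (-(τ * d)) d (fun _ => 1)‖) := by
    calc ‖1 - h‖ * ‖JJ δ h (-(τ * d)) d (fun v => v)‖ ≤
        ‖h‖ * upErr δ ‖d‖ |d.re| τ T T' cp cm B l b σ K2 := hup
      _ ≤ ‖h‖ * (upErr δ0 ‖d‖ |d.re| τ T T' cp cm B l b σ K2 * s) :=
          mul_le_mul_of_nonneg_left m2 (norm_nonneg _)
      _ = (‖h‖ * upErr δ0 ‖d‖ |d.re| τ T T' cp cm B l b σ K2) * s := by ring
      _ ≤ (k * ‖1 - h‖ * G) * s := mul_le_mul_of_nonneg_right hnum hs0.le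
      _ = ‖1 - h‖ * (k * (G * s)) := by ring
      _ ≤ ‖1 - h‖ * (k * ‖JJ δ h (-(τ * d)) d (fun _ => 1)‖) := by
          apply mul_le_mul_of_nonneg_left _ h1h.le
          exact mul_le_mul_of_nonneg_left hJ hk
  exact le_of_mul_le_mul_left h2 h1h

end SokalQ
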