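import Pool.Agent.Lib_MP_af4de1_fu.MReg

/-!
# Position of the saddle points, `9/2 ≤ ρ ≤ 8` [FQ-2a]

`s = σ + y`, `a² + s² = ρ² e^(2a)` (`Sad.sq`), `s ≤ ρ e^a`, `Sad.pos_facts` (all in `MReg`).
-/

set_option autoImplicit false

namespace SokalQ

open Real SokalFU

variable {ρ y a σ : ℝ}

private theorem qra_E_pos (h1 : 9 / 2 ≤ ρ) : 0 < ρ * exp a := mul_pos (by linarith) (exp_pos a)

private theorem qra_half_pi (H : Sad ρ y a σ) (h1 : 9 / 2 ≤ ρ) (ha : a ≤ 0) : π / 2 ≤ σ := by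
  by_contra hc
  push Not at hc
  have h3 : 0 < ρ * exp a := qra_E_pos h1
  have h4 : 0 < cos σ := cos_pos_of_mem_Ioo ⟨by linarith [H.σ0, pi_pos], hc⟩
  have h5 := mul_pos h3 h4
  rw [H.C] at h5
  linarith

private theorem qra_s_le (H : Sad ρ y a σ) (h1 : 9 / 2 ≤ ρ) : σ + y ≤ ρ * exp a := by
  rw [← H.S]
  have h3 : 0 < ρ * exp a := qra_E_pos h1
  calc ρ * exp a * sin σ ≤ ρ * exp a * 1 := mul_le_mul_of_nonneg_left (sin_le_one σ) h3.le
    _ = ρ * exp a := mul_one _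

/-- `ρ cos σ = a e^(-a)` -/
private theorem qra_cos (H : Sad ρ y a σ) : ρ * cos σ = a * exp (-a) := by
  have h4 : ρ * exp a * cos σ * exp (-a) = ρ * cos σ := by
    have : exp a * exp (-a) = 1 := by rw [← exp_add, add_neg_cancel, exp_zero]
    calc ρ * exp a * cos σ * exp (-a) = ρ * cos σ * (exp a * exp (-a)) := by ring
      _ = _ := by rw [this, mul_one]
  rw [← h4, H.C]

private theorem qra_aexp (a : ℝ) : a * exp (-a) ≤ 36789 / 100000 := by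
  have h4 : a ≤ exp a * exp (-1) := by
    rw [← exp_add]
    have := add_one_le_exp (a + -1)
    linarith
  have h5 : exp (-1) ≤ 36789 / 100000 := by
    have h6 := exp_one_gt_d9
    rw [exp_neg]
    rw [inv_le_comm₀ (exp_pos 1) (by norm_num)]
    norm_num at h6 ⊢
    linarith
  have h6 : exp a * exp (-a) = 1 := by rw [← exp_add, add_neg_cancel, exp_zero]
  have h7 := exp_pos (-a)
  calc a * exp (-a) ≤ exp a * exp (-1) * exp (-a) := mul_le_mul_of_nonneg_right h4 h7.le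
    _ = exp (-1) * (exp a * exp (-a)) := by ring
    _ = exp (-1) := by rw [h6, mul_one]
    _ ≤ _ := h5

/-- `cos σ = a e^(-a)/ρ ≤ 1/(e ρ) ≤ .0818`, `cos σ ≥ 1 - (2/π) σ`, so `σ ≥ 1.44`; `sin σ ≥ .9966`; `a = ρ e^a cos σ ≤ .0818 ρ e^a`,
`s = ρ e^a sin σ`, so `a ≤ s/12`. -/
theorem posQ (H : Sad ρ y a σ) (h1 : 9 / 2 ≤ ρ) (ha : 0 ≤ a) :
    144 / 100 ≤ σ ∧ σ ≤ π / 2 ∧ a ≤ (σ + y) / 12 ∧ ρ * exp a ≤ 1004 / 1000 * (σ + y) := by
  have hE : 0 < ρ * exp a := qra_E_pos h1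
  obtain ⟨-, hσ, -, -, -, -⟩ := H.pos_facts (by linarith) ha
  have hc0 : 0 ≤ cos σ := cos_nonneg_of_mem_Icc ⟨by linarith [H.σ0, pi_pos], hσ⟩
  have hc : cos σ ≤ 8176 / 100000 := by
    have h2 := qra_cos H
    have h3 := qra_aexp a
    nlinarith
  have hs0 := sin_nonneg_of_nonneg_of_le_pi H.σ0 H.σπ
  have hs : 9966 / 10000 ≤ sin σ := by
    have h2 := sin_sq_add_cos_sq σ
    by_contra hn
    push Not at hn
    nlinarith
  have h5 : 9966 / 10000 * (ρ * exp a) ≤ σ + y := by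
    rw [← H.S]
    nlinarith
  refine ⟨?_, hσ, ?_, by linarith⟩
  · by_contra hn
    push Not at hn
    have h2 : cos (144 / 100) < cos σ :=
      cos_lt_cos_of_nonneg_of_le_pi H.σ0 (by linarith [pi_gt_d2]) hn
    have h3 : sin (13 / 100) ≤ cos (144 / 100) := by
      rw [← sin_pi_div_two_sub]
      refine sin_le_sin_of_le_of_le_pi_div_two (by linarith [pi_gt_d2]) (by linarith [pi_gt_d2]) ?_
      linarith [pi_gt_d4]
    have h4 := sin_ge_sub_cube (x := 13 / 100) (by norm_num)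
    norm_num at h4
    linarith
  · have h2 := H.C
    nlinarith

/-- `a ≤ 0`: `σ ≥ π/2`; else `posQ`. -/
theorem sigQ (H : Sad ρ y a σ) (h1 : 9 / 2 ≤ ρ) : 144 / 100 ≤ σ := by
  rcases le_total a 0 with h | h
  · have := qra_half_pi H h1 h
    linarith [pi_gt_d2]
  · exact (posQ H h1 h).1

/-- right saddle: if `a < 1/5`: `a ≤ 0` gives `σ ≥ π/2`, `s ≤ ρ`, `y ≤ ρ - π/2`; `0 < a < 1/5`: `s ≤ ρ e^(1/5) ≤ 1.2215 ρ`, so `σ = s - y ≤ .2215 ρ - 1/4 ≤ 1.522`,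
but `cos σ = a e^(-a)/ρ ≤ .1638/ρ` and `σ ≥ (π/2)(1 - .1638/ρ)` which is `≥ 1.538` at `ρ = 8`, `≥ 1.5136` always, and `.2215·7 - .25 = 1.3005`.
`s = σ + y ≥ 1.44 + 4.75`, `s ≤ π/2 + ρ + 1/4 + 2π ≤ 16.11`. -/
theorem rightQ (H : Sad ρ y a σ) (h1 : 9 / 2 ≤ ρ) (h2 : ρ ≤ 8) (hy : ρ + 1 / 4 ≤ y)
    (hy' : y ≤ ρ + 1 / 4 + 2 * π) : 1 / 5 ≤ a ∧ 6 ≤ σ + y ∧ σ + y ≤ 1615 / 100 := by
  have hs := qra_s_le H h1
  have ha : 0 < a := by
    by_contra hc
    push Not at hc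
    have h3 := qra_half_pi H h1 hc
    have h4 : exp a ≤ 1 := exp_le_one_iff.2 hc
    have h5 : ρ * exp a ≤ ρ * 1 := mul_le_mul_of_nonneg_left h4 (by linarith)
    linarith [pi_gt_d2]
  obtain ⟨g1, g2, g3, g4⟩ := posQ H h1 ha.le
  refine ⟨?_, by linarith, by linarith [pi_lt_d4]⟩
  by_contra hc
  push Not at hc
  -- `e^a ≤ 1.2215`
  have h3 : exp a ≤ 12215 / 10000 := by
    refine (exp_le_exp.2 hc.le).trans ?_
    have h4 := Real.exp_bound' (x := 1 / 5) (by norm_num) (by norm_num) (n := 5) (by norm_num)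
    refine h4.trans ?_
    norm_num [Finset.sum_range_succ, Nat.factorial]
  have h4 : ρ * exp a ≤ ρ * (12215 / 10000) := mul_le_mul_of_nonneg_left h3 (by linarith)
  -- `a e^(-a) ≤ .1645`
  have h5 : a * exp (-a) ≤ 1645 / 10000 := by
    have h6 := quadratic_le_exp_of_nonneg ha.le
    have h7 : exp a * exp (-a) = 1 := by rw [← exp_add, add_neg_cancel, exp_zero]
    have h8 := exp_pos (-a)
    have h9 : (1 + a + a ^ 2 / 2) * exp (-a) ≤ 1 := by
      have h11 := mul_le_mul_of_nonneg_right h6 h8.le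
      linarith
    have h10 : a ≤ 1645 / 10000 * (1 + a + a ^ 2 / 2) := by nlinarith [mul_nonneg ha.le (sub_nonneg.2 hc.le)]
    calc a * exp (-a) ≤ 1645 / 10000 * (1 + a + a ^ 2 / 2) * exp (-a) := mul_le_mul_of_nonneg_right h10 h8.le
      _ = 1645 / 10000 * ((1 + a + a ^ 2 / 2) * exp (-a)) := by ring
      _ ≤ 1645 / 10000 * 1 := mul_le_mul_of_nonneg_left h9 (by norm_num)
      _ = _ := mul_one _
  -- `ρ (π/2 - σ) ≤ (π/2) a e^(-a)`
  have h6 : π / 2 - σ ≤ π / 2 * cos σ := by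
    have h7 := mul_le_sin (x := π / 2 - σ) (by linarith) (by linarith [H.σ0])
    rw [sin_pi_div_two_sub] at h7
    have hπ := pi_pos
    have h8 : π / 2 * (2 / π * (π / 2 - σ)) = π / 2 - σ := by field_simp
    have h9 := mul_le_mul_of_nonneg_left h7 (by positivity : 0 ≤ π / 2)
    rwa [h8] at h9
  have h7 : ρ * (π / 2 - σ) ≤ π / 2 * (1645 / 10000) := by
    have h8 := mul_le_mul_of_nonneg_left h6 (by linarith : 0 ≤ ρ)
    have h9 : ρ * (π / 2 * cos σ) = π / 2 * (ρ * cos σ) := by ring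
    rw [h9, qra_cos H] at h8
    exact h8.trans (mul_le_mul_of_nonneg_left h5 (by linarith [pi_pos]))
  have h8 : σ ≤ 2215 / 10000 * ρ - 1 / 4 := by linarith
  have hπ1 := pi_gt_d4
  have hπ2 := pi_lt_d4
  have h9 : ρ * (15707 / 10000 - (2215 / 10000 * ρ - 1 / 4)) ≤ ρ * (π / 2 - σ) :=
    mul_le_mul_of_nonneg_left (by linarith) (by linarith)
  nlinarith [mul_nonneg (sub_nonneg.2 h1) (sub_nonneg.2 h2)]

end SokalQ
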