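import Pool.Agent.Lib_MP_af4de1_q.QRegA

/-!
# Position of the saddle points, `9/2 ≤ ρ ≤ 8` [FQ-2b]

`s = σ + y`, `a² + s² = ρ² e^(2a)` (`Sad.sq`), `s ≤ ρ e^a`, `Sad.pos_facts` (all in `MReg`).
-/

set_option autoImplicit false

namespace SokalQ

open Real SokalFU

variable {ρ y a σ : ℝ}

private theorem E_pos_qb (h1 : 9 / 2 ≤ ρ) : 0 < ρ * exp a :=
  mul_pos (by linarith) (exp_pos a)

private theorem exp_two_qb (a : ℝ) : exp (2 * a) = exp a ^ 2 := by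
  rw [← exp_nat_mul]
  norm_num

private theorem exp_lb_qb {x l : ℝ} (hx : 0 ≤ x)
    (h : l ≤ 1 + x + x ^ 2 / 2 + x ^ 3 / 6 + x ^ 4 / 24 + x ^ 5 / 120) : l ≤ exp x := by
  refine h.trans ?_
  have h1 := Real.sum_le_exp_of_nonneg hx 6
  simp only [Finset.sum_range_succ, Finset.sum_range_zero, Nat.factorial] at h1
  norm_num at h1
  linarith

private theorem exp_cubic_qb {x : ℝ} (h0 : -1 ≤ x) (h1 : x ≤ 0) :
    1 + x + x ^ 2 / 2 + x ^ 3 / 6 ≤ exp x := by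
  have h := Real.exp_bound (x := x) (abs_le.2 ⟨h0, by linarith⟩) (n := 5) (by norm_num)
  simp only [Finset.sum_range_succ, Finset.sum_range_zero, Nat.factorial] at h
  norm_num at h
  have h2 := (abs_le.1 h).1
  rw [abs_of_nonpos h1] at h2
  have h3 : (-x) ^ 5 ≤ x ^ 4 := by
    have h4 : (-x) ^ 5 = x ^ 4 * (-x) := by ring
    rw [h4]
    exact mul_le_of_le_one_right (by positivity) (by linarith)
  have h6 : 0 ≤ x ^ 4 := by positivity
  linarith

private theorem left1_qb (H : Sad ρ y a σ) (h1 : 9 / 2 ≤ ρ) (hy : ρ + 1 / 4 - 2 * π ≤ y) :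
    -(6 / 5) ≤ a := by
  by_contra hc
  push Not at hc
  have hE := E_pos_qb (a := a) h1
  -- `e^(6/5) ≥ 3.31`
  have e1 : 331 / 100 ≤ exp (6 / 5) := exp_lb_qb (by norm_num) (by norm_num)
  have e2 : exp (6 / 5) ≤ exp (-a) := exp_le_exp.2 (by linarith)
  have e3 : exp a * exp (-a) = 1 := by rw [← exp_add, add_neg_cancel, exp_zero]
  have ea := exp_pos a
  have e4 : exp a ≤ 100 / 331 := by
    have h2 : exp a * (331 / 100) ≤ exp a * exp (-a) :=
      mul_le_mul_of_nonneg_left (e1.trans e2) ea.le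
    rw [e3] at h2
    linarith
  -- `ρ cos σ = a e^(-a) ≤ -3.972`
  have hC : ρ * cos σ ≤ -(3972 / 1000) := by
    have h2 : ρ * cos σ = a * exp (-a) := by
      calc ρ * cos σ = ρ * exp a * cos σ * exp (-a) := by
            calc ρ * cos σ = ρ * cos σ * (exp a * exp (-a)) := by rw [e3, mul_one]
              _ = _ := by ring
        _ = a * exp (-a) := by rw [H.C]
    rw [h2]
    have h3 : (6 / 5 : ℝ) * (331 / 100) ≤ -a * exp (-a) :=
      mul_le_mul (by linarith) (e1.trans e2) (by norm_num) (by linarith)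
    norm_num at h3
    linarith
  have hρ : 0 < ρ := by linarith
  have hs0 : 0 ≤ σ + y := H.s_nonneg (by linarith)
  -- `s² ≤ .0913 (ρ² - 15.77)`
  have hS : (σ + y) ^ 2 ≤ (100 / 331) ^ 2 * (ρ ^ 2 - (3972 / 1000) ^ 2) := by
    have h2 : (σ + y) ^ 2 = exp a ^ 2 * (ρ ^ 2 - (ρ * cos σ) ^ 2) := by
      have h3 := sin_sq_add_cos_sq σ
      rw [← H.S]
      have h4 : sin σ ^ 2 = 1 - cos σ ^ 2 := by linarith
      calc (ρ * exp a * sin σ) ^ 2 = exp a ^ 2 * (ρ ^ 2 * sin σ ^ 2) := by ring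
        _ = _ := by rw [h4]; ring
    have h5 : (3972 / 1000) ^ 2 ≤ (ρ * cos σ) ^ 2 := by
      rw [← neg_sq (ρ * cos σ)]
      exact pow_le_pow_left₀ (by norm_num) (by linarith) 2
    have h6 : exp a ^ 2 ≤ (100 / 331) ^ 2 := pow_le_pow_left₀ ea.le e4 2
    have h7 : 0 ≤ ρ ^ 2 - (3972 / 1000) ^ 2 :=
      sub_nonneg.2 (pow_le_pow_left₀ (by norm_num) (by linarith) 2)
    rw [h2]
    calc exp a ^ 2 * (ρ ^ 2 - (ρ * cos σ) ^ 2) ≤ exp a ^ 2 * (ρ ^ 2 - (3972 / 1000) ^ 2) :=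
          mul_le_mul_of_nonneg_left (by linarith) (by positivity)
      _ ≤ _ := mul_le_mul_of_nonneg_right h6 h7
  -- `σ ≥ π/2 + 3.972/ρ`
  have hcos : cos σ ≤ 0 := by
    by_contra h2
    push Not at h2
    have := mul_pos hρ h2
    linarith
  have hσ : π / 2 ≤ σ := by
    by_contra h2
    push Not at h2
    have h3 : 0 < cos σ := cos_pos_of_mem_Ioo ⟨by linarith [H.σ0, pi_pos], h2⟩
    linarith
  have hτ : 3972 / 1000 ≤ ρ * (σ - π / 2) := by
    have h2 : sin (σ - π / 2) ≤ σ - π / 2 := sin_le (by linarith)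
    rw [sin_sub_pi_div_two] at h2
    have h3 := mul_le_mul_of_nonneg_left h2 hρ.le
    linarith
  have hπ := pi_lt_d4
  obtain ⟨τ, hτd⟩ : ∃ τ, τ = σ - π / 2 := ⟨_, rfl⟩
  obtain ⟨s, hs⟩ : ∃ s, s = σ + y := ⟨_, rfl⟩
  rw [← hτd] at hτ
  rw [← hs] at hS hs0
  have h2 : ρ - 44624 / 10000 + τ ≤ s := by
    rw [hs, hτd]
    linarith
  have hτ0 : 0 ≤ τ := by
    rw [hτd]
    linarith
  have h3 : 17824 / 10000 ≤ 2 / 10 * ρ + τ := by
    by_contra h4
    push Not at h4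
    have h5 : (2 / 10 * ρ + τ) ^ 2 < (17824 / 10000) ^ 2 :=
      pow_lt_pow_left₀ h4 (by positivity) two_ne_zero
    have h6 : (2 / 10 * ρ + τ) ^ 2 = (2 / 10 * ρ - τ) ^ 2 + 8 / 10 * (ρ * τ) := by ring
    norm_num at h5
    linarith [sq_nonneg (2 / 10 * ρ - τ)]
  have h5 : 8 / 10 * ρ - 268 / 100 ≤ s := by linarith
  have h6 : 0 ≤ 8 / 10 * ρ - 268 / 100 := by linarith
  have h7 : (8 / 10 * ρ - 268 / 100) ^ 2 ≤ s ^ 2 := pow_le_pow_left₀ h6 h5 2
  linarith [sq_nonneg (ρ - 391 / 100)]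

private theorem left2_qb (H : Sad ρ y a σ) (h1 : 9 / 2 ≤ ρ) (hy : ρ + 1 / 4 - 2 * π ≤ y) :
    4 / 5 ≤ σ + y := by
  by_contra hc
  push Not at hc
  have ha6 := left1_qb H h1 hy
  have hE := E_pos_qb (a := a) h1
  have ha0 : a < 0 := by
    by_contra h2
    push Not at h2
    have h3 := (H.pos_facts (by linarith) h2).2.2.2.1
    linarith
  have hs0 : 0 ≤ σ + y := H.s_nonneg (by linarith)
  have ha11 : a < -(11 / 10) := by
    by_contra h2
    push Not at h2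
    have h3 := H.sq
    have h4 : exp (2 * (-(11 / 10))) ≤ exp (2 * a) := exp_le_exp.2 (by linarith)
    have h5 : 10 / 94 ≤ exp (2 * (-(11 / 10))) := by
      have h6 : exp (11 / 10) ≤ 306 / 100 := by
        have h7 : exp (11 / 10) = exp 1 * exp (1 / 10) := by
          rw [← exp_add]
          norm_num
        have h8 := exp_one_lt_d9
        have h9 : exp (1 / 10) ≤ 1106 / 1000 := by
          have h10 := Real.exp_bound' (x := 1 / 10) (by norm_num) (by norm_num) (n := 3) (by norm_num)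
          simp only [Finset.sum_range_succ, Finset.sum_range_zero, Nat.factorial] at h10
          norm_num at h10
          linarith
        rw [h7]
        have h11 := exp_pos (1 / 10)
        have h12 : exp 1 * exp (1 / 10) ≤ 272 / 100 * (1106 / 1000) :=
          mul_le_mul (by linarith) h9 h11.le (by norm_num)
        norm_num at h12
        linarith
      have h12 : exp (2 * (-(11 / 10))) * (exp (11 / 10)) ^ 2 = 1 := by
        rw [← exp_nat_mul, ← exp_add]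
        norm_num
      have h13 : (exp (11 / 10)) ^ 2 ≤ (306 / 100) ^ 2 :=
        pow_le_pow_left₀ (exp_pos _).le h6 2
      have h14 := exp_pos (2 * (-(11 / 10)) : ℝ)
      have h15 := mul_le_mul_of_nonneg_left h13 h14.le
      rw [h12] at h15
      linarith
    have h15 : 81 / 4 ≤ ρ ^ 2 := by
      have := pow_le_pow_left₀ (by norm_num) h1 2
      linarith
    have h16 : 81 / 4 * (10 / 94) ≤ ρ ^ 2 * exp (2 * a) :=
      mul_le_mul h15 (h5.trans h4) (by norm_num) (by positivity)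
    have h17 : a ^ 2 ≤ (11 / 10) ^ 2 := by
      rw [← neg_sq a]
      exact pow_le_pow_left₀ (by linarith) (by linarith) 2
    have h18 : (σ + y) ^ 2 ≤ (4 / 5) ^ 2 := pow_le_pow_left₀ hs0 hc.le 2
    norm_num at h16 h17 h18
    linarith
  -- `t = π - σ`
  have ht0 : 0 ≤ π - σ := by linarith [H.σπ]
  have ht : (π - σ) * (-a) ≤ σ + y := by
    rcases ht0.eq_or_lt with h2 | h2
    · rw [← h2, zero_mul]
      exact hs0
    · have hcos : cos σ < 0 := by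
        by_contra h3
        push Not at h3
        have := mul_nonneg hE.le h3
        rw [H.C] at this
        linarith
      have h4 : π - σ < π / 2 := by
        by_contra h5
        push Not at h5
        have h6 : 0 ≤ cos σ := cos_nonneg_of_mem_Icc ⟨by linarith [H.σ0, pi_pos], by linarith⟩
        linarith
      have h7 := lt_tan h2 h4
      rw [tan_eq_sin_div_cos, sin_pi_sub, cos_pi_sub, lt_div_iff₀ (by linarith)] at h7
      have h8 := mul_lt_mul_of_pos_left h7 hE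
      have h9 : ρ * exp a * ((π - σ) * -cos σ) = (π - σ) * (-(ρ * exp a * cos σ)) := by ring
      rw [h9, H.C, H.S] at h8
      exact h8.le
  have hπ1 := pi_gt_d4
  have hπ2 := pi_lt_d4
  have h10 : (π - σ) * (11 / 10) ≤ (π - σ) * (-a) := mul_le_mul_of_nonneg_left (by linarith) ht0
  linarith

/-- `a ≥ -6/5`: if `a < -6/5`: `a e^(-a) ≤ -(6/5) e^(6/5) ≤ -3.972`, `cos σ ≤ -3.984/ρ`, `s ≤ ρ e^(-6/5) sin σ`, `s² ≤ .0908 (ρ² - 15.87)`, `σ ≥ π/2 + 3.984/ρ`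
(`arccos(-x) ≥ π/2 + x`); `y = s - σ < ρ + 1/4 - 2π` (at `ρ = 9/2`: `.630 - 1.571 - .885 = -1.826 < -1.533`; the difference grows with `ρ`).
`s ≥ 4/5`: if `s < 4/5`, then `a < 0`; `|a| ≤ 1.1` would give `a² + s² ≤ 1.85 < 2.24 ≤ ρ² e^(-2.2)`; so `|a| ≥ 1.1` and, with `t = π - σ ∈ [0, π/2)`,
`t ≤ tan t = s/|a| ≤ 8/11`, `y = s - π + t ≤ -1.614 < -1.5333`. -/
theorem leftQ (H : Sad ρ y a σ) (h1 : 9 / 2 ≤ ρ) (h2 : ρ ≤ 8) (hy : ρ + 1 / 4 - 2 * π ≤ y) :
    -(6 / 5) ≤ a ∧ 4 / 5 ≤ σ + y :=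
  ⟨left1_qb H h1 hy, left2_qb H h1 hy⟩

/-- `s² = ρ² e^(2a) - a² ≥ ρ² (1+a)²` for `-6/5 ≤ a` (`e^(2a) - (1+a)² ≥ a²/20.25`; e.g. from `e^(2a) ≥ 1+2a+2a²+4a³/3` and, for `a ≤ -2/3`, `(1+a)² ≤ 1/9`),
`ρ ≥ 9/2`, `s ≥ 0`. -/
theorem lineQ (H : Sad ρ y a σ) (h1 : 9 / 2 ≤ ρ) (ha : -(6 / 5) ≤ a) : a ≤ 2 / 9 * (σ + y) - 1 := by
  have hs0 : 0 ≤ σ + y := H.s_nonneg (by linarith)
  rcases le_total a (-1) with h2 | h2
  · linarith
  · have hsq := H.sq
    rw [exp_two_qb] at hsq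
    obtain ⟨s, hs⟩ : ∃ s, s = σ + y := ⟨_, rfl⟩
    rw [← hs] at hs0 hsq ⊢
    have hρ2 : 81 / 4 ≤ ρ ^ 2 := by
      have := pow_le_pow_left₀ (by norm_num) h1 2
      linarith
    -- `(1+a)² + a²/20.25 ≤ e^(2a)`
    have key : (1 + a) ^ 2 + a ^ 2 * (4 / 81) ≤ exp a ^ 2 := by
      rcases le_total a 0 with h3 | h3
      · have h4 := exp_cubic_qb h2 h3
        obtain ⟨P, hP⟩ : ∃ P, P = 1 + a + a ^ 2 / 2 + a ^ 3 / 6 := ⟨_, rfl⟩
        rw [← hP] at h4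
        have h5 : 1 / 3 ≤ 1 / 2 + a / 6 := by linarith
        have h6 : 1 / 3 ≤ 2 + 2 * a + a ^ 2 / 2 + a ^ 3 / 6 := by
          have h7 : 2 + 2 * a + a ^ 2 / 2 + a ^ 3 / 6 - 1 / 3 =
              (a + 1) * (5 / 3 + a / 3 + a ^ 2 / 6) := by ring
          have h8 : 0 ≤ (a + 1) * (5 / 3 + a / 3 + a ^ 2 / 6) :=
            mul_nonneg (by linarith) (by linarith [sq_nonneg a])
          linarith
        have h9 : 1 / 3 * (1 / 3) ≤ (1 / 2 + a / 6) * (2 + 2 * a + a ^ 2 / 2 + a ^ 3 / 6) :=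
          mul_le_mul h5 h6 (by norm_num) (by linarith)
        have h10 : P ^ 2 - (1 + a) ^ 2 =
            a ^ 2 * ((1 / 2 + a / 6) * (2 + 2 * a + a ^ 2 / 2 + a ^ 3 / 6)) := by
          rw [hP]
          ring
        have h11 : a ^ 2 * (1 / 3 * (1 / 3)) ≤
            a ^ 2 * ((1 / 2 + a / 6) * (2 + 2 * a + a ^ 2 / 2 + a ^ 3 / 6)) :=
          mul_le_mul_of_nonneg_left h9 (sq_nonneg a)
        have hP0 : 0 ≤ P := by
          have h12 : P = (1 + a) + a ^ 2 * (1 / 2 + a / 6) := by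
            rw [hP]
            ring
          rw [h12]
          have := mul_nonneg (sq_nonneg a) (by linarith : (0 : ℝ) ≤ 1 / 2 + a / 6)
          linarith
        have h13 : P ^ 2 ≤ exp a ^ 2 := pow_le_pow_left₀ hP0 h4 2
        rw [← h10] at h11
        linarith [sq_nonneg a]
      · have h4 := quadratic_le_exp_of_nonneg h3
        have h5 : (1 + a + a ^ 2 / 2) ^ 2 ≤ exp a ^ 2 :=
          pow_le_pow_left₀ (by positivity) h4 2
        have h6 : 0 ≤ a ^ 3 := by positivity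
        have h7 : (1 + a + a ^ 2 / 2) ^ 2 = (1 + a) ^ 2 + a ^ 2 + a ^ 3 + (a ^ 2) ^ 2 / 4 := by ring
        linarith [sq_nonneg a, sq_nonneg (a ^ 2)]
    have h3 : (9 / 2 * (1 + a)) ^ 2 ≤ s ^ 2 := by
      have h4 : s ^ 2 = ρ ^ 2 * exp a ^ 2 - a ^ 2 := by linarith
      have h5 : 81 / 4 * ((1 + a) ^ 2 + a ^ 2 * (4 / 81)) ≤ ρ ^ 2 * exp a ^ 2 :=
        mul_le_mul hρ2 key (by positivity) (by positivity)
      rw [h4]
      have h6 : (9 / 2 * (1 + a)) ^ 2 + a ^ 2 = 81 / 4 * ((1 + a) ^ 2 + a ^ 2 * (4 / 81)) := by ring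
      linarith
    have h4 : 9 / 2 * (1 + a) ≤ s := le_of_sq_le_sq h3 hs0
    linarith

/-- left saddle, `y ≤ ρ + 1/4`: if `a ≤ 0`: `s ≤ ρ`.  If `a > 0`: `σ ≤ π/2`, `s ≤ ρ + 1.8208`; `ρ e^a ≤ s + a²/(2s)`, `s ≥ ρ`, `e^a ≥ 1+a+a²/2`:
`ρ a + (ρ/2 - 1/9) a² ≤ 1.8208`; then `a ≤ 7/20`, and `a + .0384 s ≤ a + .0384 ρ + .0700 ≤ .5907`
(at `a = .5207 - .0384 ρ` the left side of the quadratic inequality is `≥ 1.8225` for `9/2 ≤ ρ ≤ 8`; it is concave in `ρ` there). -/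
theorem topQ (H : Sad ρ y a σ) (h1 : 9 / 2 ≤ ρ) (h2 : ρ ≤ 8) (hy : y ≤ ρ + 1 / 4) :
    σ + y ≤ 983 / 100 ∧ a + 24 / 625 * (σ + y) ≤ 5907 / 10000 := by
  have hρ : 0 < ρ := by linarith
  have hπ := pi_lt_d4
  rcases le_total a 0 with h3 | h3
  · have h4 : σ + y ≤ 8 := by
      have h5 : exp a ≤ 1 := exp_le_one_iff.2 h3
      have h6 := sin_le_one σ
      have h7 : ρ * exp a * sin σ ≤ ρ * exp a * 1 := mul_le_mul_of_nonneg_left h6 (E_pos_qb h1).le
      have h8 : ρ * exp a ≤ ρ * 1 := mul_le_mul_of_nonneg_left h5 hρ.le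
      rw [H.S] at h7
      linarith
    exact ⟨by linarith, by linarith⟩
  · obtain ⟨g1, g2, g3, g4, g5, g6⟩ := H.pos_facts (by linarith) h3
    have hsc : σ + y ≤ ρ + 18208 / 10000 := by linarith
    refine ⟨by linarith, ?_⟩
    by_contra hc
    push Not at hc
    have hsq := H.sq
    rw [exp_two_qb] at hsq
    obtain ⟨s, hs⟩ : ∃ s, s = σ + y := ⟨_, rfl⟩
    rw [← hs] at hsc hc hsq g4
    have hq := quadratic_le_exp_of_nonneg h3
    obtain ⟨E, hE⟩ : ∃ E, E = ρ * exp a := ⟨_, rfl⟩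
    have hsq2 : a ^ 2 + s ^ 2 = E ^ 2 := by
      rw [hsq, hE]
      ring
    have hE1 : ρ * (1 + a + a ^ 2 / 2) ≤ E := by
      rw [hE]
      exact mul_le_mul_of_nonneg_left hq hρ.le
    -- `s ≥ ρ`
    have hsρ : ρ ≤ s := by
      by_contra h4
      push Not at h4
      have h5 : ρ ^ 2 * (1 + a + a ^ 2 / 2) ^ 2 ≤ E ^ 2 := by
        rw [← mul_pow]
        exact pow_le_pow_left₀ (by positivity) hE1 2
      have h6 : s ^ 2 < ρ ^ 2 := pow_lt_pow_left₀ h4 (by linarith) two_ne_zero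
      have h7 : ρ ^ 2 * (1 + a ^ 2) ≤ ρ ^ 2 * (1 + a + a ^ 2 / 2) ^ 2 := by
        refine mul_le_mul_of_nonneg_left ?_ (by positivity)
        have : 0 ≤ a ^ 3 := by positivity
        have h8 : (1 + a + a ^ 2 / 2) ^ 2 = 1 + a ^ 2 + (2 * a + a ^ 2 + a ^ 3 + (a ^ 2) ^ 2 / 4) := by ring
        linarith [sq_nonneg (a ^ 2), sq_nonneg a]
      have h8 : a ^ 2 ≤ ρ ^ 2 * a ^ 2 :=
        le_mul_of_one_le_left (sq_nonneg a) (one_le_pow₀ (by linarith))
      have h9 : ρ ^ 2 * (1 + a ^ 2) = ρ ^ 2 + ρ ^ 2 * a ^ 2 := by ring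
      linarith
    have hE2 : E ≤ s + a ^ 2 / 9 := by
      by_contra h4
      push Not at h4
      have h5 : 0 ≤ s + a ^ 2 / 9 := by positivity
      have h6 : (s + a ^ 2 / 9) ^ 2 < E ^ 2 := pow_lt_pow_left₀ h4 h5 (by norm_num)
      have h7 := mul_le_mul_of_nonneg_right (h1.trans hsρ) (sq_nonneg a)
      have h8 : (s + a ^ 2 / 9) ^ 2 = s ^ 2 + 2 / 9 * (s * a ^ 2) + (a ^ 2) ^ 2 / 81 := by ring
      linarith [sq_nonneg (a ^ 2)]
    have h4 : ρ * a + (ρ / 2 - 1 / 9) * a ^ 2 ≤ 18208 / 10000 := by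
      have h5 : ρ * (1 + a + a ^ 2 / 2) = ρ + ρ * a + ρ / 2 * a ^ 2 := by ring
      rw [h5] at hE1
      have h6 : (ρ / 2 - 1 / 9) * a ^ 2 = ρ / 2 * a ^ 2 - a ^ 2 / 9 := by ring
      linarith
    obtain ⟨b, hb⟩ : ∃ b, b = 5207 / 10000 - 384 / 10000 * ρ := ⟨_, rfl⟩
    have hba : b ≤ a := by
      rw [hb]
      linarith
    have hb0 : 0 ≤ b := by
      rw [hb]
      linarith
    have h5 : ρ * b + (ρ / 2 - 1 / 9) * b ^ 2 ≤ 18208 / 10000 := by
      have h6 : ρ * b ≤ ρ * a := mul_le_mul_of_nonneg_left hba hρ.le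
      have h7 : b ^ 2 ≤ a ^ 2 := pow_le_pow_left₀ hb0 hba 2
      have h8 : (ρ / 2 - 1 / 9) * b ^ 2 ≤ (ρ / 2 - 1 / 9) * a ^ 2 :=
        mul_le_mul_of_nonneg_left h7 (by linarith)
      linarith
    obtain ⟨d, hd⟩ : ∃ d, d = ρ - 9 / 2 := ⟨_, rfl⟩
    have hd0 : 0 ≤ d := by linarith
    have hd1 : d ≤ 7 / 2 := by linarith
    have hρd : ρ = 9 / 2 + d := by linarith
    rw [hb, hρd] at h5
    have h6 : 0 ≤ d * (7 / 2 - d) := mul_nonneg hd0 (by linarith)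
    have h7 : 0 ≤ d ^ 3 := by positivity
    have h8 : (9 / 2 + d) * (5207 / 10000 - 384 / 10000 * (9 / 2 + d)) +
        ((9 / 2 + d) / 2 - 1 / 9) * (5207 / 10000 - 384 / 10000 * (9 / 2 + d)) ^ 2 =
        18208 / 10000 + 13064957 / 3600000000 + 107081299 / 600000000 * d -
          37973 / 781250 * d ^ 2 + 288 / 390625 * d ^ 3 := by
      ring
    rw [h8] at h5
    have h9 : d * (7 / 2 - d) = 7 / 2 * d - d ^ 2 := by ring
    rw [h9] at h6
    linarith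

end SokalQ
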