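import Mathlib

/-!
# Left contour, `9/2 ≤ ρ ≤ 8`: the scalar functions

`h = a + i s`, `v = ∓(x/6 + i x)`, `E = e^(-x/6)`.
-/

set_option autoImplicit false

namespace SokalQ

/-- the scalar function of `left` and `far` -/
noncomputable def fL (a s x : ℝ) : ℝ :=
  x ^ 2 / 6 - a * (x - Real.exp (-(x / 6)) * Real.sin x) +
    s * (1 - x / 6 - Real.exp (-(x / 6)) * Real.cos x)

/-- the scalar function of `right` -/
noncomputable def fR (a s x : ℝ) : ℝ :=
  x ^ 2 / 6 - a * (Real.exp (x / 6) * Real.sin x - x) +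
    s * (1 + x / 6 - Real.exp (x / 6) * Real.cos x)

end SokalQ
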